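import Mathlib

set_option autoImplicit false

namespace Pool.Agent.Work.MP_320dc7_lc

open Polynomial

/-- Ordered fields satisfying the intermediate value theorem and the mean value theorem for
polynomials. -/
structure RC (R : Type*) [Field R] [LinearOrder R] [IsStrictOrderedRing R] : Prop where
  ivt : ∀ (p : R[X]) (a b : R), a < b → p.eval a < 0 → 0 < p.eval b →
    ∃ c, a < c ∧ c < b ∧ p.eval c = 0
  mvt : ∀ (p : R[X]) (a b : R), a < b →
    ∃ c, a < c ∧ c < b ∧ p.eval b - p.eval a = p.derivative.eval c * (b - a)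

section one

variable {R : Type*} [Field R] [LinearOrder R] [IsStrictOrderedRing R]

lemma RC.ivt' (h : RC R) (p : R[X]) (a b : R) (hab : a < b) (ha : 0 < p.eval a)
    (hb : p.eval b < 0) : ∃ c, a < c ∧ c < b ∧ p.eval c = 0 := by
  obtain ⟨c, h1, h2, h3⟩ := h.ivt (-p) a b hab (by simpa using ha) (by simpa using hb)
  exact ⟨c, h1, h2, by simpa using h3⟩

lemma inf_pos (n : ℕ) : ∀ p : R[X], p.natDegree = n → 0 < p.leadingCoeff →
    ∃ M ε : R, 0 < ε ∧ ∀ y, M ≤ y → ε ≤ p.eval y := by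
  induction n with
  | zero =>
    intro p hp hlc
    obtain ⟨c, rfl⟩ := natDegree_eq_zero.mp hp
    rw [leadingCoeff_C] at hlc
    exact ⟨0, c, hlc, fun y _ => by simp⟩
  | succ n ih =>
    intro p hp hlc
    have hq : p.divX.natDegree = n := by
      rw [natDegree_divX_eq_natDegree_tsub_one, hp]; rfl
    have hqlc : 0 < p.divX.leadingCoeff := by
      rw [leadingCoeff, hq, coeff_divX, ← hp]
      exact hlc
    obtain ⟨M, ε, hε, hM⟩ := ih _ hq hqlc
    refine ⟨max (max M 0) ((|p.coeff 0| + ε) / ε), ε, hε, ?_⟩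
    intro y hy
    have hyM : M ≤ y := le_trans (le_trans (le_max_left _ _) (le_max_left _ _)) hy
    have hy0 : 0 ≤ y := le_trans (le_trans (le_max_right _ _) (le_max_left _ _)) hy
    have hy1 : (|p.coeff 0| + ε) / ε ≤ y := le_trans (le_max_right _ _) hy
    have h1 : p.eval y = p.divX.eval y * y + p.coeff 0 := by
      conv_lhs => rw [← divX_mul_X_add p]
      simp
    rw [h1]
    have h2 : ε * y ≤ p.divX.eval y * y := mul_le_mul_of_nonneg_right (hM y hyM) hy0
    have h3 : |p.coeff 0| + ε ≤ ε * y := by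
      rw [div_le_iff₀ hε] at hy1
      linarith
    have h4 : -|p.coeff 0| ≤ p.coeff 0 := neg_abs_le _
    linarith

lemma up (g : R[X]) (hg : 0 < g.natDegree) (s : R) (hs : ∀ y, s < y → 0 < g.derivative.eval y) :
    ∃ y, s < y ∧ 0 < g.eval y := by
  have hlc : g.leadingCoeff ≠ 0 := by
    rw [Ne, leadingCoeff_eq_zero]
    rintro rfl
    simp at hg
  rcases lt_or_gt_of_ne hlc with hneg | hpos
  · exfalso
    have hdd : (-g.derivative).natDegree = g.natDegree - 1 := by
      rw [natDegree_neg, natDegree_derivative]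
    have hd : 0 < (-g.derivative).leadingCoeff := by
      rw [leadingCoeff, hdd, coeff_neg, coeff_derivative]
      have h1 : g.natDegree - 1 + 1 = g.natDegree := by omega
      rw [h1]
      have h2 : (0 : R) < ((g.natDegree - 1 : ℕ) : R) + 1 := by positivity
      have h3 : g.coeff g.natDegree < 0 := hneg
      have := mul_neg_of_neg_of_pos h3 h2
      linarith
    obtain ⟨M, ε, hε, hM⟩ := inf_pos _ (-g.derivative) rfl hd
    have h1 := hM (max M (s + 1)) (le_max_left _ _)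
    have h2 := hs (max M (s + 1)) (lt_of_lt_of_le (lt_add_one s) (le_max_right _ _))
    rw [eval_neg] at h1
    linarith
  · obtain ⟨M, ε, hε, hM⟩ := inf_pos _ g rfl hpos
    refine ⟨max M (s + 1), lt_of_lt_of_le (lt_add_one s) (le_max_right _ _), ?_⟩
    exact lt_of_lt_of_le hε (hM _ (le_max_left _ _))

lemma down (g : R[X]) (hg : 0 < g.natDegree) (s : R)
    (hs : ∀ y, y < s → 0 < g.derivative.eval y) : ∃ y, y < s ∧ g.eval y < 0 := by
  have hdeg : (-(g.comp (-X))).natDegree = g.natDegree := by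
    rw [natDegree_neg, natDegree_comp, natDegree_neg, natDegree_X, mul_one]
  obtain ⟨y, hy1, hy2⟩ := up (-(g.comp (-X))) (by rw [hdeg]; exact hg) (-s) (by
    intro y hy
    have := hs (-y) (by linarith)
    simp only [derivative_neg, derivative_comp, eval_neg, eval_mul, eval_comp, eval_X,
      derivative_X, eval_one]
    linarith)
  refine ⟨-y, by linarith, ?_⟩
  simp only [eval_neg, eval_comp, eval_X] at hy2
  linarith

end one

section transfer

variable {R R' : Type*} [Field R] [LinearOrder R] [IsStrictOrderedRing R]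
  [Field R'] [LinearOrder R'] [IsStrictOrderedRing R']

lemma pos_transfer (hR : RC R) (hR' : RC R') (A : Finset R) (θ : R → R') (y : R)
    (g : R[X]) (g' : R'[X]) (hg : 0 < g.natDegree)
    (hθ : ∀ r ∈ A, (r < y → θ r < θ y) ∧ (y < r → θ y < θ r))
    (hθ2 : ∀ r ∈ A, ∀ r' ∈ A, r ≤ r' → θ r ≤ θ r')
    (hyA : y ∉ A)
    (hd : ∀ z, (∀ r ∈ A, (r < y ∧ r < z) ∨ (y < r ∧ z < r)) → 0 < g.derivative.eval z)
    (hd' : ∀ z', (∀ r ∈ A, (r < y ∧ θ r < z') ∨ (y < r ∧ z' < θ r)) → 0 < g'.derivative.eval z')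
    (hs : ∀ r ∈ A, 0 ≤ g.eval r → 0 ≤ g'.eval (θ r))
    (hc : ∀ c, (∀ r ∈ A, (r < y ∧ r < c) ∨ (y < r ∧ c < r)) → g.eval c = 0 → c < y →
      (∀ r ∈ A, (r < y ∧ θ r < θ c) ∨ (y < r ∧ θ c < θ r)) ∧ g'.eval (θ c) = 0 ∧ θ c < θ y)
    (hy : 0 < g.eval y) : 0 < g'.eval (θ y) := by
  by_cases h1 : ∃ c, (∀ r ∈ A, (r < y ∧ r < c) ∨ (y < r ∧ c < r)) ∧ g.eval c = 0 ∧ c < y
  · obtain ⟨c, hc1, hc2, hc3⟩ := h1
    obtain ⟨h2, h3, h4⟩ := hc c hc1 hc2 hc3
    obtain ⟨ξ, hξ1, hξ2, hξ3⟩ := hR'.mvt g' (θ c) (θ y) h4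
    rw [h3, sub_zero] at hξ3
    rw [hξ3]
    apply mul_pos _ (by linarith)
    apply hd'
    intro r hr
    rcases h2 r hr with ⟨h5, h6⟩ | ⟨h5, h6⟩
    · exact Or.inl ⟨h5, lt_trans h6 hξ1⟩
    · exact Or.inr ⟨h5, lt_trans hξ2 ((hθ r hr).2 h5)⟩
  · push Not at h1
    by_cases h2 : (A.filter (fun r => r < y)).Nonempty
    · have hmem := Finset.max'_mem _ h2
      set r0 := (A.filter (fun r => r < y)).max' h2 with hr0
      rw [Finset.mem_filter] at hmem
      have hmax : ∀ r ∈ A, r < y → r ≤ r0 := fun r hr hry =>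
        Finset.le_max' _ _ (Finset.mem_filter.mpr ⟨hr, hry⟩)
      have h3 : 0 ≤ g.eval r0 := by
        by_contra hneg
        push Not at hneg
        obtain ⟨c, hc1, hc2, hc3⟩ := hR.ivt g r0 y hmem.2 hneg hy
        have := h1 c (by
          intro r hr
          rcases lt_trichotomy r y with h | h | h
          · exact Or.inl ⟨h, lt_of_le_of_lt (hmax r hr h) hc1⟩
          · exact absurd (h ▸ hr) hyA
          · exact Or.inr ⟨h, lt_trans hc2 h⟩) hc3
        exact absurd hc2 (not_lt.mpr this)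
      have h4 := hs r0 hmem.1 h3
      obtain ⟨ξ, hξ1, hξ2, hξ3⟩ := hR'.mvt g' (θ r0) (θ y) ((hθ r0 hmem.1).1 hmem.2)
      have h5 : 0 < g'.derivative.eval ξ := by
        apply hd'
        intro r hr
        rcases lt_trichotomy r y with h | h | h
        · exact Or.inl ⟨h, lt_of_le_of_lt (hθ2 r hr r0 hmem.1 (hmax r hr h)) hξ1⟩
        · exact absurd (h ▸ hr) hyA
        · exact Or.inr ⟨h, lt_trans hξ2 ((hθ r hr).2 h)⟩
      have h6 : 0 < θ y - θ r0 := by linarith
      have := mul_pos h5 h6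
      linarith
    · rw [Finset.not_nonempty_iff_eq_empty, Finset.filter_eq_empty_iff] at h2
      have hsim : ∀ z, z ≤ y → ∀ r ∈ A, (r < y ∧ r < z) ∨ (y < r ∧ z < r) := by
        intro z hz r hr
        right
        have h3 : y < r := lt_of_le_of_ne (not_lt.mp (h2 hr)) (fun h => hyA (h ▸ hr))
        exact ⟨h3, lt_of_le_of_lt hz h3⟩
      obtain ⟨z, hz1, hz2⟩ := down g hg y (fun z hz => hd z (hsim z hz.le))
      obtain ⟨c, hc1, hc2, hc3⟩ := hR.ivt g z y hz1 hz2 hy
      exact absurd hc2 (not_lt.mpr (h1 c (hsim c hc2.le) hc3))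

lemma neg_transfer (hR : RC R) (hR' : RC R') (A : Finset R) (θ : R → R') (y : R)
    (g : R[X]) (g' : R'[X]) (hg : 0 < g.natDegree)
    (hθ : ∀ r ∈ A, (r < y → θ r < θ y) ∧ (y < r → θ y < θ r))
    (hθ2 : ∀ r ∈ A, ∀ r' ∈ A, r ≤ r' → θ r ≤ θ r')
    (hyA : y ∉ A)
    (hd : ∀ z, (∀ r ∈ A, (r < y ∧ r < z) ∨ (y < r ∧ z < r)) → 0 < g.derivative.eval z)
    (hd' : ∀ z', (∀ r ∈ A, (r < y ∧ θ r < z') ∨ (y < r ∧ z' < θ r)) → 0 < g'.derivative.eval z')
    (hs : ∀ r ∈ A, g.eval r ≤ 0 → g'.eval (θ r) ≤ 0)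
    (hc : ∀ c, (∀ r ∈ A, (r < y ∧ r < c) ∨ (y < r ∧ c < r)) → g.eval c = 0 → y < c →
      (∀ r ∈ A, (r < y ∧ θ r < θ c) ∨ (y < r ∧ θ c < θ r)) ∧ g'.eval (θ c) = 0 ∧ θ y < θ c)
    (hy : g.eval y < 0) : g'.eval (θ y) < 0 := by
  by_cases h1 : ∃ c, (∀ r ∈ A, (r < y ∧ r < c) ∨ (y < r ∧ c < r)) ∧ g.eval c = 0 ∧ y < c
  · obtain ⟨c, hc1, hc2, hc3⟩ := h1
    obtain ⟨h2, h3, h4⟩ := hc c hc1 hc2 hc3
    obtain ⟨ξ, hξ1, hξ2, hξ3⟩ := hR'.mvt g' (θ y) (θ c) h4
    rw [h3, zero_sub] at hξ3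
    have h5 : 0 < g'.derivative.eval ξ * (θ c - θ y) := by
      apply mul_pos _ (by linarith)
      apply hd'
      intro r hr
      rcases h2 r hr with ⟨h5, h6⟩ | ⟨h5, h6⟩
      · exact Or.inl ⟨h5, lt_trans ((hθ r hr).1 h5) hξ1⟩
      · exact Or.inr ⟨h5, lt_trans hξ2 h6⟩
    linarith
  · push Not at h1
    by_cases h2 : (A.filter (fun r => y < r)).Nonempty
    · have hmem := Finset.min'_mem _ h2
      set r0 := (A.filter (fun r => y < r)).min' h2 with hr0
      rw [Finset.mem_filter] at hmem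
      have hmin : ∀ r ∈ A, y < r → r0 ≤ r := fun r hr hry =>
        Finset.min'_le _ _ (Finset.mem_filter.mpr ⟨hr, hry⟩)
      have h3 : g.eval r0 ≤ 0 := by
        by_contra hpos
        push Not at hpos
        obtain ⟨c, hc1, hc2, hc3⟩ := hR.ivt g y r0 hmem.2 hy hpos
        have := h1 c (by
          intro r hr
          rcases lt_trichotomy r y with h | h | h
          · exact Or.inl ⟨h, lt_trans h hc1⟩
          · exact absurd (h ▸ hr) hyA
          · exact Or.inr ⟨h, lt_of_lt_of_le hc2 (hmin r hr h)⟩) hc3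
        exact absurd hc1 (not_lt.mpr this)
      have h4 := hs r0 hmem.1 h3
      obtain ⟨ξ, hξ1, hξ2, hξ3⟩ := hR'.mvt g' (θ y) (θ r0) ((hθ r0 hmem.1).2 hmem.2)
      have h5 : 0 < g'.derivative.eval ξ := by
        apply hd'
        intro r hr
        rcases lt_trichotomy r y with h | h | h
        · exact Or.inl ⟨h, lt_trans ((hθ r hr).1 h) hξ1⟩
        · exact absurd (h ▸ hr) hyA
        · exact Or.inr ⟨h, lt_of_lt_of_le hξ2 (hθ2 r0 hmem.1 r hr (hmin r hr h))⟩
      have h6 : 0 < θ r0 - θ y := by linarith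
      have := mul_pos h5 h6
      linarith
    · rw [Finset.not_nonempty_iff_eq_empty, Finset.filter_eq_empty_iff] at h2
      have hsim : ∀ z, y ≤ z → ∀ r ∈ A, (r < y ∧ r < z) ∨ (y < r ∧ z < r) := by
        intro z hz r hr
        left
        have h3 : r < y := lt_of_le_of_ne (not_lt.mp (h2 hr)) (fun h => hyA (h ▸ hr))
        exact ⟨h3, lt_of_lt_of_le h3 hz⟩
      obtain ⟨z, hz1, hz2⟩ := up g hg y (fun z hz => hd z (hsim z hz.le))
      obtain ⟨c, hc1, hc2, hc3⟩ := hR.ivt g y z hz1 hy hz2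
      exact absurd hc1 (not_lt.mpr (h1 c (hsim c hc1.le) hc3))

lemma root_transfer (hR' : RC R') (A : Finset R) (θ : R → R') (c : R)
    (g' : R'[X]) (hg : 0 < g'.natDegree)
    (hθ2 : ∀ r ∈ A, ∀ r' ∈ A, r ≤ r' → θ r ≤ θ r')
    (hcA : c ∉ A) (w : R') (hw : ∀ r ∈ A, (r < c ∧ θ r < w) ∨ (c < r ∧ w < θ r))
    (hd' : ∀ z', (∀ r ∈ A, (r < c ∧ θ r < z') ∨ (c < r ∧ z' < θ r)) → 0 < g'.derivative.eval z')
    (hl : ∀ r ∈ A, r < c → (∀ r' ∈ A, r' < c → r' ≤ r) → g'.eval (θ r) < 0)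
    (hr : ∀ r ∈ A, c < r → (∀ r' ∈ A, c < r' → r ≤ r') → 0 < g'.eval (θ r)) :
    ∃ c', (∀ r ∈ A, (r < c ∧ θ r < c') ∨ (c < r ∧ c' < θ r)) ∧ g'.eval c' = 0 := by
  have hleft : ∃ a, a < w ∧ g'.eval a < 0 ∧ ∀ r ∈ A, r < c → θ r ≤ a := by
    by_cases h2 : (A.filter (fun r => r < c)).Nonempty
    · have hmem := Finset.max'_mem _ h2
      set r0 := (A.filter (fun r => r < c)).max' h2 with hr0
      rw [Finset.mem_filter] at hmem
      have hmax : ∀ r ∈ A, r < c → r ≤ r0 := fun r hr hry =>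
        Finset.le_max' _ _ (Finset.mem_filter.mpr ⟨hr, hry⟩)
      refine ⟨θ r0, ?_, hl r0 hmem.1 hmem.2 hmax, fun r hr hrc => hθ2 r hr r0 hmem.1 (hmax r hr hrc)⟩
      rcases hw r0 hmem.1 with h | h
      · exact h.2
      · exact absurd (lt_trans h.1 hmem.2) (lt_irrefl _)
    · rw [Finset.not_nonempty_iff_eq_empty, Finset.filter_eq_empty_iff] at h2
      obtain ⟨a, ha1, ha2⟩ := down g' hg w (by
        intro z hz
        apply hd'
        intro r hr
        rcases hw r hr with h | h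
        · exact absurd h.1 (h2 hr)
        · exact Or.inr ⟨h.1, lt_trans hz h.2⟩)
      exact ⟨a, ha1, ha2, fun r hr hrc => absurd hrc (h2 hr)⟩
  have hright : ∃ b, w < b ∧ 0 < g'.eval b ∧ ∀ r ∈ A, c < r → b ≤ θ r := by
    by_cases h2 : (A.filter (fun r => c < r)).Nonempty
    · have hmem := Finset.min'_mem _ h2
      set r0 := (A.filter (fun r => c < r)).min' h2 with hr0
      rw [Finset.mem_filter] at hmem
      have hmin : ∀ r ∈ A, c < r → r0 ≤ r := fun r hr hry =>
        Finset.min'_le _ _ (Finset.mem_filter.mpr ⟨hr, hry⟩)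
      refine ⟨θ r0, ?_, hr r0 hmem.1 hmem.2 hmin, fun r hr hrc => hθ2 r0 hmem.1 r hr (hmin r hr hrc)⟩
      rcases hw r0 hmem.1 with h | h
      · exact absurd (lt_trans h.1 hmem.2) (lt_irrefl _)
      · exact h.2
    · rw [Finset.not_nonempty_iff_eq_empty, Finset.filter_eq_empty_iff] at h2
      obtain ⟨b, hb1, hb2⟩ := up g' hg w (by
        intro z hz
        apply hd'
        intro r hr
        rcases hw r hr with h | h
        · exact Or.inl ⟨h.1, lt_trans h.2 hz⟩
        · exact absurd h.1 (h2 hr))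
      exact ⟨b, hb1, hb2, fun r hr hrc => absurd hrc (h2 hr)⟩
  obtain ⟨a, ha1, ha2, ha3⟩ := hleft
  obtain ⟨b, hb1, hb2, hb3⟩ := hright
  obtain ⟨c', h1, h2, h3⟩ := hR'.ivt g' a b (lt_trans ha1 hb1) ha2 hb2
  refine ⟨c', ?_, h3⟩
  intro r hr
  rcases lt_trichotomy r c with h | h | h
  · exact Or.inl ⟨h, lt_of_le_of_lt (ha3 r hr h) h1⟩
  · exact absurd (h ▸ hr) hcA
  · exact Or.inr ⟨h, lt_of_lt_of_le h2 (hb3 r hr h)⟩

lemma sign_const (hR : RC R) (p : R[X]) (a b : R) (hab : a ≤ b)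
    (h : ∀ z, a ≤ z → z ≤ b → p.eval z ≠ 0) :
    SignType.sign (p.eval a) = SignType.sign (p.eval b) := by
  rcases hab.eq_or_lt with rfl | hab
  · rfl
  have ha := h a le_rfl hab.le
  have hb := h b hab.le le_rfl
  rcases lt_or_gt_of_ne ha with ha | ha <;> rcases lt_or_gt_of_ne hb with hb | hb
  · rw [sign_neg ha, sign_neg hb]
  · obtain ⟨c, h1, h2, h3⟩ := hR.ivt p a b hab ha hb
    exact absurd h3 (h c h1.le h2.le)
  · obtain ⟨c, h1, h2, h3⟩ := hR.ivt' p a b hab ha hb
    exact absurd h3 (h c h1.le h2.le)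
  · rw [sign_pos ha, sign_pos hb]

lemma extend_mono (W Y : Finset R) (θ : R → R') (hθ : StrictMonoOn θ (W : Set R)) :
    ∃ θ' : R → R', StrictMonoOn θ' ((W ∪ Y : Finset R) : Set R) ∧ ∀ w ∈ W, θ' w = θ w := by
  classical
  induction Y using Finset.induction_on with
  | empty => exact ⟨θ, by simpa using hθ, fun _ _ => rfl⟩
  | @insert y Y _ ih =>
    obtain ⟨θ', h1, h2⟩ := ih
    by_cases hy : y ∈ W ∪ Y
    · refine ⟨θ', ?_, h2⟩
      have : W ∪ insert y Y = W ∪ Y := by
        rw [Finset.union_insert, Finset.insert_eq_of_mem hy]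
      rw [this]
      exact h1
    · obtain ⟨m, hm1, hm2⟩ := Order.exists_between_finsets
        (((W ∪ Y).filter (fun x => x < y)).image θ') (((W ∪ Y).filter (fun x => y < x)).image θ') (by
          intro a ha b hb
          rw [Finset.mem_image] at ha hb
          obtain ⟨a, ha, rfl⟩ := ha
          obtain ⟨b, hb, rfl⟩ := hb
          rw [Finset.mem_filter] at ha hb
          exact h1 ha.1 hb.1 (lt_trans ha.2 hb.2))
      refine ⟨Function.update θ' y m, ?_, ?_⟩
      · have hmem : ∀ x ∈ ((W ∪ insert y Y : Finset R) : Set R), x = y ∨ (x ≠ y ∧ x ∈ W ∪ Y) := by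
          intro x hx
          by_cases hxy : x = y
          · exact Or.inl hxy
          · right
            refine ⟨hxy, ?_⟩
            rw [Finset.mem_coe, Finset.mem_union, Finset.mem_insert] at hx
            rw [Finset.mem_union]
            rcases hx with h | h | h
            · exact Or.inl h
            · exact absurd h hxy
            · exact Or.inr h
        intro a ha b hb hab
        rcases hmem a ha with rfl | ⟨hay, ha'⟩ <;> rcases hmem b hb with rfl | ⟨hby, hb'⟩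
        · exact absurd hab (lt_irrefl _)
        · rw [Function.update_self, Function.update_of_ne hby]
          exact hm2 _ (Finset.mem_image_of_mem _ (Finset.mem_filter.mpr ⟨hb', hab⟩))
        · rw [Function.update_self, Function.update_of_ne hay]
          exact hm1 _ (Finset.mem_image_of_mem _ (Finset.mem_filter.mpr ⟨ha', hab⟩))
        · rw [Function.update_of_ne hay, Function.update_of_ne hby]
          exact h1 ha' hb' hab
      · intro w hw
        rw [Function.update_of_ne]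
        · exact h2 w hw
        · rintro rfl
          exact hy (Finset.mem_union_left _ hw)

end transfer

end Pool.Agent.Work.MP_320dc7_lc
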