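import Mathlib
import Pool.Agent.Work.MP_320dc7_lc.TS

set_option autoImplicit false
set_option linter.unusedSectionVars false

namespace Pool.Agent.Work.MP_320dc7_lc

open Polynomial

variable {k R R' : Type*} [Field k] [Field R] [LinearOrder R] [IsStrictOrderedRing R]
  [Field R'] [LinearOrder R'] [IsStrictOrderedRing R']

/-- every finite set of points of `R` can be mapped monotonically to `R'` preserving the signs of
the polynomials of `F` -/
def Corr (i : k →+* R) (i' : k →+* R') (F : Finset k[X]) : Prop :=
  ∀ Y : Finset R, ∃ θ : R → R', StrictMonoOn θ (Y : Set R) ∧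
    ∀ y ∈ Y, ∀ p ∈ F, SignType.sign ((p.map i).eval y) = SignType.sign ((p.map i').eval (θ y))

lemma Corr.mono {i : k →+* R} {i' : k →+* R'} {F G : Finset k[X]} (h : Corr i i' G)
    (hFG : F ⊆ G) : Corr i i' F := by
  intro Y
  obtain ⟨θ, h1, h2⟩ := h Y
  exact ⟨θ, h1, fun y hy p hp => h2 y hy p (hFG hp)⟩

open Classical in
/-- all roots in `R` of the nonzero members of `P` -/
noncomputable def rts (i : k →+* R) (P : Finset k[X]) : Finset R :=
  (P.filter (fun p => p ≠ 0)).biUnion (fun p => (p.map i).roots.toFinset)

lemma mem_rts (i : k →+* R) (P : Finset k[X]) (r : R) :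
    r ∈ rts i P ↔ ∃ p ∈ P, p ≠ 0 ∧ (p.map i).eval r = 0 := by
  classical
  unfold rts
  rw [Finset.mem_biUnion]
  constructor
  · rintro ⟨p, hp, hr⟩
    rw [Finset.mem_filter] at hp
    rw [Multiset.mem_toFinset, mem_roots', IsRoot.def] at hr
    exact ⟨p, hp.1, hp.2, hr.2⟩
  · rintro ⟨p, hp, hp0, hr⟩
    refine ⟨p, Finset.mem_filter.mpr ⟨hp, hp0⟩, ?_⟩
    rw [Multiset.mem_toFinset, mem_roots', IsRoot.def]
    exact ⟨(Polynomial.map_ne_zero_iff i.injective).mpr hp0, hr⟩

lemma sign_eq_zero' {x : R} {y : R'} (h : SignType.sign x = SignType.sign y) : x = 0 ↔ y = 0 := by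
  rw [← sign_eq_zero_iff, h, sign_eq_zero_iff]

lemma sign_pos' {x : R} {y : R'} (h : SignType.sign x = SignType.sign y) : 0 < x ↔ 0 < y := by
  rw [← sign_eq_one_iff, h, sign_eq_one_iff]

lemma sign_neg'' {x : R} {y : R'} (h : SignType.sign x = SignType.sign y) : x < 0 ↔ y < 0 := by
  rw [← sign_eq_neg_one_iff, h, sign_eq_neg_one_iff]

lemma corr_card {i : k →+* R} {i' : k →+* R'} {P : Finset k[X]} (h : Corr i i' P) :
    (rts i P).card ≤ (rts i' P).card := by
  obtain ⟨θ, h1, h2⟩ := h (rts i P)
  apply Finset.card_le_card_of_injOn θ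
  · intro r hr
    rw [Finset.mem_coe, mem_rts] at hr ⊢
    obtain ⟨p, hp, hp0, hpr⟩ := hr
    exact ⟨p, hp, hp0, (sign_eq_zero' (h2 r ((mem_rts i P r).mpr ⟨p, hp, hp0, hpr⟩) p hp)).mp hpr⟩
  · exact h1.injOn

/-- the inductive step -/
lemma step (hR : RC R) (hR' : RC R') (i : k →+* R) (i' : k →+* R') (F : Finset k[X]) (f : k[X])
    (hf : 0 < f.natDegree) [DecidableEq k[X]]
    (h : Corr i i' (insert (derivative f) F ∪
      ((insert (derivative f) F).filter (fun p => p ≠ 0)).image (fun p => f % p)))
    (h' : Corr i' i (insert (derivative f) F ∪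
      ((insert (derivative f) F).filter (fun p => p ≠ 0)).image (fun p => f % p))) :
    Corr i i' (insert f F) := by
  classical
  set P : Finset k[X] := insert (derivative f) F with hP
  set F0 : Finset k[X] := P ∪ (P.filter (fun p => p ≠ 0)).image (fun p => f % p) with hF0
  have : CharZero k := i.charZero
  have hdf : derivative f ≠ 0 := by
    intro h0
    have := derivative_eq_zero.mp h0
    omega
  have hf0 : f ≠ 0 := by
    rintro rfl
    simp at hf
  have hPF : P ⊆ F0 := Finset.subset_union_left
  set A := rts i P with hA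
  set A' := rts i' P with hA'
  have hcard : A.card = A'.card := le_antisymm (corr_card (h.mono hPF)) (corr_card (h'.mono hPF))
  intro Y
  set Z := (f.map i).roots.toFinset with hZ
  have hfi : f.map i ≠ 0 := (Polynomial.map_ne_zero_iff i.injective).mpr hf0
  have memZ : ∀ z, z ∈ Z ↔ (f.map i).eval z = 0 := by
    intro z
    rw [hZ, Multiset.mem_toFinset, mem_roots', IsRoot.def]
    exact ⟨fun h => h.2, fun h => ⟨hfi, h⟩⟩
  obtain ⟨θ0, hm, hs⟩ := h (Y ∪ A ∪ Z)
  have hmA : ∀ r ∈ A, ∀ r' ∈ A, r ≤ r' → θ0 r ≤ θ0 r' := by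
    intro r hr r' hr' hrr
    exact hm.monotoneOn (by simp [hr]) (by simp [hr']) hrr
  -- the image of `A` is `A'`
  have himg : A.image θ0 = A' := by
    apply Finset.eq_of_subset_of_card_le
    · intro x hx
      rw [Finset.mem_image] at hx
      obtain ⟨r, hr, rfl⟩ := hx
      have hr2 := (mem_rts i P r).mp hr
      obtain ⟨p, hp, hp0, hpr⟩ := hr2
      exact (mem_rts i' P _).mpr ⟨p, hp, hp0, (sign_eq_zero' (hs r (by simp [hr]) p (hPF hp))).mp hpr⟩
    · rw [Finset.card_image_of_injOn, hcard]
      intro x hx y hy hxy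
      exact hm.injOn (by simp at hx ⊢; simp [hx]) (by simp at hy ⊢; simp [hy]) hxy
  -- the signs of `f` at the points of `A`
  have hfA : ∀ r ∈ A, SignType.sign ((f.map i).eval r) = SignType.sign ((f.map i').eval (θ0 r)) := by
    intro r hr
    obtain ⟨p, hp, hp0, hpr⟩ := (mem_rts i P r).mp hr
    have hpr' : (p.map i').eval (θ0 r) = 0 := (sign_eq_zero' (hs r (by simp [hr]) p (hPF hp))).mp hpr
    have hmod := hs r (by simp [hr]) (f % p) (Finset.mem_union_right _
      (Finset.mem_image_of_mem _ (Finset.mem_filter.mpr ⟨hp, hp0⟩)))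
    have hdiv : f = p * (f / p) + f % p := (EuclideanDomain.div_add_mod f p).symm
    have e1 : (f.map i).eval r = ((f % p).map i).eval r := by
      conv_lhs => rw [hdiv]
      rw [Polynomial.map_add, Polynomial.map_mul, eval_add, eval_mul, hpr, zero_mul, zero_add]
    have e2 : (f.map i').eval (θ0 r) = ((f % p).map i').eval (θ0 r) := by
      conv_lhs => rw [hdiv]
      rw [Polynomial.map_add, Polynomial.map_mul, eval_add, eval_mul, hpr', zero_mul, zero_add]
    rw [e1, e2]
    exact hmod
  -- the component relation for image points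
  have hsim0 : ∀ y ∈ Y ∪ A ∪ Z, y ∉ A → ∀ r ∈ A, (r < y ∧ θ0 r < θ0 y) ∨ (y < r ∧ θ0 y < θ0 r) := by
    intro y hy hyA r hr
    rcases lt_trichotomy r y with h | h | h
    · exact Or.inl ⟨h, hm (by simp [hr]) hy h⟩
    · exact absurd (h ▸ hr) hyA
    · exact Or.inr ⟨h, hm hy (by simp [hr]) h⟩
  -- sign constancy in `R'`
  have claim3 : ∀ y ∈ Y ∪ A ∪ Z, y ∉ A → ∀ z', (∀ r ∈ A, (r < y ∧ θ0 r < z') ∨ (y < r ∧ z' < θ0 r)) →
      ∀ p ∈ P, SignType.sign ((p.map i).eval y) = SignType.sign ((p.map i').eval z') := by
    intro y hy hyA z' hz' p hp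
    rw [hs y hy p (hPF hp)]
    by_cases hp0 : p = 0
    · subst hp0; simp
    have hy0 := hsim0 y hy hyA
    have key : ∀ w, min z' (θ0 y) ≤ w → w ≤ max z' (θ0 y) → (p.map i').eval w ≠ 0 := by
      intro w hw1 hw2 hw
      have hwA : w ∈ A' := (mem_rts i' P w).mpr ⟨p, hp, hp0, hw⟩
      rw [← himg, Finset.mem_image] at hwA
      obtain ⟨r, hr, rfl⟩ := hwA
      rcases hz' r hr with ⟨h1, h2⟩ | ⟨h1, h2⟩ <;> rcases hy0 r hr with ⟨h3, h4⟩ | ⟨h3, h4⟩
      · exact absurd hw1 (not_le.mpr (lt_min h2 h4))
      · exact absurd (lt_trans h1 h3) (lt_irrefl _)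
      · exact absurd (lt_trans h1 h3) (lt_irrefl _)
      · exact absurd hw2 (not_le.mpr (max_lt h2 h4))
    rcases le_total z' (θ0 y) with hle | hle
    · rw [min_eq_left hle, max_eq_right hle] at key
      exact (sign_const hR' (p.map i') z' (θ0 y) hle key).symm
    · rw [min_eq_right hle, max_eq_left hle] at key
      exact sign_const hR' (p.map i') (θ0 y) z' hle key
  -- sign constancy in `R`
  have claim3R : ∀ y, y ∉ A → ∀ z, (∀ r ∈ A, (r < y ∧ r < z) ∨ (y < r ∧ z < r)) →
      ∀ p ∈ P, SignType.sign ((p.map i).eval y) = SignType.sign ((p.map i).eval z) := by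
    intro y hyA z hz p hp
    by_cases hp0 : p = 0
    · subst hp0; simp
    have key : ∀ w, min z y ≤ w → w ≤ max z y → (p.map i).eval w ≠ 0 := by
      intro w hw1 hw2 hw
      have hwA : w ∈ A := (mem_rts i P w).mpr ⟨p, hp, hp0, hw⟩
      rcases hz w hwA with ⟨h1, h2⟩ | ⟨h1, h2⟩
      · exact absurd hw1 (not_le.mpr (lt_min h2 h1))
      · exact absurd hw2 (not_le.mpr (max_lt h2 h1))
    rcases le_total z y with hle | hle
    · rw [min_eq_left hle, max_eq_right hle] at key
      exact (sign_const hR (p.map i) z y hle key).symm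
    · rw [min_eq_right hle, max_eq_left hle] at key
      exact sign_const hR (p.map i) y z hle key
  have hdP : derivative f ∈ P := Finset.mem_insert_self _ _
  have hdA : ∀ y, y ∉ A → ((derivative f).map i).eval y ≠ 0 := by
    intro y hy h0
    exact hy ((mem_rts i P y).mpr ⟨_, hdP, hdf, h0⟩)
  have hdegi : 0 < (f.map i).natDegree := by rwa [natDegree_map]
  have hdegi' : 0 < (f.map i').natDegree := by rwa [natDegree_map]
  -- existence of corresponding roots
  have claim4 : ∀ c ∈ Z, c ∉ A → ∃ c', (∀ r ∈ A, (r < c ∧ θ0 r < c') ∨ (c < r ∧ c' < θ0 r)) ∧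
      (f.map i').eval c' = 0 := by
    intro c hcZ hcA
    have hcY : c ∈ Y ∪ A ∪ Z := by simp [hcZ]
    have hfc : (f.map i).eval c = 0 := (memZ c).mp hcZ
    rcases lt_or_gt_of_ne (hdA c hcA) with hneg | hpos
    · -- use `-f`
      obtain ⟨c', h1, h2⟩ := root_transfer hR' A θ0 c (-(f.map i')) (by rwa [natDegree_neg]) hmA hcA
        (θ0 c) (hsim0 c hcY hcA) (by
          intro z' hz'
          have := claim3 c hcY hcA z' hz' _ hdP
          rw [derivative_neg, eval_neg, derivative_map]
          have h2 := (sign_neg'' this).mp hneg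
          linarith) (by
          intro r hr hrc hmax
          obtain ⟨ξ, h1, h2, h3⟩ := hR.mvt (f.map i) r c hrc
          have hξ : (derivative (f.map i)).eval ξ < 0 := by
            rw [derivative_map]
            rw [← sign_neg'' (claim3R c hcA ξ (by
              intro r' hr'
              rcases lt_trichotomy r' c with h | h | h
              · exact Or.inl ⟨h, lt_of_le_of_lt (hmax r' hr' h) h1⟩
              · exact absurd (h ▸ hr') hcA
              · exact Or.inr ⟨h, lt_trans h2 h⟩) _ hdP)]
            exact hneg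
          rw [hfc] at h3
          have h4 : 0 < (f.map i).eval r := by
            have := mul_neg_of_neg_of_pos hξ (show 0 < c - r by linarith)
            linarith
          have := (sign_pos' (hfA r hr)).mp h4
          rw [eval_neg]
          linarith) (by
          intro r hr hrc hmin
          obtain ⟨ξ, h1, h2, h3⟩ := hR.mvt (f.map i) c r hrc
          have hξ : (derivative (f.map i)).eval ξ < 0 := by
            rw [derivative_map]
            rw [← sign_neg'' (claim3R c hcA ξ (by
              intro r' hr'
              rcases lt_trichotomy r' c with h | h | h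
              · exact Or.inl ⟨h, lt_trans h h1⟩
              · exact absurd (h ▸ hr') hcA
              · exact Or.inr ⟨h, lt_of_lt_of_le h2 (hmin r' hr' h)⟩) _ hdP)]
            exact hneg
          rw [hfc] at h3
          have h4 : (f.map i).eval r < 0 := by
            have := mul_neg_of_neg_of_pos hξ (show 0 < r - c by linarith)
            linarith
          have := (sign_neg'' (hfA r hr)).mp h4
          rw [eval_neg]
          linarith)
      refine ⟨c', h1, ?_⟩
      rw [eval_neg, neg_eq_zero] at h2
      exact h2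
    · apply root_transfer hR' A θ0 c (f.map i') hdegi' hmA hcA
        (θ0 c) (hsim0 c hcY hcA)
      · intro z' hz'
        have := claim3 c hcY hcA z' hz' _ hdP
        rw [derivative_map]
        exact (sign_pos' this).mp hpos
      · intro r hr hrc hmax
        obtain ⟨ξ, h1, h2, h3⟩ := hR.mvt (f.map i) r c hrc
        have hξ : 0 < (derivative (f.map i)).eval ξ := by
          rw [derivative_map]
          rw [← sign_pos' (claim3R c hcA ξ (by
            intro r' hr'
            rcases lt_trichotomy r' c with h | h | h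
            · exact Or.inl ⟨h, lt_of_le_of_lt (hmax r' hr' h) h1⟩
            · exact absurd (h ▸ hr') hcA
            · exact Or.inr ⟨h, lt_trans h2 h⟩) _ hdP)]
          exact hpos
        rw [hfc] at h3
        have h4 : (f.map i).eval r < 0 := by
          have := mul_pos hξ (show 0 < c - r by linarith)
          linarith
        exact (sign_neg'' (hfA r hr)).mp h4
      · intro r hr hrc hmin
        obtain ⟨ξ, h1, h2, h3⟩ := hR.mvt (f.map i) c r hrc
        have hξ : 0 < (derivative (f.map i)).eval ξ := by
          rw [derivative_map]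
          rw [← sign_pos' (claim3R c hcA ξ (by
            intro r' hr'
            rcases lt_trichotomy r' c with h | h | h
            · exact Or.inl ⟨h, lt_trans h h1⟩
            · exact absurd (h ▸ hr') hcA
            · exact Or.inr ⟨h, lt_of_lt_of_le h2 (hmin r' hr' h)⟩) _ hdP)]
          exact hpos
        rw [hfc] at h3
        have h4 : 0 < (f.map i).eval r := by
          have := mul_pos hξ (show 0 < r - c by linarith)
          linarith
        exact (sign_pos' (hfA r hr)).mp h4
  choose! ρ hρ1 hρ2 using claim4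
  -- the map on `A ∪ Z`
  set β : R → R' := fun w => if w ∈ A then θ0 w else ρ w with hβ
  have hβA : ∀ r ∈ A, β r = θ0 r := fun r hr => by simp [hβ, hr]
  have hβZ : ∀ c ∈ Z, c ∉ A → β c = ρ c := fun c _ hcA => by simp [hβ, hcA]
  have hβmono : StrictMonoOn β ((A ∪ Z : Finset R) : Set R) := by
    intro a ha b hb hab
    rw [Finset.mem_coe, Finset.mem_union] at ha hb
    by_cases haA : a ∈ A <;> by_cases hbA : b ∈ A
    · rw [hβA a haA, hβA b hbA]
      exact hm (by simp [haA]) (by simp [hbA]) hab
    · have hbZ := hb.resolve_left hbA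
      rw [hβA a haA, hβZ b hbZ hbA]
      rcases hρ1 b hbZ hbA a haA with h1 | h1
      · exact h1.2
      · exact absurd (lt_trans h1.1 hab) (lt_irrefl _)
    · have haZ := ha.resolve_left haA
      rw [hβA b hbA, hβZ a haZ haA]
      rcases hρ1 a haZ haA b hbA with h1 | h1
      · exact absurd (lt_trans h1.1 hab) (lt_irrefl _)
      · exact h1.2
    · have haZ := ha.resolve_left haA
      have hbZ := hb.resolve_left hbA
      rw [hβZ a haZ haA, hβZ b hbZ hbA]
      obtain ⟨ξ, h1, h2, h3⟩ := hR.mvt (f.map i) a b hab
      rw [(memZ a).mp haZ, (memZ b).mp hbZ, sub_zero, derivative_map] at h3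
      have hξ0 : ((derivative f).map i).eval ξ = 0 := by
        rcases mul_eq_zero.mp h3.symm with h4 | h4
        · exact h4
        · exact absurd h4 (sub_pos.mpr hab).ne'
      have hξA : ξ ∈ A := (mem_rts i P ξ).mpr ⟨_, hdP, hdf, hξ0⟩
      rcases hρ1 a haZ haA ξ hξA with h4 | h4
      · exact absurd (lt_trans h4.1 h1) (lt_irrefl _)
      rcases hρ1 b hbZ hbA ξ hξA with h5 | h5
      · exact lt_trans h4.2 h5.2
      · exact absurd (lt_trans h5.1 h2) (lt_irrefl _)
  obtain ⟨θ, hθm, hθβ⟩ := extend_mono (A ∪ Z) Y β hβmono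
  have hθA : ∀ r ∈ A, θ r = θ0 r := fun r hr => by
    rw [hθβ r (Finset.mem_union_left _ hr), hβA r hr]
  refine ⟨θ, fun a ha b hb hab => hθm (by simp at ha ⊢; simp [ha]) (by simp at hb ⊢; simp [hb]) hab, ?_⟩
  intro y hy p hp
  have hyU : y ∈ Y ∪ A ∪ Z := by simp [hy]
  have hyU' : y ∈ A ∪ Z ∪ Y := by simp [hy]
  by_cases hyA : y ∈ A
  · rw [hθA y hyA]
    rw [Finset.mem_insert] at hp
    rcases hp with rfl | hp
    · exact hfA y hyA
    · exact hs y hyU p (hPF (Finset.mem_insert_of_mem hp))
  -- `y ∉ A`
  have hsimy : ∀ r ∈ A, (r < y ∧ θ0 r < θ y) ∨ (y < r ∧ θ y < θ0 r) := by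
    intro r hr
    rw [← hθA r hr]
    rcases lt_trichotomy r y with h | h | h
    · exact Or.inl ⟨h, hθm (by simp [hr]) (by simp [hy]) h⟩
    · exact absurd (h ▸ hr) hyA
    · exact Or.inr ⟨h, hθm (by simp [hy]) (by simp [hr]) h⟩
  rw [Finset.mem_insert] at hp
  rcases hp with rfl | hp
  swap
  · exact claim3 y hyU hyA (θ y) hsimy p (Finset.mem_insert_of_mem hp)
  -- the polynomial `f` (now called `p`)
  by_cases hyZ : y ∈ Z
  · have h1 : θ y = ρ y := by
      rw [hθβ y (Finset.mem_union_right _ hyZ), hβZ y hyZ hyA]
    rw [h1, hρ2 y hyZ hyA, (memZ y).mp hyZ]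
    simp
  have hy0 : (p.map i).eval y ≠ 0 := fun h0 => hyZ ((memZ y).mpr h0)
  have hθ' : ∀ r ∈ A, (r < y → θ r < θ y) ∧ (y < r → θ y < θ r) := by
    intro r hr
    exact ⟨fun h => hθm (by simp [hr]) (by simp [hy]) h,
      fun h => hθm (by simp [hy]) (by simp [hr]) h⟩
  have hθ2' : ∀ r ∈ A, ∀ r' ∈ A, r ≤ r' → θ r ≤ θ r' := by
    intro r hr r' hr' hrr
    rw [hθA r hr, hθA r' hr']
    exact hmA r hr r' hr' hrr
  have hd'gen : ∀ z', (∀ r ∈ A, (r < y ∧ θ r < z') ∨ (y < r ∧ z' < θ r)) →
      SignType.sign (((derivative p).map i).eval y) = SignType.sign (((derivative p).map i').eval z') := by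
    intro z' hz'
    apply claim3 y hyU hyA z' _ _ hdP
    intro r hr
    rw [← hθA r hr]
    exact hz' r hr
  have hcgen : ∀ c, (∀ r ∈ A, (r < y ∧ r < c) ∨ (y < r ∧ c < r)) → (p.map i).eval c = 0 →
      (∀ r ∈ A, (r < y ∧ θ r < θ c) ∨ (y < r ∧ θ c < θ r)) ∧ (p.map i').eval (θ c) = 0 := by
    intro c hc hc0
    have hcZ : c ∈ Z := (memZ c).mpr hc0
    have hcA : c ∉ A := by
      intro hcA
      rcases hc c hcA with h1 | h1
      · exact lt_irrefl _ h1.2
      · exact lt_irrefl _ h1.2
    have h1 : θ c = ρ c := by
      rw [hθβ c (Finset.mem_union_right _ hcZ), hβZ c hcZ hcA]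
    constructor
    · intro r hr
      rw [hθA r hr, h1]
      rcases hc r hr with h2 | h2 <;> rcases hρ1 c hcZ hcA r hr with h3 | h3
      · exact Or.inl ⟨h2.1, h3.2⟩
      · exact absurd (lt_trans h2.2 h3.1) (lt_irrefl _)
      · exact absurd (lt_trans h2.2 h3.1) (lt_irrefl _)
      · exact Or.inr ⟨h2.1, h3.2⟩
    · rw [h1]
      exact hρ2 c hcZ hcA
  have hcmono : ∀ c, (p.map i).eval c = 0 → (c < y → θ c < θ y) ∧ (y < c → θ y < θ c) := by
    intro c hc0
    have hcZ : c ∈ Z := (memZ c).mpr hc0
    exact ⟨fun h => hθm (by simp [hcZ]) (by simp [hy]) h,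
      fun h => hθm (by simp [hy]) (by simp [hcZ]) h⟩
  rcases lt_or_gt_of_ne (hdA y hyA) with hneg | hpos
  · -- derivative negative: use `-p`
    have hd1 : ∀ z, (∀ r ∈ A, (r < y ∧ r < z) ∨ (y < r ∧ z < r)) →
        0 < (derivative (-(p.map i))).eval z := by
      intro z hz
      rw [derivative_neg, eval_neg, derivative_map]
      have := (sign_neg'' (claim3R y hyA z hz _ hdP)).mp hneg
      linarith
    have hd2 : ∀ z', (∀ r ∈ A, (r < y ∧ θ r < z') ∨ (y < r ∧ z' < θ r)) →
        0 < (derivative (-(p.map i'))).eval z' := by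
      intro z' hz'
      rw [derivative_neg, eval_neg, derivative_map]
      have := (sign_neg'' (hd'gen z' hz')).mp hneg
      linarith
    rcases lt_or_gt_of_ne hy0 with hyn | hyp
    · have := pos_transfer hR hR' A θ y (-(p.map i)) (-(p.map i')) (by rwa [natDegree_neg]) hθ' hθ2'
        hyA hd1 hd2 (by
          intro r hr h1
          rw [eval_neg] at h1 ⊢
          rw [hθA r hr]
          have h2 : ¬ 0 < (p.map i).eval r := by linarith
          rw [sign_pos' (hfA r hr)] at h2
          linarith) (by
          intro c hc hc0 hcy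
          rw [eval_neg, neg_eq_zero] at hc0 ⊢
          exact ⟨(hcgen c hc hc0).1, (hcgen c hc hc0).2, (hcmono c hc0).1 hcy⟩) (by
          rw [eval_neg]; linarith)
      rw [eval_neg] at this
      rw [sign_neg hyn, sign_neg (by linarith)]
    · have := neg_transfer hR hR' A θ y (-(p.map i)) (-(p.map i')) (by rwa [natDegree_neg]) hθ' hθ2'
        hyA hd1 hd2 (by
          intro r hr h1
          rw [eval_neg] at h1 ⊢
          rw [hθA r hr]
          have h2 : ¬ (p.map i).eval r < 0 := by linarith
          rw [sign_neg'' (hfA r hr)] at h2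
          linarith) (by
          intro c hc hc0 hcy
          rw [eval_neg, neg_eq_zero] at hc0 ⊢
          exact ⟨(hcgen c hc hc0).1, (hcgen c hc hc0).2, (hcmono c hc0).2 hcy⟩) (by
          rw [eval_neg]; linarith)
      rw [eval_neg] at this
      rw [sign_pos hyp, sign_pos (by linarith)]
  · have hd1 : ∀ z, (∀ r ∈ A, (r < y ∧ r < z) ∨ (y < r ∧ z < r)) →
        0 < (derivative (p.map i)).eval z := by
      intro z hz
      rw [derivative_map]
      exact (sign_pos' (claim3R y hyA z hz _ hdP)).mp hpos
    have hd2 : ∀ z', (∀ r ∈ A, (r < y ∧ θ r < z') ∨ (y < r ∧ z' < θ r)) →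
        0 < (derivative (p.map i')).eval z' := by
      intro z' hz'
      rw [derivative_map]
      exact (sign_pos' (hd'gen z' hz')).mp hpos
    rcases lt_or_gt_of_ne hy0 with hyn | hyp
    · have := neg_transfer hR hR' A θ y (p.map i) (p.map i') hdegi hθ' hθ2'
        hyA hd1 hd2 (by
          intro r hr h1
          rw [hθA r hr]
          have h2 : ¬ 0 < (p.map i).eval r := by linarith
          rw [sign_pos' (hfA r hr)] at h2
          linarith) (by
          intro c hc hc0 hcy
          exact ⟨(hcgen c hc hc0).1, (hcgen c hc hc0).2, (hcmono c hc0).2 hcy⟩) hyn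
      rw [sign_neg hyn, sign_neg this]
    · have := pos_transfer hR hR' A θ y (p.map i) (p.map i') hdegi hθ' hθ2'
        hyA hd1 hd2 (by
          intro r hr h1
          rw [hθA r hr]
          have h2 : ¬ (p.map i).eval r < 0 := by linarith
          rw [sign_neg'' (hfA r hr)] at h2
          linarith) (by
          intro c hc hc0 hcy
          exact ⟨(hcgen c hc hc0).1, (hcgen c hc hc0).2, (hcmono c hc0).1 hcy⟩) hyp
      rw [sign_pos hyp, sign_pos this]

lemma corr_base (i : k →+* R) (i' : k →+* R')
    (hsign : ∀ c, SignType.sign (i c) = SignType.sign (i' c)) (F : Finset k[X])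
    (hF : ∀ p ∈ F, p.natDegree ≤ 0) : Corr i i' F := by
  intro Y
  obtain ⟨θ, h1, _⟩ := extend_mono (∅ : Finset R) Y (fun _ => (0 : R'))
    (by intro a ha; simp at ha)
  rw [Finset.empty_union] at h1
  refine ⟨θ, h1, ?_⟩
  intro y _ p hp
  obtain ⟨c, rfl⟩ := natDegree_eq_zero.mp (Nat.le_zero.mp (hF p hp))
  simp only [map_C, eval_C]
  exact hsign c

theorem corr_all (hR : RC R) (hR' : RC R') (i : k →+* R) (i' : k →+* R')
    (hsign : ∀ c, SignType.sign (i c) = SignType.sign (i' c)) (F : Finset k[X]) :
    Corr i i' F := by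
  classical
  have main : ∀ d : ℕ, ∀ F : Finset k[X], (∀ p ∈ F, p.natDegree ≤ d) →
      Corr i i' F ∧ Corr i' i F := by
    intro d
    induction d with
    | zero =>
      intro F hF
      exact ⟨corr_base i i' hsign F hF, corr_base i' i (fun c => (hsign c).symm) F hF⟩
    | succ d ihd =>
      have inner : ∀ G : Finset k[X], (∀ p ∈ G, p.natDegree = d + 1) → ∀ F : Finset k[X],
          (∀ p ∈ F, p.natDegree ≤ d) → Corr i i' (F ∪ G) ∧ Corr i' i (F ∪ G) := by
        intro G
        induction G using Finset.induction_on with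
        | empty =>
          intro _ F hF
          rw [Finset.union_empty]
          exact ihd F hF
        | @insert f G _ ih =>
          intro hG F hF
          have hfd : f.natDegree = d + 1 := hG f (Finset.mem_insert_self _ _)
          have hG' : ∀ p ∈ G, p.natDegree = d + 1 := fun p hp => hG p (Finset.mem_insert_of_mem hp)
          set P : Finset k[X] := insert (derivative f) (F ∪ G) with hP
          set F1 : Finset k[X] := insert (derivative f) F ∪
            (P.filter (fun p => p ≠ 0)).image (fun p => f % p) with hF1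
          have hPd : ∀ p ∈ P, p.natDegree ≤ d + 1 := by
            intro p hp
            rw [hP, Finset.mem_insert, Finset.mem_union] at hp
            rcases hp with rfl | hp | hp
            · exact (natDegree_derivative_le f).trans (by omega)
            · exact (hF p hp).trans (Nat.le_succ d)
            · exact (hG' p hp).le
          have hF1d : ∀ p ∈ F1, p.natDegree ≤ d := by
            intro p hp
            rw [hF1, Finset.mem_union, Finset.mem_insert, Finset.mem_image] at hp
            rcases hp with (rfl | hp) | ⟨q, hq, rfl⟩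
            · exact (natDegree_derivative_le f).trans (by omega)
            · exact hF p hp
            · rw [Finset.mem_filter] at hq
              by_cases h0 : q.natDegree = 0
              · obtain ⟨c, rfl⟩ := natDegree_eq_zero.mp h0
                have hc : c ≠ 0 := by
                  rintro rfl
                  exact hq.2 (by simp)
                have : f % C c = 0 := by
                  rw [EuclideanDomain.mod_eq_zero]
                  exact (isUnit_C.mpr (isUnit_iff_ne_zero.mpr hc)).dvd
                rw [this]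
                simp
              · have h1 : (f % q).natDegree < q.natDegree := by
                  rw [Polynomial.mod_def]
                  have hmonic := monic_mul_leadingCoeff_inv hq.2
                  have h2 := natDegree_modByMonic_lt f hmonic (by
                    intro h3
                    have h4 : (q * C q.leadingCoeff⁻¹).natDegree = 0 := by rw [h3]; simp
                    rw [natDegree_mul_leadingCoeff_inv q hq.2] at h4
                    exact h0 h4)
                  rwa [natDegree_mul_leadingCoeff_inv q hq.2] at h2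
                have h2 := hPd q hq.1
                omega
          have key := ih hG' F1 hF1d
          have heq : P ∪ (P.filter (fun p => p ≠ 0)).image (fun p => f % p) = F1 ∪ G := by
            rw [hF1, hP]
            ext x
            simp only [Finset.mem_union, Finset.mem_insert]
            tauto
          rw [← heq] at key
          have heq2 : F ∪ insert f G = insert f (F ∪ G) := by
            rw [Finset.union_insert]
          rw [heq2]
          exact ⟨step hR hR' i i' (F ∪ G) f (by omega) key.1 key.2,
            step hR' hR i' i (F ∪ G) f (by omega) key.2 key.1⟩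
      intro F hF
      have hsplit : F = F.filter (fun p => p.natDegree ≤ d) ∪ F.filter (fun p => p.natDegree = d + 1) := by
        ext x
        simp only [Finset.mem_union, Finset.mem_filter]
        constructor
        · intro hx
          have := hF x hx
          by_cases h : x.natDegree ≤ d
          · exact Or.inl ⟨hx, h⟩
          · exact Or.inr ⟨hx, by omega⟩
        · rintro (h | h)
          · exact h.1
          · exact h.1
      rw [hsplit]
      apply inner
      · intro p hp
        exact (Finset.mem_filter.mp hp).2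
      · intro p hp
        exact (Finset.mem_filter.mp hp).2
  exact (main (F.sup natDegree) F (fun p hp => Finset.le_sup hp)).1

end Pool.Agent.Work.MP_320dc7_lc
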