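import Mathlib
import Pool.Agent.Work.MP_320dc7_lc.TS2

set_option autoImplicit false
set_option linter.unusedSectionVars false

namespace Pool.Agent.Work.MP_320dc7_lc

open Polynomial Filter

/-- The Tarski-type transfer statement over an arbitrary base ring. -/
theorem ts_ring {Λ R R' : Type*} [CommRing Λ] [Field R] [LinearOrder R] [IsStrictOrderedRing R]
    [Field R'] [LinearOrder R'] [IsStrictOrderedRing R'] (hR : RC R) (hR' : RC R')
    (φ : Λ →+* R) (φ' : Λ →+* R') (hsign : ∀ c, SignType.sign (φ c) = SignType.sign (φ' c))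
    (F : Finset Λ[X]) (y : R) :
    ∃ y' : R', ∀ p ∈ F, SignType.sign ((p.map φ).eval y) = SignType.sign ((p.map φ').eval y') := by
  classical
  let I : Ideal Λ := RingHom.ker φ
  have hIp : I.IsPrime := RingHom.ker_isPrime φ
  have hker : ∀ a ∈ I, φ' a = 0 := by
    intro a ha
    exact (sign_eq_zero' (hsign a)).mp ha
  let ψ : Λ ⧸ I →+* R := Ideal.Quotient.lift I φ (fun a ha => ha)
  let ψ' : Λ ⧸ I →+* R' := Ideal.Quotient.lift I φ' hker
  have hψ : Function.Injective ψ := by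
    rw [injective_iff_map_eq_zero]
    intro a ha
    obtain ⟨a, rfl⟩ := Ideal.Quotient.mk_surjective a
    rw [Ideal.Quotient.eq_zero_iff_mem]
    exact ha
  have hψ' : Function.Injective ψ' := by
    rw [injective_iff_map_eq_zero]
    intro a ha
    obtain ⟨a, rfl⟩ := Ideal.Quotient.mk_surjective a
    rw [Ideal.Quotient.eq_zero_iff_mem]
    exact (sign_eq_zero' (hsign a)).mpr ha
  let k : Type _ := FractionRing (Λ ⧸ I)
  let i : k →+* R := IsFractionRing.lift hψ
  let i' : k →+* R' := IsFractionRing.lift hψ'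
  have hi : ∀ a : Λ, i (algebraMap (Λ ⧸ I) k (Ideal.Quotient.mk I a)) = φ a := by
    intro a
    exact IsFractionRing.lift_algebraMap hψ _
  have hi' : ∀ a : Λ, i' (algebraMap (Λ ⧸ I) k (Ideal.Quotient.mk I a)) = φ' a := by
    intro a
    exact IsFractionRing.lift_algebraMap hψ' _
  have hsk : ∀ c : k, SignType.sign (i c) = SignType.sign (i' c) := by
    intro c
    obtain ⟨a, b, hb, rfl⟩ := IsFractionRing.div_surjective (Λ ⧸ I) c
    obtain ⟨a, rfl⟩ := Ideal.Quotient.mk_surjective a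
    obtain ⟨b, rfl⟩ := Ideal.Quotient.mk_surjective b
    have hb0 : φ b ≠ 0 := by
      have h1 : (Ideal.Quotient.mk I b) ≠ 0 := nonZeroDivisors.ne_zero hb
      intro h2
      exact h1 (Ideal.Quotient.eq_zero_iff_mem.mpr h2)
    have hb0' : φ' b ≠ 0 := fun h2 => hb0 ((sign_eq_zero' (hsign b)).mpr h2)
    rw [map_div₀ i, map_div₀ i', hi, hi, hi', hi']
    have e1 : φ a / φ b = φ a * φ b * ((φ b)⁻¹ * (φ b)⁻¹) := by field_simp
    have e2 : φ' a / φ' b = φ' a * φ' b * ((φ' b)⁻¹ * (φ' b)⁻¹) := by field_simp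
    have p1 : 0 < (φ b)⁻¹ * (φ b)⁻¹ := by
      exact mul_self_pos.mpr (inv_ne_zero hb0)
    have p2 : 0 < (φ' b)⁻¹ * (φ' b)⁻¹ := by
      exact mul_self_pos.mpr (inv_ne_zero hb0')
    rw [e1, e2, sign_mul, sign_mul (φ' a * φ' b), sign_pos p1, sign_pos p2, sign_mul, sign_mul,
      hsign a, hsign b]
  obtain ⟨θ, _, h2⟩ := corr_all hR hR' i i' hsk
    (F.image (fun p => (p.map (Ideal.Quotient.mk I)).map (algebraMap (Λ ⧸ I) k))) {y}
  refine ⟨θ y, ?_⟩
  intro p hp
  have h3 := h2 y (Finset.mem_singleton_self y) _ (Finset.mem_image_of_mem _ hp)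
  rw [Polynomial.map_map, Polynomial.map_map, Polynomial.map_map, Polynomial.map_map] at h3
  have c1 : (i.comp (algebraMap (Λ ⧸ I) k)).comp (Ideal.Quotient.mk I) = φ := by
    ext a; exact hi a
  have c2 : (i'.comp (algebraMap (Λ ⧸ I) k)).comp (Ideal.Quotient.mk I) = φ' := by
    ext a; exact hi' a
  rw [c1, c2] at h3
  exact h3

/-! ### Hyperreals -/

/-- the quotient ring homomorphism -/
noncomputable def qh : (ℕ → ℝ) →+* Hyperreal := Germ.coeRingHom (hyperfilter ℕ : Filter ℕ)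

lemma qh_surj : Function.Surjective qh := Hyperreal.ofSeq_surjective

/-- a representative -/
noncomputable def rp (x : Hyperreal) : ℕ → ℝ := Function.surjInv qh_surj x

@[simp] lemma qh_rp (x : Hyperreal) : qh (rp x) = x := Function.surjInv_eq qh_surj x

lemma qh_eq {f g : ℕ → ℝ} : qh f = qh g ↔ ∀ᶠ n in (hyperfilter ℕ : Filter ℕ), f n = g n :=
  Germ.coe_eq

lemma qh_lt {f g : ℕ → ℝ} : qh f < qh g ↔ ∀ᶠ n in (hyperfilter ℕ : Filter ℕ), f n < g n :=
  Germ.coe_lt

lemma qh_zero : qh (fun _ => 0) = 0 := map_zero qh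

lemma qh_pos {f : ℕ → ℝ} : 0 < qh f ↔ ∀ᶠ n in (hyperfilter ℕ : Filter ℕ), 0 < f n := by
  rw [← qh_zero, qh_lt]

lemma qh_neg {f : ℕ → ℝ} : qh f < 0 ↔ ∀ᶠ n in (hyperfilter ℕ : Filter ℕ), f n < 0 := by
  rw [← qh_zero, qh_lt]

lemma qh_eq_zero {f : ℕ → ℝ} : qh f = 0 ↔ ∀ᶠ n in (hyperfilter ℕ : Filter ℕ), f n = 0 := by
  rw [← qh_zero, qh_eq]

lemma sign_qh {f : ℕ → ℝ} : ∀ᶠ n in (hyperfilter ℕ : Filter ℕ),
    SignType.sign (f n) = SignType.sign (qh f) := by
  rcases lt_trichotomy (qh f) 0 with h | h | h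
  · filter_upwards [qh_neg.mp h] with n hn
    rw [sign_neg h, sign_neg hn]
  · filter_upwards [qh_eq_zero.mp h] with n hn
    rw [h, hn, sign_zero, sign_zero]
  · filter_upwards [qh_pos.mp h] with n hn
    rw [sign_pos h, sign_pos hn]

lemma sign_qh_iff {f : ℕ → ℝ} {s : SignType} : SignType.sign (qh f) = s ↔
    ∀ᶠ n in (hyperfilter ℕ : Filter ℕ), SignType.sign (f n) = s := by
  constructor
  · rintro rfl
    exact sign_qh
  · intro h
    obtain ⟨n, h1, h2⟩ := (h.and sign_qh).exists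
    rw [← h2, h1]

lemma eval_qh (P : Polynomial (ℕ → ℝ)) (a : ℕ → ℝ) : (P.map qh).eval (qh a) = qh (P.eval a) := by
  rw [eval_map, eval₂_at_apply]

lemma eval_at (P : Polynomial (ℕ → ℝ)) (a : ℕ → ℝ) (n : ℕ) :
    (P.eval a) n = (P.map (Pi.evalRingHom (fun _ : ℕ => ℝ) n)).eval (a n) := by
  have := eval₂_at_apply (p := P) (Pi.evalRingHom (fun _ : ℕ => ℝ) n) a
  rw [eval_map]
  exact this.symm

lemma real_mvt (p : ℝ[X]) (a b : ℝ) (hab : a < b) :
    ∃ c, a < c ∧ c < b ∧ p.eval b - p.eval a = p.derivative.eval c * (b - a) := by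
  obtain ⟨c, hc, h⟩ := exists_deriv_eq_slope (fun x => p.eval x) hab p.continuousOn
    p.differentiable.differentiableOn
  refine ⟨c, hc.1, hc.2, ?_⟩
  rw [Polynomial.deriv] at h
  rw [h]
  have : b - a ≠ 0 := by linarith
  field_simp

lemma real_ivt (p : ℝ[X]) (a b : ℝ) (hab : a < b) (ha : p.eval a < 0) (hb : 0 < p.eval b) :
    ∃ c, a < c ∧ c < b ∧ p.eval c = 0 := by
  have h := intermediate_value_Ioo hab.le (f := fun x => p.eval x) p.continuousOn
  obtain ⟨c, hc, h0⟩ := h ⟨ha, hb⟩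
  exact ⟨c, hc.1, hc.2, h0⟩

theorem rc_hyper : RC Hyperreal := by
  constructor
  · intro p a b hab ha hb
    obtain ⟨P, rfl⟩ := Polynomial.map_surjective qh qh_surj p
    obtain ⟨a, rfl⟩ := qh_surj a
    obtain ⟨b, rfl⟩ := qh_surj b
    rw [eval_qh] at ha hb
    have h : ∀ᶠ n in (hyperfilter ℕ : Filter ℕ), ∃ c, a n < c ∧ c < b n ∧
        (P.map (Pi.evalRingHom (fun _ : ℕ => ℝ) n)).eval c = 0 := by
      filter_upwards [qh_lt.mp hab, qh_neg.mp ha, qh_pos.mp hb] with n h1 h2 h3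
      rw [eval_at] at h2 h3
      exact real_ivt _ _ _ h1 h2 h3
    have hch : ∀ n, ∃ c, (∃ c, a n < c ∧ c < b n ∧
        (P.map (Pi.evalRingHom (fun _ : ℕ => ℝ) n)).eval c = 0) →
        (a n < c ∧ c < b n ∧ (P.map (Pi.evalRingHom (fun _ : ℕ => ℝ) n)).eval c = 0) := by
      intro n
      by_cases hn : ∃ c, a n < c ∧ c < b n ∧
        (P.map (Pi.evalRingHom (fun _ : ℕ => ℝ) n)).eval c = 0
      · obtain ⟨c, hc⟩ := hn
        exact ⟨c, fun _ => hc⟩
      · exact ⟨0, fun h => absurd h hn⟩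
    choose c hc using hch
    refine ⟨qh c, ?_, ?_, ?_⟩
    · rw [qh_lt]
      filter_upwards [h] with n hn
      exact (hc n hn).1
    · rw [qh_lt]
      filter_upwards [h] with n hn
      exact (hc n hn).2.1
    · rw [eval_qh, qh_eq_zero]
      filter_upwards [h] with n hn
      rw [eval_at]
      exact (hc n hn).2.2
  · intro p a b hab
    obtain ⟨P, rfl⟩ := Polynomial.map_surjective qh qh_surj p
    obtain ⟨a, rfl⟩ := qh_surj a
    obtain ⟨b, rfl⟩ := qh_surj b
    have hch : ∀ n, ∃ c, a n < b n → (a n < c ∧ c < b n ∧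
        (P.map (Pi.evalRingHom (fun _ : ℕ => ℝ) n)).eval (b n) -
        (P.map (Pi.evalRingHom (fun _ : ℕ => ℝ) n)).eval (a n) =
        (P.map (Pi.evalRingHom (fun _ : ℕ => ℝ) n)).derivative.eval c * (b n - a n)) := by
      intro n
      by_cases hn : a n < b n
      · obtain ⟨c, hc⟩ := real_mvt (P.map (Pi.evalRingHom (fun _ : ℕ => ℝ) n)) (a n) (b n) hn
        exact ⟨c, fun _ => hc⟩
      · exact ⟨0, fun h => absurd h hn⟩
    choose c hc using hch
    refine ⟨qh c, ?_, ?_, ?_⟩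
    · rw [qh_lt]
      filter_upwards [qh_lt.mp hab] with n hn
      exact (hc n hn).1
    · rw [qh_lt]
      filter_upwards [qh_lt.mp hab] with n hn
      exact (hc n hn).2.1
    · rw [derivative_map, eval_qh, eval_qh, eval_qh, ← map_sub, ← map_sub, ← map_mul, qh_eq]
      filter_upwards [qh_lt.mp hab] with n hn
      have := (hc n hn).2.2
      rw [derivative_map] at this
      rw [Pi.sub_apply, Pi.mul_apply, Pi.sub_apply, eval_at, eval_at, eval_at]
      exact this

/-- countable saturation -/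
lemma saturation {τ ι : Type} [Countable ι] (Q : ι → ℕ → τ → Prop)
    (h : ∀ F : Finset ι, ∃ x : ℕ → τ, ∀ j ∈ F, ∀ᶠ n in (hyperfilter ℕ : Filter ℕ), Q j n (x n)) :
    ∃ x : ℕ → τ, ∀ j, ∀ᶠ n in (hyperfilter ℕ : Filter ℕ), Q j n (x n) := by
  classical
  obtain ⟨e, he⟩ := exists_injective_nat ι
  have hfin : ∀ J : ℕ, {j : ι | e j ≤ J}.Finite := fun J =>
    (Set.finite_Iic J).preimage he.injOn
  choose x hx using fun J : ℕ => h (hfin J).toFinset
  let A : ℕ → ℕ → Prop := fun n J => ∀ j ∈ (hfin J).toFinset, Q j n (x J n)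
  have hA : ∀ J, ∀ᶠ n in (hyperfilter ℕ : Filter ℕ), A n J := by
    intro J
    exact (Filter.eventually_all_finset _).mpr (hx J)
  refine ⟨fun n => x (Nat.findGreatest (A n) n) n, ?_⟩
  intro j
  have hge : ∀ᶠ n in (hyperfilter ℕ : Filter ℕ), e j ≤ n :=
    Filter.Eventually.filter_mono Nat.hyperfilter_le_atTop (Filter.eventually_ge_atTop (e j))
  filter_upwards [hA (e j), hge] with n h1 h2
  have h3 : A n (Nat.findGreatest (A n) n) := Nat.findGreatest_spec h2 h1
  have h4 : e j ≤ Nat.findGreatest (A n) n := Nat.le_findGreatest h2 h1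
  apply h3
  rw [Set.Finite.mem_toFinset]
  exact h4

end Pool.Agent.Work.MP_320dc7_lc
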