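import Mathlib
import Pool.Agent.Work.MP_320dc7_lc.Hyper

set_option autoImplicit false
set_option linter.unusedSectionVars false

namespace Pool.Agent.Work.MP_320dc7_lc

open Filter

lemma countable_mvPolynomial (ι : Type) [Countable ι] : Countable (MvPolynomial ι ℤ) := by
  rw [← Cardinal.mk_le_aleph0_iff]
  refine MvPolynomial.cardinalMk_le_max.trans ?_
  refine max_le (max_le ?_ ?_) le_rfl
  · exact Cardinal.mk_le_aleph0_iff.mpr inferInstance
  · exact Cardinal.mk_le_aleph0_iff.mpr inferInstance

/-- two tuples of hyperreals have the same polynomial signs -/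
def SE {ι : Type} (a b : ι → Hyperreal) : Prop :=
  ∀ P : MvPolynomial ι ℤ, SignType.sign (MvPolynomial.aeval a P) =
    SignType.sign (MvPolynomial.aeval b P)

lemma aeval_ringHom {ι : Type} {A B : Type*} [CommRing A] [CommRing B] (φ : A →+* B) (b : ι → A)
    (P : MvPolynomial ι ℤ) : MvPolynomial.aeval (fun i => φ (b i)) P = φ (MvPolynomial.aeval b P) := by
  induction P using MvPolynomial.induction_on with
  | C c => simp
  | add p q hp hq => rw [map_add, map_add, map_add, hp, hq]
  | mul_X p i hp => rw [map_mul, map_mul, map_mul, hp, MvPolynomial.aeval_X, MvPolynomial.aeval_X]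

lemma aeval_at {ι : Type} (b : ι → ℕ → ℝ) (P : MvPolynomial ι ℤ) (n : ℕ) :
    (MvPolynomial.aeval b P) n = MvPolynomial.aeval (fun i => b i n) P :=
  (aeval_ringHom (Pi.evalRingHom (fun _ : ℕ => ℝ) n) b P).symm

lemma sign_aeval {ι : Type} (b : ι → ℕ → ℝ) (P : MvPolynomial ι ℤ) (s : SignType) :
    SignType.sign (MvPolynomial.aeval (fun i => qh (b i)) P) = s ↔
      ∀ᶠ n in (hyperfilter ℕ : Filter ℕ), SignType.sign (MvPolynomial.aeval (fun i => b i n) P) = s := by
  rw [aeval_ringHom, sign_qh_iff]
  constructor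
  · intro h
    filter_upwards [h] with n hn
    exact (congrArg SignType.sign (aeval_at b P n)).symm.trans hn
  · intro h
    filter_upwards [h] with n hn
    exact (congrArg SignType.sign (aeval_at b P n)).trans hn

lemma sign_aeval_rp {ι : Type} (b : ι → Hyperreal) (P : MvPolynomial ι ℤ) (s : SignType) :
    SignType.sign (MvPolynomial.aeval b P) = s ↔
      ∀ᶠ n in (hyperfilter ℕ : Filter ℕ),
        SignType.sign (MvPolynomial.aeval (fun i => rp (b i) n) P) = s := by
  have h1 := sign_aeval (fun i => rp (b i)) P s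
  have h2 : (fun i => qh (rp (b i))) = b := funext fun i => qh_rp _
  rw [h2] at h1
  exact h1

lemma SE.symm {ι : Type} {a b : ι → Hyperreal} (h : SE a b) : SE b a := fun P => (h P).symm

lemma SE.subst {ι κ : Type} {a a' : ι → Hyperreal} (h : SE a a') (g : κ → MvPolynomial ι ℤ) :
    SE (fun j => MvPolynomial.aeval a (g j)) (fun j => MvPolynomial.aeval a' (g j)) := by
  intro P
  have := h (MvPolynomial.bind₁ g P)
  rw [MvPolynomial.aeval_bind₁, MvPolynomial.aeval_bind₁] at this
  exact this

lemma SE.reindex {ι κ : Type} {a a' : ι → Hyperreal} (h : SE a a') (g : κ → ι) :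
    SE (fun j => a (g j)) (fun j => a' (g j)) := by
  have := h.subst (fun j => MvPolynomial.X (g j))
  simpa using this

lemma aeval_option {ι : Type} (u : Hyperreal) (a : ι → Hyperreal) (P : MvPolynomial (Option ι) ℤ) :
    MvPolynomial.aeval (fun o : Option ι => o.elim u a) P =
      ((MvPolynomial.optionEquivLeft ℤ ι P).map (MvPolynomial.aeval a : _ →ₐ[ℤ] Hyperreal).toRingHom).eval u := by
  induction P using MvPolynomial.induction_on with
  | C c => simp
  | add p q hp hq => rw [map_add, map_add, hp, hq, Polynomial.map_add, Polynomial.eval_add]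
  | mul_X p i hp =>
    rw [map_mul, map_mul, hp, Polynomial.map_mul, Polynomial.eval_mul, MvPolynomial.aeval_X]
    congr 1
    cases i with
    | none => simp
    | some i => simp

lemma ext_one {ι : Type} [Countable ι] {a a' : ι → Hyperreal} (h : SE a a') (u : Hyperreal) :
    ∃ u' : Hyperreal, SE (fun o : Option ι => o.elim u a) (fun o : Option ι => o.elim u' a') := by
  classical
  have := countable_mvPolynomial (Option ι)
  obtain ⟨x, hx⟩ := saturation (τ := ℝ) (ι := MvPolynomial (Option ι) ℤ)
    (fun P n x => SignType.sign (MvPolynomial.aeval (fun o : Option ι => o.elim x (fun j => rp (a' j) n)) P) =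
      SignType.sign (MvPolynomial.aeval (fun o : Option ι => o.elim u a) P)) (by
    intro F
    obtain ⟨u', hu'⟩ := ts_ring rc_hyper rc_hyper
      (MvPolynomial.aeval a : MvPolynomial ι ℤ →ₐ[ℤ] Hyperreal).toRingHom
      (MvPolynomial.aeval a' : MvPolynomial ι ℤ →ₐ[ℤ] Hyperreal).toRingHom h
      (F.image (MvPolynomial.optionEquivLeft ℤ ι)) u
    refine ⟨rp u', ?_⟩
    intro P hP
    have h1 := hu' _ (Finset.mem_image_of_mem _ hP)
    rw [← aeval_option, ← aeval_option] at h1
    have h2 := (sign_aeval_rp (fun o : Option ι => o.elim u' a') P _).mp h1.symm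
    filter_upwards [h2] with n hn
    rw [← hn]
    congr 3
    funext o
    cases o <;> rfl)
  refine ⟨qh x, ?_⟩
  intro P
  symm
  have h1 := sign_aeval (fun o : Option ι => o.elim x (fun j => rp (a' j))) P
    (SignType.sign (MvPolynomial.aeval (fun o : Option ι => o.elim u a) P))
  have h2 : (fun o : Option ι => qh (o.elim x (fun j => rp (a' j)))) =
      (fun o : Option ι => o.elim (qh x) a') := by
    funext o
    cases o with
    | none => rfl
    | some o => simp
  rw [h2] at h1
  rw [h1]
  filter_upwards [hx P] with n hn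
  rw [← hn]
  congr 3
  funext o
  cases o <;> rfl

/-- truncation -/
noncomputable def trunc (n : ℕ) (b : ℕ → Hyperreal) : ℕ → Hyperreal := fun i => if i < n then b i else 0

lemma ext_trunc {ι : Type} [Countable ι] {a a' : ι → Hyperreal} (h : SE a a') (b : ℕ → Hyperreal)
    (n : ℕ) : ∃ b' : ℕ → Hyperreal, SE (Sum.elim a (trunc n b)) (Sum.elim a' (trunc n b')) := by
  classical
  induction n with
  | zero =>
    refine ⟨fun _ => 0, ?_⟩
    have h1 := h.subst (κ := ι ⊕ ℕ) (Sum.elim (fun i => MvPolynomial.X i) (fun _ => 0))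
    have e : ∀ (c : ι → Hyperreal) (d : ℕ → Hyperreal), (fun j => MvPolynomial.aeval c
        (Sum.elim (fun i => MvPolynomial.X i) (fun _ => (0 : MvPolynomial ι ℤ)) j)) =
        Sum.elim c (trunc 0 d) := by
      intro c d
      funext j
      cases j with
      | inl j => simp
      | inr j => simp [trunc]
    rw [e a b, e a' (fun _ => 0)] at h1
    exact h1
  | succ n ih =>
    obtain ⟨b', hb'⟩ := ih
    obtain ⟨u', hu'⟩ := ext_one hb' (b n)
    refine ⟨Function.update b' n u', ?_⟩
    have h1 := hu'.subst (κ := ι ⊕ ℕ) (Sum.elim (fun i => MvPolynomial.X (some (Sum.inl i)))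
      (fun m => if m = n then MvPolynomial.X none else MvPolynomial.X (some (Sum.inr m))))
    have e1 : (fun j => MvPolynomial.aeval (fun o : Option (ι ⊕ ℕ) => o.elim (b n) (Sum.elim a (trunc n b)))
        (Sum.elim (fun i => (MvPolynomial.X (some (Sum.inl i)) : MvPolynomial (Option (ι ⊕ ℕ)) ℤ))
      (fun m => if m = n then MvPolynomial.X none else MvPolynomial.X (some (Sum.inr m))) j)) =
        Sum.elim a (trunc (n + 1) b) := by
      funext j
      cases j with
      | inl j => simp
      | inr m =>
        by_cases hm : m = n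
        · subst hm; simp [trunc]
        · have : (m < n + 1) ↔ m < n := by omega
          simp [trunc, hm, this]
    have e2 : (fun j => MvPolynomial.aeval (fun o : Option (ι ⊕ ℕ) => o.elim u' (Sum.elim a' (trunc n b')))
        (Sum.elim (fun i => (MvPolynomial.X (some (Sum.inl i)) : MvPolynomial (Option (ι ⊕ ℕ)) ℤ))
      (fun m => if m = n then MvPolynomial.X none else MvPolynomial.X (some (Sum.inr m))) j)) =
        Sum.elim a' (trunc (n + 1) (Function.update b' n u')) := by
      funext j
      cases j with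
      | inl j => simp
      | inr m =>
        by_cases hm : m = n
        · subst hm; simp [trunc]
        · have : (m < n + 1) ↔ m < n := by omega
          simp [trunc, hm, this]
    rw [e1, e2] at h1
    exact h1

lemma aeval_trunc {ι : Type} (a : ι → Hyperreal) (b : ℕ → Hyperreal) (P : MvPolynomial (ι ⊕ ℕ) ℤ)
    (n : ℕ) (hn : ∀ m, Sum.inr m ∈ P.vars → m < n) :
    MvPolynomial.aeval (Sum.elim a b) P = MvPolynomial.aeval (Sum.elim a (trunc n b)) P := by
  rw [MvPolynomial.aeval_def, MvPolynomial.aeval_def, ← MvPolynomial.coe_eval₂Hom,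
    ← MvPolynomial.coe_eval₂Hom]
  apply MvPolynomial.eval₂Hom_congr' rfl _ rfl
  intro i hi _
  cases i with
  | inl i => rfl
  | inr m => simp [trunc, hn m hi]

/-- extension of a sign preserving map to countably many further elements -/
theorem ext_countable {ι : Type} [Countable ι] {a a' : ι → Hyperreal} (h : SE a a')
    (b : ℕ → Hyperreal) : ∃ b' : ℕ → Hyperreal, SE (Sum.elim a b) (Sum.elim a' b') := by
  classical
  have := countable_mvPolynomial (ι ⊕ ℕ)
  obtain ⟨x, hx⟩ := saturation (τ := ℕ → ℝ) (ι := MvPolynomial (ι ⊕ ℕ) ℤ)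
    (fun P n x => SignType.sign (MvPolynomial.aeval (Sum.elim (fun j => rp (a' j) n) x) P) =
      SignType.sign (MvPolynomial.aeval (Sum.elim a b) P)) (by
    intro F
    obtain ⟨n, hn⟩ : ∃ n : ℕ, ∀ P ∈ F, ∀ m, Sum.inr m ∈ P.vars → m < n := by
      refine ⟨(F.biUnion (fun P => P.vars)).sup (Sum.elim (fun _ => 0) (fun m => m + 1)), ?_⟩
      intro P hP m hm
      have h1 : (Sum.inr m : ι ⊕ ℕ) ∈ F.biUnion (fun P => P.vars) :=
        Finset.mem_biUnion.mpr ⟨P, hP, hm⟩
      have h2 := Finset.le_sup (f := Sum.elim (fun _ : ι => 0) (fun m : ℕ => m + 1)) h1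
      simp only [Sum.elim_inr] at h2
      omega
    obtain ⟨b', hb'⟩ := ext_trunc h b n
    refine ⟨fun k m => rp (trunc n b' m) k, ?_⟩
    intro P hP
    have h1 := hb' P
    rw [← aeval_trunc a b P n (hn P hP)] at h1
    have h2 := (sign_aeval_rp (Sum.elim a' (trunc n b')) P _).mp h1.symm
    filter_upwards [h2] with k hk
    rw [← hk]
    congr 3
    funext o
    cases o <;> rfl)
  refine ⟨fun m => qh (fun k => x k m), ?_⟩
  intro P
  symm
  have h1 := sign_aeval (Sum.elim (fun j => rp (a' j)) (fun m k => x k m)) P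
    (SignType.sign (MvPolynomial.aeval (Sum.elim a b) P))
  have h2 : (fun o : ι ⊕ ℕ => qh (Sum.elim (fun j => rp (a' j)) (fun m k => x k m) o)) =
      Sum.elim a' (fun m => qh (fun k => x k m)) := by
    funext o
    cases o with
    | inl o => simp
    | inr o => rfl
  rw [h2] at h1
  rw [h1]
  filter_upwards [hx P] with n hn
  rw [← hn]
  congr 3
  funext o
  cases o <;> rfl

end Pool.Agent.Work.MP_320dc7_lc
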