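import Mathlib

set_option autoImplicit false
set_option linter.unusedSectionVars false

namespace Pool.Agent.Work.MP_320dc7_lc

open Cardinal

lemma mk_iUnion_lt_continuum {J : Type} (hJ : Cardinal.mk J < continuum) (S : J → Set ℝ)
    (hS : ∀ j, (S j).Countable) : Cardinal.mk (⋃ j, S j) < continuum := by
  have h1 : Cardinal.mk (⋃ j, S j) ≤ Cardinal.mk J * aleph0 := by
    refine (Cardinal.mk_iUnion_le_sum_mk).trans ?_
    refine (Cardinal.sum_le_sum _ (fun _ => aleph0) (fun j => ?_)).trans ?_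
    · exact Cardinal.mk_le_aleph0_iff.mpr (hS j)
    · rw [Cardinal.sum_const']
  refine h1.trans_lt ?_
  refine (Cardinal.mul_le_max _ _).trans_lt ?_
  exact max_lt (max_lt hJ aleph0_lt_continuum) aleph0_lt_continuum

lemma exists_avoid_point {J : Type} (hJ : Cardinal.mk J < continuum) (S : J → Set ℝ)
    (hS : ∀ j, (S j).Countable) (c δ : ℝ) (hδ : 0 < δ) : ∃ y : ℝ, |y - c| < δ ∧ ∀ j, y ∉ S j := by
  by_contra hcon
  push Not at hcon
  have hsub : Set.Ioo (c - δ) (c + δ) ⊆ ⋃ j, S j := by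
    intro y hy
    obtain ⟨j, hj⟩ := hcon y (by rw [abs_lt]; constructor <;> linarith [hy.1, hy.2])
    exact Set.mem_iUnion.mpr ⟨j, hj⟩
  have h1 := Cardinal.mk_le_mk_of_subset hsub
  rw [Cardinal.mk_Ioo_real (by linarith)] at h1
  exact absurd (mk_iUnion_lt_continuum hJ S hS) (not_lt.mpr h1)

lemma avoid_fin (n : ℕ) : ∀ {J : Type} (_ : Cardinal.mk J < continuum)
    (G : J → MvPolynomial (Fin n) ℝ) (_ : ∀ j, G j ≠ 0) (c : Fin n → ℝ) (δ : ℝ) (_ : 0 < δ),
    ∃ x : Fin n → ℝ, (∀ i, |x i - c i| < δ) ∧ ∀ j, MvPolynomial.eval x (G j) ≠ 0 := by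
  induction n with
  | zero =>
    intro J hJ G hG c δ hδ
    refine ⟨c, fun i => i.elim0, fun j => ?_⟩
    have h1 := hG j
    rw [MvPolynomial.eq_C_of_isEmpty (G j)] at h1 ⊢
    rw [MvPolynomial.eval_C]
    intro h0
    rw [h0, map_zero] at h1
    exact h1 rfl
  | succ n ih =>
    intro J hJ G hG c δ hδ
    have hG' : ∀ j, (MvPolynomial.finSuccEquiv ℝ n (G j)).leadingCoeff ≠ 0 := by
      intro j h0
      rw [Polynomial.leadingCoeff_eq_zero] at h0
      apply hG j
      apply (MvPolynomial.finSuccEquiv ℝ n).injective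
      rw [h0, map_zero]
    obtain ⟨s, hs1, hs2⟩ := ih hJ _ hG' (fun i => c i.succ) δ hδ
    have hp : ∀ j, (MvPolynomial.finSuccEquiv ℝ n (G j)).map (MvPolynomial.eval s) ≠ 0 := by
      intro j h0
      apply hs2 j
      have := congrArg (fun p => Polynomial.coeff p
        (MvPolynomial.finSuccEquiv ℝ n (G j)).natDegree) h0
      simp only [Polynomial.coeff_map, Polynomial.coeff_zero] at this
      exact this
    obtain ⟨y, hy1, hy2⟩ := exists_avoid_point hJ
      (fun j => {y | ((MvPolynomial.finSuccEquiv ℝ n (G j)).map (MvPolynomial.eval s)).eval y = 0})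
      (by
        intro j
        apply Set.Finite.countable
        refine (Polynomial.rootSet_finite
          ((MvPolynomial.finSuccEquiv ℝ n (G j)).map (MvPolynomial.eval s)) ℝ).subset ?_
        intro y hy
        rw [Polynomial.mem_rootSet]
        exact ⟨hp j, by simpa using hy⟩) (c 0) δ hδ
    refine ⟨Fin.cons y s, ?_, ?_⟩
    · intro i
      refine Fin.cases ?_ ?_ i
      · simpa using hy1
      · intro i
        simpa using hs1 i
    · intro j
      rw [MvPolynomial.eval_eq_eval_mv_eval']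
      exact hy2 j

lemma avoid_finset (B : Finset ℕ) {J : Type} (hJ : Cardinal.mk J < continuum)
    (G : J → MvPolynomial B ℝ) (hG : ∀ j, G j ≠ 0) (c : ℕ → ℝ) (δ : ℝ) (hδ : 0 < δ) :
    ∃ x : ℕ → ℝ, (∀ i ∈ B, |x i - c i| < δ) ∧
      ∀ j, MvPolynomial.eval (fun i : B => x i) (G j) ≠ 0 := by
  classical
  let e : B ≃ Fin B.card := B.equivFin
  obtain ⟨x, hx1, hx2⟩ := avoid_fin B.card hJ (fun j => MvPolynomial.rename e (G j)) (by
    intro j h0
    apply hG j
    apply MvPolynomial.rename_injective e e.injective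
    rw [h0, map_zero]) (fun i => c (e.symm i)) δ hδ
  refine ⟨fun i => if h : i ∈ B then x (e ⟨i, h⟩) else 0, ?_, ?_⟩
  · intro i hi
    have := hx1 (e ⟨i, hi⟩)
    simp only [Equiv.symm_apply_apply] at this
    simp only [hi, dif_pos]
    exact this
  · intro j
    have := hx2 j
    rw [MvPolynomial.eval_rename] at this
    convert this using 3
    funext i
    simp

/-- A requirement: a finite set of pairs of coordinates, a Borel set and a countable set. -/
def Req : Type := Finset (ℕ × ℕ) × {Z : Set (ℕ → ℝ) // MeasurableSet Z} × (ℕ → ℝ)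

lemma mk_req : Cardinal.mk Req ≤ continuum := by
  have h1 : Cardinal.mk (Finset (ℕ × ℕ)) ≤ continuum :=
    (Cardinal.mk_le_aleph0_iff.mpr inferInstance).trans aleph0_le_continuum
  have h2 : Cardinal.mk {Z : Set (ℕ → ℝ) // MeasurableSet Z} ≤ continuum := by
    obtain ⟨b, hb, hgen⟩ := (inferInstance : MeasurableSpace.CountablyGenerated (ℕ → ℝ)).isCountablyGenerated
    have h3 := MeasurableSpace.cardinal_measurableSet_le_continuum (s := b)
      ((Cardinal.mk_le_aleph0_iff.mpr hb).trans aleph0_le_continuum)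
    rw [← hgen] at h3
    exact h3
  have h3 : Cardinal.mk (ℕ → ℝ) ≤ continuum := by
    rw [← Cardinal.power_def, Cardinal.mk_real, Cardinal.mk_nat, Cardinal.continuum_power_aleph0]
  unfold Req
  rw [Cardinal.mk_prod, Cardinal.mk_prod, Cardinal.lift_id, Cardinal.lift_id, Cardinal.lift_id,
    Cardinal.lift_id]
  refine (mul_le_mul' h1 (mul_le_mul' h2 h3)).trans ?_
  rw [Cardinal.continuum_mul_self, Cardinal.continuum_mul_self]

/-- validity of a requirement -/
def Valid (r : Req) : Prop :=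
  ∃ (B : Finset ℕ) (c : ℕ → ℝ) (δ : ℝ), 0 < δ ∧
    (∀ x : ℕ → ℝ, (∀ i ∈ B, |x i - c i| < δ) → ∃ y ∈ r.2.1.1, ∀ i ∈ B, y i = x i) ∧
    (∀ q ∈ r.1, ∀ d : ℝ, ∃ G : MvPolynomial B ℝ, G ≠ 0 ∧
      ∀ y ∈ r.2.1.1, y q.1 = d → MvPolynomial.eval (fun i : B => y i) G = 0) ∧
    (∀ y ∈ r.2.1.1, ∀ q ∈ r.1, ∀ q' ∈ r.1, y q.1 = y q'.1 → y q.2 = y q'.2)

lemma pick (r : Req) (hr : Valid r) (D : Set ℝ) (hD : Cardinal.mk D < continuum) :
    ∃ y ∈ r.2.1.1, ∀ q ∈ r.1, y q.1 ∉ D := by
  classical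
  obtain ⟨B, c, δ, hδ, h1, h2, _⟩ := hr
  choose! G hG0 hG1 using h2
  let J : Type := {q // q ∈ r.1} × D
  have hJ : Cardinal.mk J < continuum := by
    change Cardinal.mk ({q // q ∈ r.1} × D) < continuum
    rw [Cardinal.mk_prod, Cardinal.lift_id, Cardinal.lift_id]
    refine (Cardinal.mul_le_max _ _).trans_lt ?_
    refine max_lt (max_lt ?_ hD) aleph0_lt_continuum
    exact (Cardinal.lt_aleph0_of_finite _).trans aleph0_lt_continuum
  obtain ⟨x, hx1, hx2⟩ := avoid_finset B hJ (fun j => G j.1.1 j.2.1)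
    (fun j => hG0 j.1.1 j.1.2 j.2.1) c δ hδ
  obtain ⟨y, hy1, hy2⟩ := h1 x hx1
  refine ⟨y, hy1, ?_⟩
  intro q hq hqD
  apply hx2 ⟨⟨q, hq⟩, ⟨y q.1, hqD⟩⟩
  have h3 := hG1 q hq (y q.1) y hy1 rfl
  convert h3 using 3
  funext i
  exact (hy2 i i.2).symm

/-- the generic function -/
theorem exists_generic : ∃ f : ℝ → ℝ, ∀ r : Req, Valid r →
    ∃ y ∈ r.2.1.1, ∀ q ∈ r.1, f (y q.1) = y q.2 ∧ y q.1 ∉ Set.range r.2.2 := by
  classical
  obtain ⟨lt, hwo, hord⟩ := Cardinal.exists_ord_eq Req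
  have hwf : WellFounded lt := hwo.wf
  have hinit : ∀ r : Req, Cardinal.mk {r' : Req // lt r' r} < continuum := by
    intro r
    have h1 : Cardinal.mk {r' : Req // lt r' r} < Cardinal.mk Req := by
      have h2 : (Ordinal.typein lt r) < Ordinal.type lt := Ordinal.typein_lt_type lt r
      rw [← hord] at h2
      have h3 := Cardinal.lt_ord.mp h2
      exact h3
    exact h1.trans_le mk_req
  -- the recursion
  have hstep : ∀ (r : Req) (prev : ∀ r', lt r' r → (ℕ → ℝ)), ∃ y : ℕ → ℝ, Valid r →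
      (y ∈ r.2.1.1 ∧ ∀ q ∈ r.1, (∀ r' (h : lt r' r), y q.1 ∉ Set.range (prev r' h)) ∧
        y q.1 ∉ Set.range r.2.2) := by
    intro r prev
    by_cases hr : Valid r
    · let S : Option {r' : Req // lt r' r} → Set ℝ := fun o => o.elim (Set.range r.2.2)
        (fun r' => Set.range (prev r'.1 r'.2))
      have hcount : ∀ o, (S o).Countable := by
        intro o
        cases o with
        | none => exact Set.countable_range _
        | some o => exact Set.countable_range _
      have hcard : Cardinal.mk (Option {r' : Req // lt r' r}) < continuum := by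
        rw [Cardinal.mk_option]
        exact Cardinal.add_lt_of_lt aleph0_le_continuum (hinit r)
          (one_lt_aleph0.trans aleph0_lt_continuum)
      obtain ⟨y, hy1, hy2⟩ := pick r hr (⋃ o, S o) (mk_iUnion_lt_continuum hcard S hcount)
      refine ⟨y, fun _ => ⟨hy1, ?_⟩⟩
      intro q hq
      constructor
      · intro r' h hmem
        exact hy2 q hq (Set.mem_iUnion.mpr ⟨some ⟨r', h⟩, hmem⟩)
      · intro hmem
        exact hy2 q hq (Set.mem_iUnion.mpr ⟨none, hmem⟩)
    · exact ⟨0, fun h => absurd h hr⟩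
  choose step hstep' using hstep
  let y : Req → (ℕ → ℝ) := hwf.fix step
  have hy : ∀ r, y r = step r (fun r' _ => y r') := fun r => hwf.fix_eq step r
  have hspec : ∀ r, Valid r → (y r ∈ r.2.1.1 ∧ ∀ q ∈ r.1,
      (∀ r', lt r' r → y r q.1 ∉ Set.range (y r')) ∧ y r q.1 ∉ Set.range r.2.2) := by
    intro r hr
    have := hstep' r (fun r' _ => y r') hr
    rw [← hy r] at this
    exact this
  let good : ℝ → Prop := fun x => ∃ rq : Req × (ℕ × ℕ), Valid rq.1 ∧ rq.2 ∈ rq.1.1 ∧ y rq.1 rq.2.1 = x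
  refine ⟨fun x => if h : good x then y h.choose.1 h.choose.2.2 else 0, ?_⟩
  intro r hr
  refine ⟨y r, (hspec r hr).1, ?_⟩
  intro q hq
  refine ⟨?_, ((hspec r hr).2 q hq).2⟩
  have hg : good (y r q.1) := ⟨(r, q), hr, hq, rfl⟩
  simp only [hg, dif_pos]
  obtain ⟨hr', hq', he⟩ := hg.choose_spec
  set r' := hg.choose.1 with hr'def
  set q' := hg.choose.2 with hq'def
  have hrr : r' = r := by
    rcases trichotomous_of lt r' r with h | h | h
    · exfalso
      exact ((hspec r hr).2 q hq).1 r' h ⟨q'.1, he⟩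
    · exact h
    · exfalso
      exact ((hspec r' hr').2 q' hq').1 r h ⟨q.1, he.symm⟩
  rw [hrr] at he hq' ⊢
  have hr2 := hr
  obtain ⟨_, _, _, _, _, _, h3⟩ := hr
  exact h3 (y r) (hspec r hr2).1 q' hq' q hq he

end Pool.Agent.Work.MP_320dc7_lc
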