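import Mathlib
import Pool.Agent.Work.MP_320dc7_lc.Ext
import Pool.Agent.Work.MP_320dc7_lc.Gen

set_option autoImplicit false
set_option linter.unusedSectionVars false

namespace Pool.Agent.Work.MP_320dc7_lc

open Filter

/-- integer polynomials in countably many variables -/
abbrev Lam : Type := MvPolynomial ℕ ℤ

/-- evaluation of integer polynomials as a ring homomorphism -/
noncomputable def ev {A : Type*} [CommRing A] (α : ℕ → A) : Lam →+* A :=
  (MvPolynomial.aeval α : MvPolynomial ℕ ℤ →ₐ[ℤ] A).toRingHom

lemma ev_apply {A : Type*} [CommRing A] (α : ℕ → A) (P : Lam) : ev α P = MvPolynomial.aeval α P := rfl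

lemma ev_comp {A B : Type*} [CommRing A] [CommRing B] (φ : A →+* B) (α : ℕ → A) :
    φ.comp (ev α) = ev (fun i => φ (α i)) := by
  ext P
  · simp
  · simp [ev_apply]

/-- evaluation of polynomials over `Lam[Z]` in the variables `β` -/
noncomputable def EE {A : Type*} [CommRing A] {β : Type} (α : ℕ → A) (x : β → A) (z : A) :
    MvPolynomial β (Polynomial Lam) →+* A :=
  MvPolynomial.eval₂Hom (Polynomial.eval₂RingHom (ev α) z) x

lemma EE_comp {A B : Type*} [CommRing A] [CommRing B] (φ : A →+* B) {β : Type} (α : ℕ → A)
    (x : β → A) (z : A) (H : MvPolynomial β (Polynomial Lam)) :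
    φ (EE α x z H) = EE (fun i => φ (α i)) (fun i => φ (x i)) (φ z) H := by
  have h : φ.comp (EE α x z) = EE (fun i => φ (α i)) (fun i => φ (x i)) (φ z) := by
    apply MvPolynomial.ringHom_ext
    · intro r
      simp only [EE, RingHom.comp_apply, MvPolynomial.coe_eval₂Hom, MvPolynomial.eval₂_C,
        Polynomial.coe_eval₂RingHom]
      rw [Polynomial.hom_eval₂, ev_comp]
    · intro i
      simp [EE]
  exact congrArg (fun g => g H) h

/-- the tuple `c` restricted to `B` is algebraically independent over the ring generated by `α` -/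
def Ind (α c : ℕ → Hyperreal) (B : Finset ℕ) : Prop :=
  ∀ Q : MvPolynomial B Lam, Q.map (ev α) ≠ 0 →
    MvPolynomial.eval₂ (ev α) (fun i : B => c i) Q ≠ 0

lemma ind_empty (α c : ℕ → Hyperreal) : Ind α c ∅ := by
  intro Q hQ h0
  apply hQ
  have h1 := MvPolynomial.eq_C_of_isEmpty Q
  rw [h1] at h0 ⊢
  rw [MvPolynomial.eval₂_C] at h0
  rw [MvPolynomial.map_C, h0, map_zero]

/-- extraction of an algebraic relation -/
lemma exists_relation (α c : ℕ → Hyperreal) (B : Finset ℕ) (i : ℕ) (hi : i ∉ B)
    (hnot : ¬ Ind α c (insert i B))
    (htr : ∀ h : Polynomial Lam, h.map (ev α) ≠ 0 → Polynomial.eval₂ (ev α) (c i) h ≠ 0) :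
    ∃ H : MvPolynomial B (Polynomial Lam), EE α (fun j : B => c j) (c i) H = 0 ∧
      ∃ μ, Polynomial.eval₂ (ev α) (c i) (MvPolynomial.coeff μ H) ≠ 0 := by
  classical
  unfold Ind at hnot
  push Not at hnot
  obtain ⟨Q, hQ1, hQ2⟩ := hnot
  let e : {x // x ∈ insert i B} ≃ Option {x // x ∈ B} := Finset.subtypeInsertEquivOption hi
  let H : MvPolynomial B (Polynomial Lam) :=
    MvPolynomial.optionEquivRight Lam B (MvPolynomial.rename e Q)
  have hEE : ∀ R : MvPolynomial (Option {x // x ∈ B}) Lam,
      EE α (fun j : B => c j) (c i) (MvPolynomial.optionEquivRight Lam B R) =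
      MvPolynomial.eval₂ (ev α) (fun o : Option {x // x ∈ B} => o.elim (c i) (fun j => c j)) R := by
    intro R
    have h : (EE α (fun j : B => c j) (c i)).comp
        (MvPolynomial.optionEquivRight Lam B).toAlgHom.toRingHom =
        MvPolynomial.eval₂Hom (ev α) (fun o : Option {x // x ∈ B} => o.elim (c i) (fun j => c j)) := by
      apply MvPolynomial.ringHom_ext
      · intro r
        simp [EE, MvPolynomial.optionEquivRight_C]
      · intro o
        cases o with
        | none => simp [EE, MvPolynomial.optionEquivRight_X_none]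
        | some o => simp [EE, MvPolynomial.optionEquivRight_X_some]
    exact congrArg (fun g => g R) h
  refine ⟨H, ?_, ?_⟩
  · change EE α (fun j : B => c j) (c i)
      (MvPolynomial.optionEquivRight Lam B (MvPolynomial.rename e Q)) = 0
    rw [hEE, MvPolynomial.eval₂_rename]
    rw [← hQ2]
    congr 1
    funext j
    rcases j with ⟨j, hj⟩
    simp only [Function.comp_apply]
    by_cases hji : j = i
    · subst hji
      have : e ⟨j, hj⟩ = none := by simp [e, Finset.subtypeInsertEquivOption]
      rw [this]
      rfl
    · have hjB : j ∈ B := (Finset.mem_insert.mp hj).resolve_left hji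
      have : e ⟨j, hj⟩ = some ⟨j, hjB⟩ := by simp [e, Finset.subtypeInsertEquivOption, hji]
      rw [this]
      rfl
  · by_contra hcon
    push Not at hcon
    apply hQ1
    have hcoef : ∀ μ, (MvPolynomial.coeff μ H).map (ev α) = 0 := by
      intro μ
      by_contra h
      exact htr _ h (hcon μ)
    have hH : H.map (Polynomial.mapRingHom (ev α)) = 0 := by
      ext1 μ
      rw [MvPolynomial.coeff_map, MvPolynomial.coeff_zero]
      exact hcoef μ
    have hcomm : ∀ R : MvPolynomial (Option {x // x ∈ B}) Lam,
        (MvPolynomial.optionEquivRight Lam B R).map (Polynomial.mapRingHom (ev α)) =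
        MvPolynomial.optionEquivRight Hyperreal B (R.map (ev α)) := by
      intro R
      have h : (MvPolynomial.map (Polynomial.mapRingHom (ev α))).comp
          (MvPolynomial.optionEquivRight Lam B).toAlgHom.toRingHom =
          (MvPolynomial.optionEquivRight Hyperreal B).toAlgHom.toRingHom.comp
          (MvPolynomial.map (ev α)) := by
        apply MvPolynomial.ringHom_ext
        · intro r
          simp [MvPolynomial.optionEquivRight_C]
        · intro o
          cases o with
          | none => simp [MvPolynomial.optionEquivRight_X_none]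
          | some o => simp [MvPolynomial.optionEquivRight_X_some]
      exact congrArg (fun g => g R) h
    have h1 : MvPolynomial.optionEquivRight Hyperreal B ((MvPolynomial.rename e Q).map (ev α)) = 0 := by
      rw [← hcomm]
      exact hH
    have h2 : (MvPolynomial.rename e Q).map (ev α) = 0 := by
      apply (MvPolynomial.optionEquivRight Hyperreal B).injective
      rw [h1, map_zero]
    rw [MvPolynomial.map_rename] at h2
    apply MvPolynomial.rename_injective e e.injective
    rw [h2, map_zero]

end Pool.Agent.Work.MP_320dc7_lc
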