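import Mathlib
import Pool.Agent.Work.MP_320dc7_lc.FS1

set_option autoImplicit false
set_option linter.unusedSectionVars false

namespace Pool.Agent.Work.MP_320dc7_lc

open Filter

lemma countable_mv (σ : Type) (R : Type) [CommRing R] [Countable σ] [Countable R] :
    Countable (MvPolynomial σ R) := by
  rw [← Cardinal.mk_le_aleph0_iff]
  refine MvPolynomial.cardinalMk_le_max.trans ?_
  refine max_le (max_le ?_ ?_) le_rfl
  · exact Cardinal.mk_le_aleph0_iff.mpr inferInstance
  · exact Cardinal.mk_le_aleph0_iff.mpr inferInstance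

instance : Countable Lam := countable_mvPolynomial ℕ

lemma eval2_comp {A B : Type*} [CommRing A] [CommRing B] (φ : A →+* B) {β : Type} (α : ℕ → A)
    (x : β → A) (G : MvPolynomial β Lam) :
    φ (MvPolynomial.eval₂ (ev α) x G) =
      MvPolynomial.eval₂ (ev (fun i => φ (α i))) (fun i => φ (x i)) G := by
  rw [← ev_comp]
  exact MvPolynomial.hom_eval₂ G (ev α) φ x

lemma eval2_qh_sign {β : Type} (α : ℕ → Hyperreal) (x : β → Hyperreal) (G : MvPolynomial β Lam) :
    ∀ᶠ n in (hyperfilter ℕ : Filter ℕ),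
      SignType.sign (MvPolynomial.eval₂ (ev (fun l => rp (α l) n)) (fun i => rp (x i) n) G) =
      SignType.sign (MvPolynomial.eval₂ (ev α) x G) := by
  have h1 : MvPolynomial.eval₂ (ev α) x G =
      qh (MvPolynomial.eval₂ (ev (fun l => rp (α l))) (fun i => rp (x i)) G) := by
    rw [eval2_comp]
    simp only [qh_rp]
  rw [h1]
  filter_upwards [sign_qh (f := MvPolynomial.eval₂ (ev (fun l => rp (α l))) (fun i => rp (x i)) G)]
    with n hn
  rw [← hn]
  congr 1
  exact (eval2_comp (Pi.evalRingHom (fun _ : ℕ => ℝ) n) (fun l => rp (α l)) (fun i => rp (x i)) G).symm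

lemma exists_common_pos {κ : Type} (F : Finset κ) (p : κ → ℝ → Prop)
    (hmono : ∀ k δ δ', 0 < δ' → δ' ≤ δ → p k δ → p k δ') (h : ∀ k ∈ F, ∃ δ, 0 < δ ∧ p k δ) :
    ∃ δ, 0 < δ ∧ ∀ k ∈ F, p k δ := by
  classical
  induction F using Finset.induction_on with
  | empty => exact ⟨1, one_pos, by simp⟩
  | @insert a F _ ih =>
    obtain ⟨δ1, h1, h2⟩ := ih (fun k hk => h k (Finset.mem_insert_of_mem hk))
    obtain ⟨δ2, h3, h4⟩ := h a (Finset.mem_insert_self _ _)
    refine ⟨min δ1 δ2, lt_min h1 h3, ?_⟩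
    intro k hk
    rcases Finset.mem_insert.mp hk with rfl | hk
    · exact hmono _ _ _ (lt_min h1 h3) (min_le_right _ _) h4
    · exact hmono _ _ _ (lt_min h1 h3) (min_le_left _ _) (h2 k hk)

/-- local constancy of signs of real polynomials at non-zeros -/
lemma sign_local {B : Finset ℕ} (p : MvPolynomial B ℝ) (x0 : ℕ → ℝ)
    (h0 : MvPolynomial.eval (fun i : B => x0 i) p ≠ 0) :
    ∃ δ, 0 < δ ∧ ∀ x : ℕ → ℝ, (∀ i ∈ B, |x i - x0 i| < δ) →
      SignType.sign (MvPolynomial.eval (fun i : B => x i) p) =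
        SignType.sign (MvPolynomial.eval (fun i : B => x0 i) p) := by
  have hcont : Continuous (fun x : B → ℝ => MvPolynomial.eval x p) := MvPolynomial.continuous_eval p
  obtain ⟨δ, hδ, h⟩ := (Metric.continuous_iff.mp hcont) (fun i : B => x0 i)
    |MvPolynomial.eval (fun i : B => x0 i) p| (abs_pos.mpr h0)
  refine ⟨δ, hδ, ?_⟩
  intro x hx
  have h1 := h (fun i : B => x i) (by
    rw [dist_pi_lt_iff hδ]
    intro i
    rw [Real.dist_eq]
    exact hx i i.2)
  rw [Real.dist_eq] at h1
  rcases lt_or_gt_of_ne h0 with hn | hp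
  · rw [sign_neg hn]
    rw [abs_of_neg hn] at h1
    have := (abs_lt.mp h1).2
    rw [sign_neg]
    linarith
  · rw [sign_pos hp]
    rw [abs_of_pos hp] at h1
    have := (abs_lt.mp h1).1
    rw [sign_pos]
    linarith

/-- the polynomial sign conditions at level `n` -/
def Zn (a' c : ℕ → Hyperreal) (Ps : Finset (MvPolynomial (ℕ ⊕ ℕ) ℤ)) (n : ℕ) : Set (ℕ → ℝ) :=
  {y | ∀ P ∈ Ps, SignType.sign (MvPolynomial.aeval (Sum.elim (fun l => rp (a' l) n) y) P) =
    SignType.sign (MvPolynomial.aeval (Sum.elim a' c) P)}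

/-- conversion of polynomials -/
noncomputable def toIter (B : Finset ℕ) : MvPolynomial (ℕ ⊕ B) ℤ → MvPolynomial B Lam :=
  fun P => MvPolynomial.aeval (Sum.elim (fun l => (MvPolynomial.C (MvPolynomial.X l) : MvPolynomial B Lam))
    (fun i => MvPolynomial.X i)) P

lemma toIter_eval {A : Type*} [CommRing A] (B : Finset ℕ) (α : ℕ → A) (x : B → A)
    (P : MvPolynomial (ℕ ⊕ B) ℤ) :
    MvPolynomial.eval₂ (ev α) x (toIter B P) = MvPolynomial.aeval (Sum.elim α x) P := by
  have h := aeval_ringHom (MvPolynomial.eval₂Hom (ev α) x)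
    (Sum.elim (fun l => (MvPolynomial.C (MvPolynomial.X l) : MvPolynomial B Lam))
    (fun i => MvPolynomial.X i)) P
  unfold toIter
  rw [MvPolynomial.coe_eval₂Hom] at h
  refine Eq.trans h.symm ?_
  congr 2
  funext o
  cases o with
  | inl o => simp [ev_apply]
  | inr o => simp

/-- Around the point `c` restricted to an independent set of coordinates, all points are
projections of points of `Zn`. -/
theorem box (a' c : ℕ → Hyperreal) (B : Finset ℕ) (hB : Ind a' c B)
    (Ps : Finset (MvPolynomial (ℕ ⊕ ℕ) ℤ)) :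
    ∀ᶠ n in (hyperfilter ℕ : Filter ℕ), ∃ δ : ℝ, 0 < δ ∧ ∀ x : ℕ → ℝ,
      (∀ i ∈ B, |x i - rp (c i) n| < δ) → ∃ y ∈ Zn a' c Ps n, ∀ i ∈ B, y i = x i := by
  classical
  by_contra hcon
  have hbad := (Ultrafilter.eventually_not (f := hyperfilter ℕ)).mpr hcon
  have := countable_mv B Lam
  obtain ⟨x, hx⟩ := saturation (τ := ℕ → ℝ) (ι := Option (MvPolynomial B Lam))
    (fun o n x => match o with
      | none => ¬ ∃ y ∈ Zn a' c Ps n, ∀ i ∈ B, y i = x i
      | some G => SignType.sign (MvPolynomial.eval₂ (ev (fun l => rp (a' l) n)) (fun i : B => x i) G) =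
          SignType.sign (MvPolynomial.eval₂ (ev a') (fun i : B => c i) G)) (by
    intro F
    have hG : ∀ G : MvPolynomial B Lam, ∀ᶠ n in (hyperfilter ℕ : Filter ℕ), ∃ δ : ℝ, 0 < δ ∧
        ∀ x : ℕ → ℝ, (∀ i ∈ B, |x i - rp (c i) n| < δ) →
        SignType.sign (MvPolynomial.eval₂ (ev (fun l => rp (a' l) n)) (fun i : B => x i) G) =
          SignType.sign (MvPolynomial.eval₂ (ev a') (fun i : B => c i) G) := by
      intro G
      by_cases h0 : MvPolynomial.eval₂ (ev a') (fun i : B => c i) G = 0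
      · have hmap : G.map (ev a') = 0 := by
          by_contra h
          exact hB G h h0
        have hcoef : ∀ᶠ n in (hyperfilter ℕ : Filter ℕ), ∀ μ ∈ G.support,
            ev (fun l => rp (a' l) n) (MvPolynomial.coeff μ G) = 0 := by
          rw [Filter.eventually_all_finset]
          intro μ _
          have h1 : ev a' (MvPolynomial.coeff μ G) = 0 := by
            have := congrArg (MvPolynomial.coeff μ) hmap
            rw [MvPolynomial.coeff_map, MvPolynomial.coeff_zero] at this
            exact this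
          have h2 := (sign_aeval_rp a' (MvPolynomial.coeff μ G) 0).mp (by
            rw [ev_apply] at h1
            rw [h1, sign_zero])
          filter_upwards [h2] with n hn
          rw [ev_apply]
          exact sign_eq_zero_iff.mp hn
        filter_upwards [hcoef] with n hn
        refine ⟨1, one_pos, fun x _ => ?_⟩
        have : G.map (ev (fun l => rp (a' l) n)) = 0 := by
          ext1 μ
          rw [MvPolynomial.coeff_map, MvPolynomial.coeff_zero]
          by_cases hμ : μ ∈ G.support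
          · exact hn μ hμ
          · rw [MvPolynomial.notMem_support_iff.mp hμ, map_zero]
        rw [h0, ← MvPolynomial.eval_map, this, map_zero, sign_zero, sign_zero]
      · filter_upwards [eval2_qh_sign a' (fun i : B => c i) G] with n hn
        rw [← hn]
        have h1 : MvPolynomial.eval (fun i : B => (fun i : ℕ => rp (c i) n) i)
            (G.map (ev (fun l => rp (a' l) n))) ≠ 0 := by
          rw [MvPolynomial.eval_map]
          intro h2
          rw [h2, sign_zero] at hn
          exact h0 (sign_eq_zero_iff.mp hn.symm)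
        obtain ⟨δ, hδ, h⟩ := sign_local (G.map (ev (fun l => rp (a' l) n))) (fun i => rp (c i) n) h1
        refine ⟨δ, hδ, fun x hx => ?_⟩
        have := h x hx
        rw [MvPolynomial.eval_map, MvPolynomial.eval_map] at this
        exact this
    have hall : ∀ᶠ n in (hyperfilter ℕ : Filter ℕ), ∀ G ∈ Finset.eraseNone F, ∃ δ : ℝ, 0 < δ ∧
        ∀ x : ℕ → ℝ, (∀ i ∈ B, |x i - rp (c i) n| < δ) →
        SignType.sign (MvPolynomial.eval₂ (ev (fun l => rp (a' l) n)) (fun i : B => x i) G) =
          SignType.sign (MvPolynomial.eval₂ (ev a') (fun i : B => c i) G) := by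
      rw [Filter.eventually_all_finset]
      intro G _
      exact hG G
    have hex : ∀ᶠ n in (hyperfilter ℕ : Filter ℕ), ∃ x : ℕ → ℝ,
        (¬ ∃ y ∈ Zn a' c Ps n, ∀ i ∈ B, y i = x i) ∧ ∀ G ∈ Finset.eraseNone F,
        SignType.sign (MvPolynomial.eval₂ (ev (fun l => rp (a' l) n)) (fun i : B => x i) G) =
          SignType.sign (MvPolynomial.eval₂ (ev a') (fun i : B => c i) G) := by
      filter_upwards [hall, hbad] with n h1 h2
      obtain ⟨δ, hδ, h3⟩ := exists_common_pos (Finset.eraseNone F)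
        (fun G δ => ∀ x : ℕ → ℝ, (∀ i ∈ B, |x i - rp (c i) n| < δ) →
        SignType.sign (MvPolynomial.eval₂ (ev (fun l => rp (a' l) n)) (fun i : B => x i) G) =
          SignType.sign (MvPolynomial.eval₂ (ev a') (fun i : B => c i) G))
        (fun G δ δ' _ hle h x hx => h x (fun i hi => lt_of_lt_of_le (hx i hi) hle)) h1
      push Not at h2
      obtain ⟨x, hx1, hx2⟩ := h2 δ hδ
      refine ⟨x, ?_, fun G hG' => h3 G hG' x hx1⟩
      rintro ⟨y, hy1, hy2⟩
      obtain ⟨i, hi1, hi2⟩ := hx2 y hy1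
      exact hi2 (hy2 i hi1)
    have hch : ∀ n, ∃ x : ℕ → ℝ, (∃ x : ℕ → ℝ,
        (¬ ∃ y ∈ Zn a' c Ps n, ∀ i ∈ B, y i = x i) ∧ ∀ G ∈ Finset.eraseNone F,
        SignType.sign (MvPolynomial.eval₂ (ev (fun l => rp (a' l) n)) (fun i : B => x i) G) =
          SignType.sign (MvPolynomial.eval₂ (ev a') (fun i : B => c i) G)) →
        ((¬ ∃ y ∈ Zn a' c Ps n, ∀ i ∈ B, y i = x i) ∧ ∀ G ∈ Finset.eraseNone F,
        SignType.sign (MvPolynomial.eval₂ (ev (fun l => rp (a' l) n)) (fun i : B => x i) G) =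
          SignType.sign (MvPolynomial.eval₂ (ev a') (fun i : B => c i) G)) := by
      intro n
      by_cases hn : ∃ x : ℕ → ℝ,
        (¬ ∃ y ∈ Zn a' c Ps n, ∀ i ∈ B, y i = x i) ∧ ∀ G ∈ Finset.eraseNone F,
        SignType.sign (MvPolynomial.eval₂ (ev (fun l => rp (a' l) n)) (fun i : B => x i) G) =
          SignType.sign (MvPolynomial.eval₂ (ev a') (fun i : B => c i) G)
      · obtain ⟨x, hx⟩ := hn
        exact ⟨x, fun _ => hx⟩
      · exact ⟨0, fun h => absurd h hn⟩
    choose x hx using hch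
    refine ⟨x, ?_⟩
    intro o ho
    cases o with
    | none =>
      filter_upwards [hex] with n hn
      exact (hx n hn).1
    | some G =>
      filter_upwards [hex] with n hn
      exact (hx n hn).2 G (Finset.mem_eraseNone.mpr ho))
  -- the limit point
  let x' : ℕ → Hyperreal := fun i => qh (fun n => x n i)
  have hSE : SE (Sum.elim a' (fun i : B => c i)) (Sum.elim a' (fun i : B => x' i)) := by
    intro P
    symm
    have h1 := hx (some (toIter B P))
    simp only [toIter_eval] at h1
    have h2 := sign_aeval (Sum.elim (fun l => rp (a' l)) (fun (i : B) n => x n i)) P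
      (SignType.sign (MvPolynomial.aeval (Sum.elim a' (fun i : B => c i)) P))
    have h3 : (fun o : ℕ ⊕ B => qh (Sum.elim (fun l => rp (a' l)) (fun (i : B) n => x n i) o)) =
        Sum.elim a' (fun i : B => x' i) := by
      funext o
      cases o with
      | inl o => simp
      | inr o => rfl
    rw [h3] at h2
    rw [h2]
    filter_upwards [h1] with n hn
    rw [← hn]
    congr 3
    funext o
    cases o <;> rfl
  obtain ⟨η, hη⟩ := ext_countable hSE c
  -- contradiction
  have hP : ∀ P : MvPolynomial (ℕ ⊕ ℕ) ℤ, SignType.sign (MvPolynomial.aeval (Sum.elim a' η) P) =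
      SignType.sign (MvPolynomial.aeval (Sum.elim a' c) P) := by
    intro P
    have h1 := (hη.reindex (κ := ℕ ⊕ ℕ) (Sum.elim (fun l => Sum.inl (Sum.inl l)) (fun m => Sum.inr m))) P
    have e : ∀ (u : ℕ → Hyperreal) (v : B → Hyperreal) (w : ℕ → Hyperreal),
        (fun j : ℕ ⊕ ℕ => (Sum.elim (Sum.elim u v) w)
        ((Sum.elim (fun l => Sum.inl (Sum.inl l)) (fun m => Sum.inr m) : ℕ ⊕ ℕ → (ℕ ⊕ B) ⊕ ℕ) j)) =
        Sum.elim u w := by
      intro u v w
      funext j
      cases j <;> rfl
    rw [e, e] at h1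
    exact h1.symm
  have hηB : ∀ i ∈ B, η i = x' i := by
    intro i hi
    have h1 := hη (MvPolynomial.X (Sum.inl (Sum.inr ⟨i, hi⟩)) - MvPolynomial.X (Sum.inr i))
    simp only [map_sub, MvPolynomial.aeval_X, Sum.elim_inl, Sum.elim_inr, sub_self, sign_zero] at h1
    have h2 := sign_eq_zero_iff.mp h1.symm
    exact (sub_eq_zero.mp h2).symm
  have hfin : ∀ᶠ n in (hyperfilter ℕ : Filter ℕ), (fun i => rp (η i) n) ∈ Zn a' c Ps n := by
    have : ∀ᶠ n in (hyperfilter ℕ : Filter ℕ), ∀ P ∈ Ps,
        SignType.sign (MvPolynomial.aeval (Sum.elim (fun l => rp (a' l) n) (fun i => rp (η i) n)) P) =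
        SignType.sign (MvPolynomial.aeval (Sum.elim a' c) P) := by
      rw [Filter.eventually_all_finset]
      intro P _
      have h1 := (sign_aeval_rp (Sum.elim a' η) P _).mp (hP P)
      filter_upwards [h1] with n hn
      rw [← hn]
      congr 3
      funext o
      cases o <;> rfl
    exact this
  have hfin2 : ∀ᶠ n in (hyperfilter ℕ : Filter ℕ), ∀ i ∈ B, rp (η i) n = x n i := by
    rw [Filter.eventually_all_finset]
    intro i hi
    have h1 : qh (rp (η i)) = qh (fun n => x n i) := by
      rw [qh_rp]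
      exact hηB i hi
    exact qh_eq.mp h1
  have hnone := hx none
  obtain ⟨n, h1, h2, h3⟩ := (hnone.and (hfin.and hfin2)).exists
  exact h1 ⟨_, h2, h3⟩

end Pool.Agent.Work.MP_320dc7_lc
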