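import Mathlib
import Pool.Agent.Work.MP_320dc7_lc.FS2

set_option autoImplicit false
set_option linter.unusedSectionVars false

namespace Pool.Agent.Work.MP_320dc7_lc

open Filter

/-- the star extension of a function -/
noncomputable def fs (f : ℝ → ℝ) (x : Hyperreal) : Hyperreal := qh (fun n => f (rp x n))

/-- genericity of a function -/
def Gen (f : ℝ → ℝ) : Prop := ∀ r : Req, Valid r →
    ∃ y ∈ r.2.1.1, ∀ q ∈ r.1, f (y q.1) = y q.2 ∧ y q.1 ∉ Set.range r.2.2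

/-- algebraic closedness of the range of a sequence -/
def ACl (a : ℕ → Hyperreal) : Prop :=
  ∀ (h : Polynomial Lam) (z : Hyperreal), h.map (ev a) ≠ 0 → Polynomial.eval₂ (ev a) z h = 0 →
    z ∈ Set.range a

lemma measurable_aeval (α : ℕ → ℝ) (P : MvPolynomial (ℕ ⊕ ℕ) ℤ) :
    Measurable (fun y : ℕ → ℝ => MvPolynomial.aeval (Sum.elim α y) P) := by
  induction P using MvPolynomial.induction_on with
  | C c => simp
  | add p q hp hq => simp only [map_add]; exact hp.add hq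
  | mul_X p i hp =>
    simp only [map_mul, MvPolynomial.aeval_X]
    apply hp.mul
    cases i with
    | inl i => simp
    | inr i => simpa using measurable_pi_apply i

lemma measurableSet_sign (s : SignType) : MeasurableSet {x : ℝ | SignType.sign x = s} := by
  cases s with
  | zero =>
    have : {x : ℝ | SignType.sign x = SignType.zero} = {0} := by
      ext x
      simp only [Set.mem_ofPred_eq, Set.mem_singleton_iff]
      exact sign_eq_zero_iff
    rw [this]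
    exact measurableSet_singleton 0
  | neg =>
    have : {x : ℝ | SignType.sign x = SignType.neg} = Set.Iio 0 := by
      ext x
      simp only [Set.mem_ofPred_eq, Set.mem_Iio]
      exact sign_eq_neg_one_iff
    rw [this]
    exact measurableSet_Iio
  | pos =>
    have : {x : ℝ | SignType.sign x = SignType.pos} = Set.Ioi 0 := by
      ext x
      simp only [Set.mem_ofPred_eq, Set.mem_Ioi]
      exact sign_eq_one_iff
    rw [this]
    exact measurableSet_Ioi

lemma measurableSet_Zn (a' c : ℕ → Hyperreal) (Ps : Finset (MvPolynomial (ℕ ⊕ ℕ) ℤ)) (n : ℕ) :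
    MeasurableSet (Zn a' c Ps n) := by
  have : Zn a' c Ps n = ⋂ P ∈ Ps, (fun y : ℕ → ℝ =>
      MvPolynomial.aeval (Sum.elim (fun l => rp (a' l) n) y) P) ⁻¹'
      {x : ℝ | SignType.sign x = SignType.sign (MvPolynomial.aeval (Sum.elim a' c) P)} := by
    ext y
    simp only [Zn, Set.mem_ofPred_eq, Set.mem_iInter, Set.mem_preimage]
  rw [this]
  exact Finset.measurableSet_biInter _ (fun P _ =>
    (measurable_aeval _ P) (measurableSet_sign _))

/-- the integer polynomial of a relation -/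
noncomputable def PH {B : Finset ℕ} (i : ℕ) (H : MvPolynomial B (Polynomial Lam)) :
    MvPolynomial (ℕ ⊕ ℕ) ℤ :=
  EE (fun l => (MvPolynomial.X (Sum.inl l) : MvPolynomial (ℕ ⊕ ℕ) ℤ))
    (fun j : B => (MvPolynomial.X (Sum.inr (j : ℕ)) : MvPolynomial (ℕ ⊕ ℕ) ℤ))
    (MvPolynomial.X (Sum.inr i) : MvPolynomial (ℕ ⊕ ℕ) ℤ) H

/-- the integer polynomial of a coefficient -/
noncomputable def Ph (i : ℕ) (h : Polynomial Lam) : MvPolynomial (ℕ ⊕ ℕ) ℤ :=
  Polynomial.eval₂ (ev (fun l => MvPolynomial.X (Sum.inl l))) (MvPolynomial.X (Sum.inr i)) h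

lemma PH_eval {A : Type*} [CommRing A] {B : Finset ℕ} (i : ℕ) (H : MvPolynomial B (Polynomial Lam))
    (α y : ℕ → A) : MvPolynomial.aeval (Sum.elim α y) (PH i H) = EE α (fun j : B => y j) (y i) H := by
  have h := EE_comp (MvPolynomial.aeval (Sum.elim α y) : MvPolynomial (ℕ ⊕ ℕ) ℤ →ₐ[ℤ] A).toRingHom
    (fun l => (MvPolynomial.X (Sum.inl l) : MvPolynomial (ℕ ⊕ ℕ) ℤ))
    (fun j : B => (MvPolynomial.X (Sum.inr (j : ℕ)) : MvPolynomial (ℕ ⊕ ℕ) ℤ))
    (MvPolynomial.X (Sum.inr i) : MvPolynomial (ℕ ⊕ ℕ) ℤ) H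
  refine Eq.trans h ?_
  congr 1
  simp

lemma Ph_eval {A : Type*} [CommRing A] (i : ℕ) (h : Polynomial Lam) (α y : ℕ → A) :
    MvPolynomial.aeval (Sum.elim α y) (Ph i h) = Polynomial.eval₂ (ev α) (y i) h := by
  have h1 := Polynomial.hom_eval₂ h (ev (fun l => (MvPolynomial.X (Sum.inl l) : MvPolynomial (ℕ ⊕ ℕ) ℤ)))
    (MvPolynomial.aeval (Sum.elim α y) : MvPolynomial (ℕ ⊕ ℕ) ℤ →ₐ[ℤ] A).toRingHom
    (MvPolynomial.X (Sum.inr i))
  rw [ev_comp] at h1
  refine Eq.trans h1 ?_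
  simp

lemma five_images {R : Type*} {A1 A2 A3 A4 A5 : Type*} (s1 : Finset A1) (s2 : Finset A2)
    (s3 : Finset A3) (s4 : Finset A4) (s5 : Finset A5) (g1 : A1 → R) (g2 : A2 → R) (g3 : A3 → R)
    (g4 : A4 → R) (g5 : A5 → A5 → R) :
    ∃ Ps : Finset R, (∀ x ∈ s1, g1 x ∈ Ps) ∧ (∀ x ∈ s2, g2 x ∈ Ps) ∧ (∀ x ∈ s3, g3 x ∈ Ps) ∧
      (∀ x ∈ s4, g4 x ∈ Ps) ∧ (∀ x ∈ s5, ∀ y ∈ s5, g5 x y ∈ Ps) := by
  classical
  refine ⟨s1.image g1 ∪ s2.image g2 ∪ s3.image g3 ∪ s4.image g4 ∪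
    (s5 ×ˢ s5).image (fun p => g5 p.1 p.2), ?_, ?_, ?_, ?_, ?_⟩
  · intro x hx
    simp only [Finset.mem_union]
    exact Or.inl (Or.inl (Or.inl (Or.inl (Finset.mem_image_of_mem _ hx))))
  · intro x hx
    simp only [Finset.mem_union]
    exact Or.inl (Or.inl (Or.inl (Or.inr (Finset.mem_image_of_mem _ hx))))
  · intro x hx
    simp only [Finset.mem_union]
    exact Or.inl (Or.inl (Or.inr (Finset.mem_image_of_mem _ hx)))
  · intro x hx
    simp only [Finset.mem_union]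
    exact Or.inl (Or.inr (Finset.mem_image_of_mem _ hx))
  · intro x hx y hy
    simp only [Finset.mem_union]
    exact Or.inr (Finset.mem_image.mpr ⟨(x, y), Finset.mk_mem_product hx hy, rfl⟩)

theorem FS (f : ℝ → ℝ) (hf : Gen f) (a a' b : ℕ → Hyperreal) (ρ : ℕ → ℕ) (hab : ∀ i, a i = b (ρ i))
    (hb : Function.Injective b) (hSE : SE a a') (ha' : ACl a')
    (hafcl : ∀ i, fs f (a i) ∈ Set.range a)
    (hcompat : ∀ i j, fs f (a i) = a j → fs f (a' i) = a' j)
    (Js : Finset (MvPolynomial ℕ ℤ)) (Ls : Finset ℕ) (As : Finset (ℕ × ℕ))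
    (hAs : ∀ q ∈ As, fs f (b q.1) = b q.2) (C : ℕ → ℝ) :
    ∀ᶠ n in (hyperfilter ℕ : Filter ℕ), ∃ η : ℕ → ℝ,
      (∀ P ∈ Js, SignType.sign (MvPolynomial.aeval η P) = SignType.sign (MvPolynomial.aeval b P)) ∧
      (∀ l ∈ Ls, η (ρ l) = rp (a' l) n) ∧
      (∀ q ∈ As, f (η q.1) = η q.2) ∧
      (∀ q ∈ As, b q.1 ∉ Set.range a → η q.1 ∉ Set.range C) := by
  classical
  obtain ⟨c, hc⟩ := ext_countable hSE b
  have hcρ : ∀ l, c (ρ l) = a' l := by
    intro l
    have h1 := hc (MvPolynomial.X (Sum.inl l) - MvPolynomial.X (Sum.inr (ρ l)))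
    simp only [map_sub, MvPolynomial.aeval_X, Sum.elim_inl, Sum.elim_inr, hab, sub_self,
      sign_zero] at h1
    exact (sub_eq_zero.mp (sign_eq_zero_iff.mp h1.symm)).symm
  have hbc : SE b c := by
    have := hc.reindex (κ := ℕ) Sum.inr
    exact this
  have hcinj : Function.Injective c := by
    intro i j hij
    have h1 := hbc (MvPolynomial.X i - MvPolynomial.X j)
    simp only [map_sub, MvPolynomial.aeval_X, hij, sub_self, sign_zero] at h1
    exact hb (sub_eq_zero.mp (sign_eq_zero_iff.mp h1))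
  let A1 : Finset (ℕ × ℕ) := As.filter (fun q => b q.1 ∉ Set.range a)
  let A0 : Finset (ℕ × ℕ) := As.filter (fun q => b q.1 ∈ Set.range a)
  let I1 : Finset ℕ := A1.image Prod.fst
  -- transcendence
  have hI1 : ∀ i ∈ I1, ∀ h : Polynomial Lam, h.map (ev a') ≠ 0 →
      Polynomial.eval₂ (ev a') (c i) h ≠ 0 := by
    intro i hi h hh h0
    obtain ⟨l, hl⟩ := ha' h (c i) hh h0
    rw [← hcρ l] at hl
    have hil := hcinj hl
    rw [Finset.mem_image] at hi
    obtain ⟨q, hq, rfl⟩ := hi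
    rw [Finset.mem_filter] at hq
    exact hq.2 ⟨l, by rw [hab, hil]⟩
  -- a maximal independent set
  obtain ⟨B, hB, hBmax⟩ := Finset.exists_max_image (I1.powerset.filter (fun B => Ind a' c B))
    Finset.card ⟨∅, by
      rw [Finset.mem_filter, Finset.mem_powerset]
      exact ⟨Finset.empty_subset _, ind_empty a' c⟩⟩
  rw [Finset.mem_filter, Finset.mem_powerset] at hB
  obtain ⟨hBI, hBind⟩ := hB
  have hrel : ∀ i ∈ I1 \ B, ∃ H : MvPolynomial B (Polynomial Lam),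
      EE a' (fun j : B => c j) (c i) H = 0 ∧
      ∃ μ, Polynomial.eval₂ (ev a') (c i) (MvPolynomial.coeff μ H) ≠ 0 := by
    intro i hi
    rw [Finset.mem_sdiff] at hi
    apply exists_relation a' c B i hi.2 _ (hI1 i hi.1)
    intro hind
    have h1 := hBmax (insert i B) (by
      rw [Finset.mem_filter, Finset.mem_powerset]
      exact ⟨Finset.insert_subset hi.1 hBI, hind⟩)
    rw [Finset.card_insert_of_notMem hi.2] at h1
    omega
  choose! H hH1 μ hH2 using hrel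
  -- indices for the pairs in `A0`
  have hA0 : ∀ q ∈ A0, ∃ l m, q.1 = ρ l ∧ q.2 = ρ m ∧ fs f (a' l) = a' m := by
    intro q hq
    rw [Finset.mem_filter] at hq
    obtain ⟨l, hl⟩ := hq.2
    obtain ⟨m, hm⟩ := hafcl l
    have h1 : b (ρ l) = b q.1 := by rw [← hab, hl]
    have h2 : b q.2 = b (ρ m) := by
      rw [← hab, hm, hl, hAs q hq.1]
    exact ⟨l, m, (hb h1).symm, hb h2, hcompat l m hm.symm⟩
  choose! lq mq hlq hmq hcq using hA0
  let Ls' : Finset ℕ := Ls ∪ A0.image lq ∪ A0.image mq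
  obtain ⟨Ps, hPs1, hPs2, hPs3, hPs4, hPs5⟩ : ∃ Ps : Finset (MvPolynomial (ℕ ⊕ ℕ) ℤ),
      (∀ P ∈ Js, (MvPolynomial.rename Sum.inr P : MvPolynomial (ℕ ⊕ ℕ) ℤ) ∈ Ps) ∧
      (∀ l ∈ Ls', (MvPolynomial.X (Sum.inr (ρ l)) - MvPolynomial.X (Sum.inl l) :
        MvPolynomial (ℕ ⊕ ℕ) ℤ) ∈ Ps) ∧
      (∀ i ∈ I1 \ B, PH i (H i) ∈ Ps) ∧
      (∀ i ∈ I1 \ B, Ph i (MvPolynomial.coeff (μ i) (H i)) ∈ Ps) ∧
      (∀ i ∈ I1, ∀ j ∈ I1, (MvPolynomial.X (Sum.inr i) - MvPolynomial.X (Sum.inr j) :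
        MvPolynomial (ℕ ⊕ ℕ) ℤ) ∈ Ps) :=
    five_images Js Ls' (I1 \ B) (I1 \ B) I1 _ _ _ _ _
  -- consequences of membership in `Zn`
  have hZ1 : ∀ n, ∀ y ∈ Zn a' c Ps n, ∀ P ∈ Js,
      SignType.sign (MvPolynomial.aeval y P) = SignType.sign (MvPolynomial.aeval b P) := by
    intro n y hy P hP
    have h1 := hy (MvPolynomial.rename Sum.inr P) (hPs1 P hP)
    rw [MvPolynomial.aeval_rename, MvPolynomial.aeval_rename] at h1
    rw [hbc P]
    exact h1
  have hZ2 : ∀ n, ∀ y ∈ Zn a' c Ps n, ∀ l ∈ Ls', y (ρ l) = rp (a' l) n := by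
    intro n y hy l hl
    have h1 := hy (MvPolynomial.X (Sum.inr (ρ l)) - MvPolynomial.X (Sum.inl l)) (hPs2 l hl)
    simp only [map_sub, MvPolynomial.aeval_X, Sum.elim_inl, Sum.elim_inr, hcρ, sub_self,
      sign_zero] at h1
    exact sub_eq_zero.mp (sign_eq_zero_iff.mp h1)
  have hZ3 : ∀ n, ∀ y ∈ Zn a' c Ps n, ∀ i ∈ I1 \ B,
      EE (fun l => rp (a' l) n) (fun j : B => y j) (y i) (H i) = 0 := by
    intro n y hy i hi
    have h1 := hy (PH i (H i)) (hPs3 i hi)
    rw [PH_eval, PH_eval, hH1 i hi, sign_zero] at h1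
    exact sign_eq_zero_iff.mp h1
  have hZ4 : ∀ n, ∀ y ∈ Zn a' c Ps n, ∀ i ∈ I1 \ B,
      Polynomial.eval₂ (ev (fun l => rp (a' l) n)) (y i) (MvPolynomial.coeff (μ i) (H i)) ≠ 0 := by
    intro n y hy i hi h0
    have h1 := hy (Ph i (MvPolynomial.coeff (μ i) (H i))) (hPs4 i hi)
    rw [Ph_eval, Ph_eval, h0, sign_zero] at h1
    exact hH2 i hi (sign_eq_zero_iff.mp h1.symm)
  have hZ5 : ∀ n, ∀ y ∈ Zn a' c Ps n, ∀ i ∈ I1, ∀ j ∈ I1, y i = y j → i = j := by
    intro n y hy i hi j hj hij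
    have h1 := hy (MvPolynomial.X (Sum.inr i) - MvPolynomial.X (Sum.inr j)) (hPs5 i hi j hj)
    simp only [map_sub, MvPolynomial.aeval_X, Sum.elim_inr, hij, sub_self,
      sign_zero] at h1
    exact hcinj (sub_eq_zero.mp (sign_eq_zero_iff.mp h1.symm))
  have hcomp : ∀ᶠ n in (hyperfilter ℕ : Filter ℕ), ∀ q ∈ A0,
      f (rp (a' (lq q)) n) = rp (a' (mq q)) n := by
    rw [Filter.eventually_all_finset]
    intro q hq
    have h1 := hcq q hq
    have h2 : qh (fun n => f (rp (a' (lq q)) n)) = qh (rp (a' (mq q))) := by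
      rw [qh_rp]
      exact h1
    exact qh_eq.mp h2
  filter_upwards [box a' c B hBind Ps, hcomp] with n hbox hcompn
  obtain ⟨δ, hδ, hbox⟩ := hbox
  obtain ⟨y, hyZ, hyf⟩ := hf (A1, ⟨Zn a' c Ps n, measurableSet_Zn a' c Ps n⟩, C) (by
    refine ⟨B, fun i => rp (c i) n, δ, hδ, hbox, ?_, ?_⟩
    · intro q hq d
      have hqI : q.1 ∈ I1 := Finset.mem_image_of_mem _ hq
      by_cases hqB : q.1 ∈ B
      · refine ⟨MvPolynomial.X ⟨q.1, hqB⟩ - MvPolynomial.C d, ?_, ?_⟩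
        · intro h0
          have := congrArg (MvPolynomial.eval (fun _ : B => d + 1)) h0
          simp at this
        · intro y _ hyd
          simp [hyd]
      · have hqIB : q.1 ∈ I1 \ B := Finset.mem_sdiff.mpr ⟨hqI, hqB⟩
        let κ : Polynomial Lam →+* ℝ := Polynomial.eval₂RingHom (ev (fun l => rp (a' l) n)) d
        by_cases hG : (H q.1).map κ = 0
        · refine ⟨1, one_ne_zero, ?_⟩
          intro y hy hyd
          exfalso
          apply hZ4 n y hy q.1 hqIB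
          have h1 := congrArg (MvPolynomial.coeff (μ q.1)) hG
          rw [MvPolynomial.coeff_map, MvPolynomial.coeff_zero] at h1
          rw [hyd]
          exact h1
        · refine ⟨(H q.1).map κ, hG, ?_⟩
          intro y hy hyd
          have h1 := hZ3 n y hy q.1 hqIB
          rw [hyd] at h1
          rw [MvPolynomial.eval_map]
          exact h1
    · intro y hy q hq q' hq' hqq
      have h1 := hZ5 n y hy q.1 (Finset.mem_image_of_mem _ hq) q'.1 (Finset.mem_image_of_mem _ hq') hqq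
      have h2 : b q.2 = b q'.2 := by
        rw [← hAs q (Finset.mem_filter.mp hq).1, ← hAs q' (Finset.mem_filter.mp hq').1, h1]
      rw [hb h2])
  refine ⟨y, hZ1 n y hyZ, ?_, ?_, ?_⟩
  · intro l hl
    apply hZ2 n y hyZ
    simp only [Ls', Finset.mem_union]
    exact Or.inl (Or.inl hl)
  · intro q hq
    by_cases hqa : b q.1 ∈ Set.range a
    · have hq0 : q ∈ A0 := Finset.mem_filter.mpr ⟨hq, hqa⟩
      have h1 := hZ2 n y hyZ (lq q) (by
        simp only [Ls', Finset.mem_union]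
        exact Or.inl (Or.inr (Finset.mem_image_of_mem _ hq0)))
      have h2 := hZ2 n y hyZ (mq q) (by
        simp only [Ls', Finset.mem_union]
        exact Or.inr (Finset.mem_image_of_mem _ hq0))
      rw [← hlq q hq0] at h1
      rw [← hmq q hq0] at h2
      rw [h1, h2]
      exact hcompn q hq0
    · exact (hyf q (Finset.mem_filter.mpr ⟨hq, hqa⟩)).1
  · intro q hq hqa
    exact (hyf q (Finset.mem_filter.mpr ⟨hq, hqa⟩)).2

end Pool.Agent.Work.MP_320dc7_lc
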