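import Mathlib
import Pool.Agent.Work.MP_320dc7_lc.FS3

set_option autoImplicit false
set_option linter.unusedSectionVars false

namespace Pool.Agent.Work.MP_320dc7_lc

open Filter

/-- closedness of a sequence -/
def Cl (f : ℝ → ℝ) (a : ℕ → Hyperreal) : Prop := ACl a ∧ ∀ i, fs f (a i) ∈ Set.range a

lemma window {a b : ℕ → Hyperreal} (h : Polynomial Lam)
    (hV : ∀ n, ∀ j ∈ (h.coeff n).vars, b j ∈ Set.range a) :
    ∃ h' : Polynomial Lam, h'.map (ev a) = h.map (ev b) := by
  classical
  let r : ℕ → ℕ := fun j => if h : b j ∈ Set.range a then h.choose else 0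
  have hr : ∀ j, b j ∈ Set.range a → a (r j) = b j := by
    intro j hj
    simp only [r, hj, dif_pos]
    exact hj.choose_spec
  refine ⟨h.map (MvPolynomial.rename r : MvPolynomial ℕ ℤ →ₐ[ℤ] MvPolynomial ℕ ℤ).toRingHom, ?_⟩
  rw [Polynomial.map_map]
  ext n
  rw [Polynomial.coeff_map, Polynomial.coeff_map]
  change MvPolynomial.aeval a (MvPolynomial.rename r (h.coeff n)) = MvPolynomial.aeval b (h.coeff n)
  rw [MvPolynomial.aeval_rename, MvPolynomial.aeval_def, MvPolynomial.aeval_def,
    ← MvPolynomial.coe_eval₂Hom, ← MvPolynomial.coe_eval₂Hom]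
  apply MvPolynomial.eval₂Hom_congr' rfl _ rfl
  intro i hi _
  exact hr i (hV n i hi)

lemma Cl.of_range {f : ℝ → ℝ} {a b : ℕ → Hyperreal} (h : Cl f a) (hr : Set.range b = Set.range a) :
    Cl f b := by
  constructor
  · intro P z h1 h2
    obtain ⟨h', hh'⟩ := window (a := a) (b := b) P (fun n j _ => by rw [← hr]; exact ⟨j, rfl⟩)
    rw [hr]
    rw [← hh'] at h1
    rw [Polynomial.eval₂_eq_eval_map, ← hh', ← Polynomial.eval₂_eq_eval_map] at h2
    exact h.1 h' z h1 h2
  · intro i
    have h1 : b i ∈ Set.range a := by rw [← hr]; exact ⟨i, rfl⟩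
    obtain ⟨j, hj⟩ := h1
    rw [← hj, hr]
    exact h.2 j

lemma step_cl (f : ℝ → ℝ) (a : ℕ → Hyperreal) : ∃ b : ℕ → Hyperreal,
    Set.range a ⊆ Set.range b ∧ (∀ i, fs f (a i) ∈ Set.range b) ∧
    ∀ (h : Polynomial Lam) (z : Hyperreal), h.map (ev a) ≠ 0 → Polynomial.eval₂ (ev a) z h = 0 →
      z ∈ Set.range b := by
  classical
  let S : Set Hyperreal := Set.range a ∪ Set.range (fun i => fs f (a i)) ∪
    ⋃ h : Polynomial Lam, {z | h.map (ev a) ≠ 0 ∧ Polynomial.eval₂ (ev a) z h = 0}
  have hP : Countable (Polynomial Lam) := by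
    rw [← Cardinal.mk_le_aleph0_iff]
    refine Polynomial.cardinalMk_le_max.trans ?_
    exact max_le (Cardinal.mk_le_aleph0_iff.mpr inferInstance) le_rfl
  have hS : S.Countable := by
    refine ((Set.countable_range _).union (Set.countable_range _)).union ?_
    refine Set.countable_iUnion (fun h => ?_)
    by_cases hh : h.map (ev a) = 0
    · have : {z | h.map (ev a) ≠ 0 ∧ Polynomial.eval₂ (ev a) z h = 0} = ∅ := by
        ext z
        simp [hh]
      rw [this]
      exact Set.countable_empty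
    · refine (Set.Finite.subset (Polynomial.finite_setOfPred_isRoot hh) ?_).countable
      intro z hz
      rw [Set.mem_ofPred_eq] at hz
      change Polynomial.IsRoot _ _
      rw [Polynomial.IsRoot, ← Polynomial.eval₂_eq_eval_map]
      exact hz.2
  obtain ⟨b, hb⟩ := hS.exists_eq_range ⟨a 0, Or.inl (Or.inl ⟨0, rfl⟩)⟩
  refine ⟨b, ?_, ?_, ?_⟩
  · rw [← hb]
    exact fun x hx => Or.inl (Or.inl hx)
  · intro i
    rw [← hb]
    exact Or.inl (Or.inr ⟨i, rfl⟩)
  · intro h z h1 h2
    rw [← hb]
    exact Or.inr (Set.mem_iUnion.mpr ⟨h, h1, h2⟩)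

lemma nat_mem_of_acl {a : ℕ → Hyperreal} (ha : ACl a) (n : ℕ) : (n : Hyperreal) ∈ Set.range a := by
  apply ha (Polynomial.X - Polynomial.C (n : Lam))
  · rw [Polynomial.map_sub, Polynomial.map_X, Polynomial.map_C]
    exact Polynomial.X_sub_C_ne_zero _
  · simp

/-- the closure lemma -/
theorem exists_closure (f : ℝ → ℝ) (a : ℕ → Hyperreal) : ∃ b : ℕ → Hyperreal,
    Function.Injective b ∧ Cl f b ∧ Set.range a ⊆ Set.range b := by
  classical
  choose st hst1 hst2 hst3 using step_cl f
  let A : ℕ → ℕ → Hyperreal := fun n => Nat.rec a (fun _ c => st c) n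
  have hA1 : ∀ n, Set.range (A n) ⊆ Set.range (A (n + 1)) := fun n => hst1 (A n)
  have hmono : Monotone (fun n => Set.range (A n)) := monotone_nat_of_le_succ hA1
  let b : ℕ → Hyperreal := fun k => A k.unpair.1 k.unpair.2
  have hb : ∀ n i, A n i ∈ Set.range b := by
    intro n i
    refine ⟨Nat.pair n i, ?_⟩
    simp [b]
  have hbC : Cl f b := by
    constructor
    · intro h z h1 h2
      obtain ⟨N, hN⟩ : ∃ N, ∀ n, ∀ j ∈ (h.coeff n).vars, b j ∈ Set.range (A N) := by
        let V : Finset ℕ := h.support.biUnion (fun n => (h.coeff n).vars)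
        refine ⟨V.sup (fun j => j.unpair.1), ?_⟩
        intro n j hj
        have hn : n ∈ h.support := by
          rw [Polynomial.mem_support_iff]
          intro h0
          rw [h0, MvPolynomial.vars_0] at hj
          exact absurd hj (Finset.notMem_empty _)
        have hjV : j ∈ V := Finset.mem_biUnion.mpr ⟨n, hn, hj⟩
        exact hmono (Finset.le_sup (f := fun j : ℕ => j.unpair.1) hjV) ⟨j.unpair.2, rfl⟩
      obtain ⟨h', hh'⟩ := window h hN
      rw [← hh'] at h1
      rw [Polynomial.eval₂_eq_eval_map, ← hh', ← Polynomial.eval₂_eq_eval_map] at h2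
      obtain ⟨i, hi⟩ := hst3 (A N) h' z h1 h2
      rw [← hi]
      exact hb (N + 1) i
    · intro k
      obtain ⟨i, hi⟩ := hst2 (A k.unpair.1) k.unpair.2
      have : fs f (b k) = A (k.unpair.1 + 1) i := hi.symm
      rw [this]
      exact hb (k.unpair.1 + 1) i
  have hinf : (Set.range b).Infinite := by
    have h1 : (Set.range (fun n : ℕ => (n : Hyperreal))).Infinite :=
      Set.infinite_range_of_injective Nat.cast_injective
    refine h1.mono ?_
    rintro _ ⟨n, rfl⟩
    exact nat_mem_of_acl hbC.1 n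
  have : Infinite (Set.range b) := hinf.to_subtype
  have : Countable (Set.range b) := (Set.countable_range b).to_subtype
  obtain ⟨e⟩ := nonempty_equiv_of_countable (α := ℕ) (β := Set.range b)
  refine ⟨fun n => (e n : Hyperreal), ?_, ?_, ?_⟩
  · intro i j hij
    exact e.injective (Subtype.ext hij)
  · apply hbC.of_range
    ext x
    constructor
    · rintro ⟨n, rfl⟩
      exact (e n).2
    · intro hx
      exact ⟨e.symm ⟨x, hx⟩, by simp⟩
  · intro x hx
    have hx' : x ∈ Set.range b := by
      obtain ⟨i, rfl⟩ := hx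
      exact hb 0 i
    exact ⟨e.symm ⟨x, hx'⟩, by simp⟩

/-- transfer of algebraic closedness -/
theorem acl_transfer {b b' : ℕ → Hyperreal} (h : SE b b') (hb : ACl b) : ACl b' := by
  classical
  intro P z' h1 h2
  have h3 : P.map (ev b) ≠ 0 := by
    intro h0
    apply h1
    ext n
    have h4 := congrArg (fun p => Polynomial.coeff p n) h0
    simp only [Polynomial.coeff_map, Polynomial.coeff_zero] at h4 ⊢
    have h5 := h (P.coeff n)
    rw [← ev_apply, ← ev_apply, h4, sign_zero] at h5
    exact sign_eq_zero_iff.mp h5.symm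
  have hfin : {z | (P.map (ev b)).IsRoot z}.Finite := Polynomial.finite_setOfPred_isRoot h3
  have hroot : ∀ z, (P.map (ev b)).IsRoot z → z ∈ Set.range b := by
    intro z hz
    apply hb P z h3
    rw [Polynomial.eval₂_eq_eval_map]
    exact hz
  let r : Hyperreal → ℕ := fun z => if h : z ∈ Set.range b then h.choose else 0
  have hr : ∀ z, z ∈ Set.range b → b (r z) = z := by
    intro z hz
    simp only [r, hz, dif_pos]
    exact hz.choose_spec
  obtain ⟨y, hy⟩ := ts_ring rc_hyper rc_hyper (ev b') (ev b) (fun c => (h c).symm)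
    (insert P (hfin.toFinset.image (fun z => Polynomial.X - Polynomial.C (MvPolynomial.X (r z)))))
    z'
  have hy1 := hy P (Finset.mem_insert_self _ _)
  rw [← Polynomial.eval₂_eq_eval_map, h2, sign_zero] at hy1
  have hy2 : (P.map (ev b)).IsRoot y := sign_eq_zero_iff.mp hy1.symm
  have hy3 := hy (Polynomial.X - Polynomial.C (MvPolynomial.X (r y))) (Finset.mem_insert_of_mem
    (Finset.mem_image.mpr ⟨y, hfin.mem_toFinset.mpr hy2, rfl⟩))
  simp only [Polynomial.map_sub, Polynomial.map_X, Polynomial.map_C, Polynomial.eval_sub,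
    Polynomial.eval_X, Polynomial.eval_C, ev_apply, MvPolynomial.aeval_X, hr y (hroot y hy2),
    sub_self, sign_zero] at hy3
  exact ⟨r y, (sub_eq_zero.mp (sign_eq_zero_iff.mp hy3)).symm⟩

end Pool.Agent.Work.MP_320dc7_lc
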