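import Mathlib
import Pool.Agent.Work.MP_320dc7_lc.Clos

set_option autoImplicit false
set_option linter.unusedSectionVars false

namespace Pool.Agent.Work.MP_320dc7_lc

open Filter

/-- the back and forth system -/
structure Sys (f : ℝ → ℝ) (a a' : ℕ → Hyperreal) : Prop where
  cl : Cl f a
  cl' : Cl f a'
  se : SE a a'
  compat : ∀ i j, fs f (a i) = a j → fs f (a' i) = a' j

lemma SE.eq_iff {a a' : ℕ → Hyperreal} (h : SE a a') (i j : ℕ) : a i = a j ↔ a' i = a' j := by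
  have h1 := h (MvPolynomial.X i - MvPolynomial.X j)
  simp only [map_sub, MvPolynomial.aeval_X] at h1
  constructor
  · intro h2
    rw [h2, sub_self, sign_zero] at h1
    exact sub_eq_zero.mp (sign_eq_zero_iff.mp h1.symm)
  · intro h2
    rw [h2, sub_self, sign_zero] at h1
    exact sub_eq_zero.mp (sign_eq_zero_iff.mp h1)

lemma Sys.symm {f : ℝ → ℝ} {a a' : ℕ → Hyperreal} (h : Sys f a a') : Sys f a' a := by
  refine ⟨h.cl', h.cl, h.se.symm, ?_⟩
  intro i j hij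
  obtain ⟨k, hk⟩ := h.cl.2 i
  have h1 := h.compat i k hk.symm
  rw [hij] at h1
  rw [← hk]
  exact ((h.se.eq_iff j k).mpr h1).symm

lemma Sys.refl {f : ℝ → ℝ} {a : ℕ → Hyperreal} (h : Cl f a) : Sys f a a :=
  ⟨h, h, fun _ => rfl, fun _ _ h => h⟩

theorem ext0 (f : ℝ → ℝ) (hf : Gen f) (a a' : ℕ → Hyperreal) (hS : Sys f a a')
    (b : ℕ → Hyperreal) (hb : Function.Injective b) (hbC : Cl f b) (ρ : ℕ → ℕ)
    (hab : ∀ i, a i = b (ρ i)) (C : ℕ → ℝ) :
    ∃ b' : ℕ → Hyperreal, Sys f b b' ∧ (∀ i, a' i = b' (ρ i)) ∧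
      ∀ i, b i ∉ Set.range a → ∀ᶠ n in (hyperfilter ℕ : Filter ℕ), rp (b' i) n ∉ Set.range C := by
  classical
  have := countable_mvPolynomial ℕ
  let T : Type := MvPolynomial ℕ ℤ ⊕ ℕ ⊕ {q : ℕ × ℕ // fs f (b q.1) = b q.2}
  have : Countable T := by
    change Countable (MvPolynomial ℕ ℤ ⊕ ℕ ⊕ {q : ℕ × ℕ // fs f (b q.1) = b q.2})
    infer_instance
  let Q : T → ℕ → (ℕ → ℝ) → Prop := fun t n η => Sum.elim
    (fun P : MvPolynomial ℕ ℤ => SignType.sign (MvPolynomial.aeval η P) =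
      SignType.sign (MvPolynomial.aeval b P))
    (Sum.elim (fun l : ℕ => η (ρ l) = rp (a' l) n)
      (fun q : {q : ℕ × ℕ // fs f (b q.1) = b q.2} => f (η q.1.1) = η q.1.2 ∧
        (b q.1.1 ∉ Set.range a → η q.1.1 ∉ Set.range C))) t
  obtain ⟨x, hx⟩ := saturation (τ := ℕ → ℝ) Q (by
    intro F
    let Js : Finset (MvPolynomial ℕ ℤ) := F.biUnion (fun t => Sum.elim (fun P => {P}) (fun _ => ∅) t)
    let Ls : Finset ℕ := F.biUnion (fun t => Sum.elim (fun _ => ∅)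
      (Sum.elim (fun l => {l}) (fun _ => ∅)) t)
    let As : Finset (ℕ × ℕ) := F.biUnion (fun t => Sum.elim (fun _ => ∅)
      (Sum.elim (fun _ => ∅) (fun q => {q.1})) t)
    have hAs : ∀ q ∈ As, fs f (b q.1) = b q.2 := by
      intro q hq
      obtain ⟨t, _, ht⟩ := Finset.mem_biUnion.mp hq
      rcases t with P | l | q'
      · simp at ht
      · simp at ht
      · simp only [Sum.elim_inr, Finset.mem_singleton] at ht
        rw [ht]
        exact q'.2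
    have h1 := FS f hf a a' b ρ hab hb hS.se hS.cl'.1 hS.cl.2 hS.compat Js Ls As hAs C
    have h2 : ∀ n, ∃ η : ℕ → ℝ, (∃ η : ℕ → ℝ,
      (∀ P ∈ Js, SignType.sign (MvPolynomial.aeval η P) = SignType.sign (MvPolynomial.aeval b P)) ∧
      (∀ l ∈ Ls, η (ρ l) = rp (a' l) n) ∧
      (∀ q ∈ As, f (η q.1) = η q.2) ∧
      (∀ q ∈ As, b q.1 ∉ Set.range a → η q.1 ∉ Set.range C)) →
      ((∀ P ∈ Js, SignType.sign (MvPolynomial.aeval η P) = SignType.sign (MvPolynomial.aeval b P)) ∧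
      (∀ l ∈ Ls, η (ρ l) = rp (a' l) n) ∧
      (∀ q ∈ As, f (η q.1) = η q.2) ∧
      (∀ q ∈ As, b q.1 ∉ Set.range a → η q.1 ∉ Set.range C)) := by
      intro n
      by_cases hn : (∃ η : ℕ → ℝ,
        (∀ P ∈ Js, SignType.sign (MvPolynomial.aeval η P) = SignType.sign (MvPolynomial.aeval b P)) ∧
        (∀ l ∈ Ls, η (ρ l) = rp (a' l) n) ∧
        (∀ q ∈ As, f (η q.1) = η q.2) ∧
        (∀ q ∈ As, b q.1 ∉ Set.range a → η q.1 ∉ Set.range C))
      · obtain ⟨η, hη⟩ := hn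
        exact ⟨η, fun _ => hη⟩
      · exact ⟨0, fun h => absurd h hn⟩
    choose x hx using h2
    refine ⟨x, ?_⟩
    intro t ht
    filter_upwards [h1] with n hn
    obtain ⟨g1, g2, g3, g4⟩ := hx n hn
    rcases t with P | l | q
    · exact g1 P (Finset.mem_biUnion.mpr ⟨_, ht, by simp⟩)
    · exact g2 l (Finset.mem_biUnion.mpr ⟨_, ht, by simp⟩)
    · have hq : q.1 ∈ As := Finset.mem_biUnion.mpr ⟨_, ht, by simp⟩
      exact ⟨g3 q.1 hq, g4 q.1 hq⟩)
  have hx1 : ∀ P : MvPolynomial ℕ ℤ, ∀ᶠ n in (hyperfilter ℕ : Filter ℕ),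
      SignType.sign (MvPolynomial.aeval (x n) P) = SignType.sign (MvPolynomial.aeval b P) :=
    fun P => hx (Sum.inl P)
  have hx2 : ∀ l : ℕ, ∀ᶠ n in (hyperfilter ℕ : Filter ℕ), x n (ρ l) = rp (a' l) n :=
    fun l => hx (Sum.inr (Sum.inl l))
  have hx3 : ∀ i j : ℕ, fs f (b i) = b j → ∀ᶠ n in (hyperfilter ℕ : Filter ℕ),
      f (x n i) = x n j ∧ (b i ∉ Set.range a → x n i ∉ Set.range C) :=
    fun i j h => hx (Sum.inr (Sum.inr ⟨(i, j), h⟩))
  let b' : ℕ → Hyperreal := fun j => qh (fun n => x n j)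
  have hrp : ∀ j, ∀ᶠ n in (hyperfilter ℕ : Filter ℕ), rp (b' j) n = x n j := by
    intro j
    rw [← qh_eq, qh_rp]
  have hse : SE b b' := by
    intro P
    symm
    have h1 := sign_aeval (fun j n => x n j) P (SignType.sign (MvPolynomial.aeval b P))
    exact h1.mpr (hx1 P)
  have hcompat : ∀ i j, fs f (b i) = b j → fs f (b' i) = b' j := by
    intro i j hij
    change qh (fun n => f (rp (b' i) n)) = qh (fun n => x n j)
    rw [qh_eq]
    filter_upwards [hrp i, hx3 i j hij] with n h1 h2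
    rw [h1]
    exact h2.1
  refine ⟨b', ⟨hbC, ⟨acl_transfer hse hbC.1, ?_⟩, hse, hcompat⟩, ?_, ?_⟩
  · intro i
    obtain ⟨j, hj⟩ := hbC.2 i
    exact ⟨j, (hcompat i j hj.symm).symm⟩
  · intro l
    change a' l = qh (fun n => x n (ρ l))
    refine (qh_rp (a' l)).symm.trans ?_
    rw [qh_eq]
    filter_upwards [hx2 l] with n hn
    exact hn.symm
  · intro i hi
    obtain ⟨j, hj⟩ := hbC.2 i
    filter_upwards [hrp i, hx3 i j hj.symm] with n h1 h2
    rw [h1]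
    exact h2.2 hi

/-- the extension property -/
theorem ext1 (f : ℝ → ℝ) (hf : Gen f) (a a' : ℕ → Hyperreal) (hS : Sys f a a') (u : Hyperreal) :
    ∃ (b b' : ℕ → Hyperreal) (ρ : ℕ → ℕ), Sys f b b' ∧ (∀ i, a i = b (ρ i)) ∧
      (∀ i, a' i = b' (ρ i)) ∧ ∃ m, u = b m := by
  obtain ⟨b, hb, hbC, hsub⟩ := exists_closure f (fun n => Nat.casesOn n u a)
  have h1 : ∀ i, ∃ j, a i = b j := by
    intro i
    obtain ⟨j, hj⟩ := hsub ⟨i + 1, rfl⟩
    exact ⟨j, hj.symm⟩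
  obtain ⟨m, hm⟩ := hsub ⟨0, rfl⟩
  choose ρ hρ using h1
  obtain ⟨b', h2, h3, _⟩ := ext0 f hf a a' hS b hb hbC ρ hρ (fun _ => 0)
  exact ⟨b, b', ρ, h2, hρ, h3, m, hm.symm⟩

end Pool.Agent.Work.MP_320dc7_lc
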