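import Mathlib
import Pool.Agent.Work.MP_320dc7_lc.Sys

set_option autoImplicit false
set_option linter.unusedSectionVars false

namespace Pool.Agent.Work.MP_320dc7_lc

open Filter FirstOrder FirstOrder.Language

/-- relation symbols -/
inductive Rel : ℕ → Type
  | add : Rel 3
  | mul : Rel 3
  | le : Rel 2
  | graph : Rel 2

/-- the relational language -/
def Lg : FirstOrder.Language.{0, 0} := ⟨fun _ => Empty, Rel⟩

/-- interpretation of the relation symbols -/
def relMap (f : ℝ → ℝ) : ∀ {n : ℕ}, Rel n → (Fin n → ℝ) → Prop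
  | _, Rel.add, v => v 0 + v 1 = v 2
  | _, Rel.mul, v => v 0 * v 1 = v 2
  | _, Rel.le, v => v 0 ≤ v 1
  | _, Rel.graph, v => f (v 0) = v 1

/-- the structure on the reals given by a unary function -/
@[reducible] def str (f : ℝ → ℝ) : Lg.Structure ℝ where
  funMap := fun F => Empty.elim F
  RelMap := fun R v => relMap f R v

/-- realization -/
def Rlz (f : ℝ → ℝ) {α : Type} {n : ℕ} (φ : Lg.BoundedFormula α n) (v : α → ℝ) (w : Fin n → ℝ) :
    Prop :=
  @BoundedFormula.Realize Lg ℝ (str f) _ _ φ v w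

lemma term_var {β : Type} (t : Lg.Term β) : ∃ i, t = Term.var i := by
  cases t with
  | var i => exact ⟨i, rfl⟩
  | func F ts => exact Empty.elim F

lemma elim_rp {α : Type} {n : ℕ} (a : ℕ → Hyperreal) (v : α → ℕ) (w : Fin n → ℕ) (k : ℕ)
    (i : α ⊕ Fin n) :
    Sum.elim (fun i => rp (a (v i)) k) (fun i => rp (a (w i)) k) i = rp (a (Sum.elim v w i)) k := by
  cases i <;> rfl

lemma ev_eq (x y : Hyperreal) :
    (∀ᶠ k in (hyperfilter ℕ : Filter ℕ), rp x k = rp y k) ↔ x = y := by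
  rw [← qh_eq, qh_rp, qh_rp]

lemma ev_add (x y z : Hyperreal) :
    (∀ᶠ k in (hyperfilter ℕ : Filter ℕ), rp x k + rp y k = rp z k) ↔ x + y = z := by
  have h : qh (rp x + rp y) = qh (rp z) ↔ x + y = z := by
    rw [map_add, qh_rp, qh_rp, qh_rp]
  rw [← h, qh_eq]
  rfl

lemma ev_mul (x y z : Hyperreal) :
    (∀ᶠ k in (hyperfilter ℕ : Filter ℕ), rp x k * rp y k = rp z k) ↔ x * y = z := by
  have h : qh (rp x * rp y) = qh (rp z) ↔ x * y = z := by
    rw [map_mul, qh_rp, qh_rp, qh_rp]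
  rw [← h, qh_eq]
  rfl

lemma ev_le (x y : Hyperreal) :
    (∀ᶠ k in (hyperfilter ℕ : Filter ℕ), rp x k ≤ rp y k) ↔ x ≤ y := by
  have h : qh (rp x) ≤ qh (rp y) ↔ x ≤ y := by
    rw [qh_rp, qh_rp]
  rw [← h]
  exact Germ.coe_le.symm

lemma ev_graph (f : ℝ → ℝ) (x y : Hyperreal) :
    (∀ᶠ k in (hyperfilter ℕ : Filter ℕ), f (rp x k) = rp y k) ↔ fs f x = y := by
  have h : qh (fun k => f (rp x k)) = qh (rp y) ↔ fs f x = y := by
    rw [qh_rp]
    rfl
  rw [← h, qh_eq]

/-- invariance of the satisfaction of formulas -/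
theorem inv (f : ℝ → ℝ) (hf : Gen f) {α : Type} {n : ℕ} (φ : Lg.BoundedFormula α n) :
    ∀ (a a' : ℕ → Hyperreal), Sys f a a' → ∀ (v : α → ℕ) (w : Fin n → ℕ),
      (∀ᶠ k in (hyperfilter ℕ : Filter ℕ),
        Rlz f φ (fun i => rp (a (v i)) k) (fun i => rp (a (w i)) k)) →
      (∀ᶠ k in (hyperfilter ℕ : Filter ℕ),
        Rlz f φ (fun i => rp (a' (v i)) k) (fun i => rp (a' (w i)) k)) := by
  induction φ with
  | falsum =>
    intro a a' _ v w h
    exact h
  | equal t₁ t₂ =>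
    intro a a' hS v w h
    obtain ⟨i, rfl⟩ := term_var t₁
    obtain ⟨j, rfl⟩ := term_var t₂
    simp only [Rlz, BoundedFormula.Realize, Term.realize_var, elim_rp] at h ⊢
    rw [ev_eq] at h ⊢
    exact (hS.se.eq_iff _ _).mp h
  | rel R ts =>
    intro a a' hS v w h
    choose s hs using fun j => term_var (ts j)
    have hts : ts = fun j => Term.var (s j) := funext hs
    subst hts
    simp only [Rlz, BoundedFormula.Realize, Term.realize_var, elim_rp] at h ⊢
    cases R with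
    | add =>
      change ∀ᶠ k in (hyperfilter ℕ : Filter ℕ), rp (a (Sum.elim v w (s 0))) k +
        rp (a (Sum.elim v w (s 1))) k = rp (a (Sum.elim v w (s 2))) k at h
      change ∀ᶠ k in (hyperfilter ℕ : Filter ℕ), rp (a' (Sum.elim v w (s 0))) k +
        rp (a' (Sum.elim v w (s 1))) k = rp (a' (Sum.elim v w (s 2))) k
      rw [ev_add] at h ⊢
      have h1 := hS.se (MvPolynomial.X (Sum.elim v w (s 0)) + MvPolynomial.X (Sum.elim v w (s 1)) -
        MvPolynomial.X (Sum.elim v w (s 2)))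
      simp only [map_sub, map_add, MvPolynomial.aeval_X, h, sub_self, sign_zero] at h1
      exact sub_eq_zero.mp (sign_eq_zero_iff.mp h1.symm)
    | mul =>
      change ∀ᶠ k in (hyperfilter ℕ : Filter ℕ), rp (a (Sum.elim v w (s 0))) k *
        rp (a (Sum.elim v w (s 1))) k = rp (a (Sum.elim v w (s 2))) k at h
      change ∀ᶠ k in (hyperfilter ℕ : Filter ℕ), rp (a' (Sum.elim v w (s 0))) k *
        rp (a' (Sum.elim v w (s 1))) k = rp (a' (Sum.elim v w (s 2))) k
      rw [ev_mul] at h ⊢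
      have h1 := hS.se (MvPolynomial.X (Sum.elim v w (s 0)) * MvPolynomial.X (Sum.elim v w (s 1)) -
        MvPolynomial.X (Sum.elim v w (s 2)))
      simp only [map_sub, map_mul, MvPolynomial.aeval_X, h, sub_self, sign_zero] at h1
      exact sub_eq_zero.mp (sign_eq_zero_iff.mp h1.symm)
    | le =>
      change ∀ᶠ k in (hyperfilter ℕ : Filter ℕ), rp (a (Sum.elim v w (s 0))) k ≤
        rp (a (Sum.elim v w (s 1))) k at h
      change ∀ᶠ k in (hyperfilter ℕ : Filter ℕ), rp (a' (Sum.elim v w (s 0))) k ≤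
        rp (a' (Sum.elim v w (s 1))) k
      rw [ev_le] at h ⊢
      have h1 := hS.se (MvPolynomial.X (Sum.elim v w (s 1)) - MvPolynomial.X (Sum.elim v w (s 0)))
      simp only [map_sub, MvPolynomial.aeval_X] at h1
      rw [← sub_nonneg, ← sign_nonneg_iff] at h ⊢
      rw [← h1]
      exact h
    | graph =>
      change ∀ᶠ k in (hyperfilter ℕ : Filter ℕ), f (rp (a (Sum.elim v w (s 0))) k) =
        rp (a (Sum.elim v w (s 1))) k at h
      change ∀ᶠ k in (hyperfilter ℕ : Filter ℕ), f (rp (a' (Sum.elim v w (s 0))) k) =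
        rp (a' (Sum.elim v w (s 1))) k
      rw [ev_graph] at h ⊢
      exact hS.compat _ _ h
  | imp φ ψ ih1 ih2 =>
    intro a a' hS v w h
    change ∀ᶠ k in (hyperfilter ℕ : Filter ℕ),
      (Rlz f φ (fun i => rp (a (v i)) k) (fun i => rp (a (w i)) k) →
        Rlz f ψ (fun i => rp (a (v i)) k) (fun i => rp (a (w i)) k)) at h
    change ∀ᶠ k in (hyperfilter ℕ : Filter ℕ),
      (Rlz f φ (fun i => rp (a' (v i)) k) (fun i => rp (a' (w i)) k) →
        Rlz f ψ (fun i => rp (a' (v i)) k) (fun i => rp (a' (w i)) k))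
    rw [Ultrafilter.eventually_imp] at h ⊢
    intro h1
    exact ih2 a a' hS v w (h (ih1 a' a hS.symm v w h1))
  | @all m φ ih =>
    intro a a' hS v w h
    change ∀ᶠ k in (hyperfilter ℕ : Filter ℕ), ∀ x : ℝ,
      Rlz f φ (fun i => rp (a (v i)) k) (Fin.snoc (fun i => rp (a (w i)) k) x) at h
    change ∀ᶠ k in (hyperfilter ℕ : Filter ℕ), ∀ x : ℝ,
      Rlz f φ (fun i => rp (a' (v i)) k) (Fin.snoc (fun i => rp (a' (w i)) k) x)
    by_contra hcon
    rw [← Ultrafilter.eventually_not] at hcon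
    have hch : ∀ k, ∃ x : ℝ, (¬ ∀ x : ℝ,
        Rlz f φ (fun i => rp (a' (v i)) k) (Fin.snoc (fun i => rp (a' (w i)) k) x)) →
        ¬ Rlz f φ (fun i => rp (a' (v i)) k) (Fin.snoc (fun i => rp (a' (w i)) k) x) := by
      intro k
      by_cases hk : ∀ x : ℝ,
        Rlz f φ (fun i => rp (a' (v i)) k) (Fin.snoc (fun i => rp (a' (w i)) k) x)
      · exact ⟨0, fun h => absurd hk h⟩
      · push Not at hk
        obtain ⟨x, hx⟩ := hk
        exact ⟨x, fun _ => hx⟩
    choose x hx using hch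
    obtain ⟨b', b, ρ, hb, h1, h2, m', hm⟩ := ext1 f hf a' a hS.symm (qh x)
    have hxm : ∀ᶠ k in (hyperfilter ℕ : Filter ℕ), x k = rp (b' m') k := by
      rw [← qh_eq, qh_rp, hm]
    have hsn : ∀ (c : ℕ → Hyperreal) (k : ℕ),
        (Fin.snoc (fun i => rp (c (ρ (w i))) k) (rp (c m') k) : Fin (m + 1) → ℝ) =
        fun i => rp (c ((Fin.snoc (fun i => ρ (w i)) m' : Fin (m + 1) → ℕ) i)) k := by
      intro c k
      funext i
      refine Fin.lastCases ?_ (fun i => ?_) i
      · simp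
      · simp
    have h3 : ∀ᶠ k in (hyperfilter ℕ : Filter ℕ), Rlz f φ (fun i => rp (b (ρ (v i))) k)
        (fun i => rp (b ((Fin.snoc (fun i => ρ (w i)) m' : Fin (m + 1) → ℕ) i)) k) := by
      filter_upwards [h] with k hk
      have := hk (rp (b m') k)
      simp only [h2] at this
      rw [hsn b k] at this
      exact this
    have h4 := ih b b' hb.symm (fun i => ρ (v i)) (Fin.snoc (fun i => ρ (w i)) m' : Fin (m + 1) → ℕ) h3
    obtain ⟨k, ⟨hk1, hk2⟩, hk3⟩ := ((h4.and hcon).and hxm).exists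
    have h5 := hx k hk2
    rw [hk3] at h5
    apply h5
    simp only [h1]
    rw [hsn b' k]
    exact hk1

end Pool.Agent.Work.MP_320dc7_lc
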