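import Mathlib
import Pool.Agent.Work.MP_320dc7_lc.Form

set_option autoImplicit false
set_option linter.unusedSectionVars false

namespace Pool.Agent.Work.MP_320dc7_lc

open Filter FirstOrder FirstOrder.Language

/-- a countable definable set is finite -/
theorem countable_finite (f : ℝ → ℝ) (hf : Gen f) (A0 : Finset ℝ)
    (φ : Lg.Formula ((A0 : Set ℝ) ⊕ Fin 1)) (X : Set ℝ)
    (hX : ∀ x, x ∈ X ↔ Rlz f φ (Sum.elim (fun p => (p : ℝ)) (fun _ => x)) default)
    (hc : X.Countable) : X.Finite := by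
  classical
  by_contra hinf
  have hinf : X.Infinite := hinf
  obtain ⟨C, hC⟩ := hc.exists_eq_range hinf.nonempty
  -- constants
  have hconst : ∃ a0 : ℕ → Hyperreal, ∀ p ∈ A0, qh (fun _ => p) ∈ Set.range a0 := by
    have h1 : ((fun p : ℝ => qh (fun _ => p)) '' (insert 0 (A0 : Set ℝ))).Countable :=
      ((A0.finite_toSet.insert 0).image _).countable
    obtain ⟨a0, ha0⟩ := h1.exists_eq_range ⟨_, ⟨0, Set.mem_insert _ _, rfl⟩⟩
    refine ⟨a0, ?_⟩
    intro p hp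
    rw [← ha0]
    exact ⟨p, Set.mem_insert_of_mem _ hp, rfl⟩
  obtain ⟨a0, ha0⟩ := hconst
  obtain ⟨a, ha, haC, hsub⟩ := exists_closure f a0
  -- a new element of `X`
  have hy : ∀ k : ℕ, ∃ y ∈ X, ∀ i < k, y ≠ rp (a i) k := by
    intro k
    obtain ⟨y, hyX, hy⟩ := hinf.exists_notMem_finset ((Finset.range k).image (fun i => rp (a i) k))
    refine ⟨y, hyX, ?_⟩
    intro i hi h
    apply hy
    rw [h]
    exact Finset.mem_image_of_mem _ (Finset.mem_range.mpr hi)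
  choose y hyX hyn using hy
  have hu : qh y ∉ Set.range a := by
    rintro ⟨i, hi⟩
    rw [← qh_rp (a i), qh_eq] at hi
    have hge : ∀ᶠ n in (hyperfilter ℕ : Filter ℕ), i + 1 ≤ n :=
      Filter.Eventually.filter_mono Nat.hyperfilter_le_atTop (Filter.eventually_ge_atTop (i + 1))
    obtain ⟨k, h1, h2⟩ := (hi.and hge).exists
    exact hyn k i h2 h1.symm
  obtain ⟨b, hb, hbC, hsub2⟩ := exists_closure f (fun n => Nat.casesOn n (qh y) a)
  have h1 : ∀ i, ∃ j, a i = b j := by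
    intro i
    obtain ⟨j, hj⟩ := hsub2 ⟨i + 1, rfl⟩
    exact ⟨j, hj.symm⟩
  obtain ⟨m, hm⟩ := hsub2 ⟨0, rfl⟩
  have hm : b m = qh y := hm
  choose ρ hρ using h1
  obtain ⟨b', h2, h3, h4⟩ := ext0 f hf a a (Sys.refl haC) b hb hbC ρ hρ C
  have h5 := h4 m (by rw [hm]; exact hu)
  -- parameters
  have hpar : ∀ p : (A0 : Set ℝ), ∃ i, a i = qh (fun _ => (p : ℝ)) := by
    intro p
    obtain ⟨i, hi⟩ := hsub (ha0 p p.2)
    exact ⟨i, hi⟩
  choose ip hip using hpar
  let v : (A0 : Set ℝ) ⊕ Fin 1 → ℕ := Sum.elim (fun p => ρ (ip p)) (fun _ => m)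
  have hval : ∀ (c : ℕ → Hyperreal) (_ : ∀ i, a i = c (ρ i)), ∀ᶠ k in (hyperfilter ℕ : Filter ℕ),
      (fun i => rp (c (v i)) k) =
        (Sum.elim (fun p : (A0 : Set ℝ) => (p : ℝ)) (fun _ => rp (c m) k) :
          (A0 : Set ℝ) ⊕ Fin 1 → ℝ) := by
    intro c hc
    have h6 : ∀ᶠ k in (hyperfilter ℕ : Filter ℕ), ∀ p : (A0 : Set ℝ), rp (c (ρ (ip p))) k = p := by
      rw [Filter.eventually_all]
      intro p
      have : qh (rp (c (ρ (ip p)))) = qh (fun _ => (p : ℝ)) := by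
        rw [qh_rp, ← hc, hip]
      exact qh_eq.mp this
    filter_upwards [h6] with k hk
    funext i
    cases i with
    | inl p => exact hk p
    | inr _ => rfl
  have hym : ∀ᶠ k in (hyperfilter ℕ : Filter ℕ), rp (b m) k = y k := by
    rw [← qh_eq, qh_rp, hm]
  have h6 : ∀ᶠ k in (hyperfilter ℕ : Filter ℕ),
      Rlz f φ (fun i => rp (b (v i)) k)
        (fun i => rp (b ((fun i : Fin 0 => i.elim0 : Fin 0 → ℕ) i)) k) := by
    filter_upwards [hval b hρ, hym] with k hk1 hk2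
    rw [hk1, hk2]
    have h7 := (hX (y k)).mp (hyX k)
    have e0 : (fun i : Fin 0 => rp (b ((fun i : Fin 0 => i.elim0 : Fin 0 → ℕ) i)) k) = default :=
      Subsingleton.elim _ _
    rw [e0]
    exact h7
  have h7 := inv f hf φ b b' h2 v _ h6
  obtain ⟨k, ⟨hk1, hk2⟩, hk3⟩ := ((h7.and (hval b' h3)).and h5).exists
  rw [hk2] at hk1
  apply hk3
  rw [← hC, hX]
  have e1 : (default : Fin 0 → ℝ) = (fun i : Fin 0 => rp (b' ((fun i : Fin 0 => i.elim0 : Fin 0 → ℕ) i)) k) :=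
    Subsingleton.elim _ _
  rw [e1]
  exact hk1

end Pool.Agent.Work.MP_320dc7_lc
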