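import Mathlib
import Pool.Agent.Work.MP_320dc7_lc.Count

set_option autoImplicit false
set_option linter.unusedSectionVars false

namespace Pool.Agent.Work.MP_320dc7_lc

open Filter FirstOrder FirstOrder.Language

/-- definability in the structure given by `f`, with all parameters -/
def Df (f : ℝ → ℝ) {α : Type} (S : Set (α → ℝ)) : Prop :=
  @Set.Definable ℝ (Set.univ : Set ℝ) Lg (str f) α S

lemma df_rel (f : ℝ → ℝ) {n : ℕ} {α : Type} (R : Rel n) (s : Fin n → α) :
    Df f {v : α → ℝ | relMap f R (fun i => v (s i))} := by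
  let _ := str f
  have h : (∅ : Set ℝ).Definable Lg {v : α → ℝ | relMap f R (fun i => v (s i))} := by
    rw [Set.empty_definable_iff]
    refine ⟨Relations.formula (L := Lg) R (fun i => Term.var (s i)), ?_⟩
    ext v
    rfl
  exact h.mono (Set.empty_subset _)

lemma df_add (f : ℝ → ℝ) {α : Type} (i j k : α) : Df f {v : α → ℝ | v i + v j = v k} :=
  df_rel f Rel.add ![i, j, k]

lemma df_mul (f : ℝ → ℝ) {α : Type} (i j k : α) : Df f {v : α → ℝ | v i * v j = v k} :=
  df_rel f Rel.mul ![i, j, k]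

lemma df_le (f : ℝ → ℝ) {α : Type} (i j : α) : Df f {v : α → ℝ | v i ≤ v j} :=
  df_rel f Rel.le ![i, j]

lemma df_graph (f : ℝ → ℝ) {α : Type} (i j : α) : Df f {v : α → ℝ | f (v i) = v j} :=
  df_rel f Rel.graph ![i, j]

lemma df_const (f : ℝ → ℝ) {α : Type} (i : α) (b : ℝ) : Df f {v : α → ℝ | v i = b} := by
  let _ := str f
  have h := Set.Definable.singleton_of_mem Lg (a := b) (A := Set.univ) (Set.mem_univ _)
  have h1 := Set.Definable.preimage_comp (fun _ : Fin 1 => i) h
  exact h1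

lemma Df.inter {f : ℝ → ℝ} {α : Type} {S T : Set (α → ℝ)} (hS : Df f S) (hT : Df f T) :
    Df f (S ∩ T) := by
  let _ := str f
  exact Set.Definable.inter hS hT

lemma Df.image {f : ℝ → ℝ} {α β : Type} [Finite α] [Finite β] {S : Set (β → ℝ)} (hS : Df f S)
    (g : α → β) : Df f ((fun v : β → ℝ => v ∘ g) '' S) := by
  let _ := str f
  exact Set.Definable.image_comp hS g

lemma Df.preimage {f : ℝ → ℝ} {α β : Type} {S : Set (α → ℝ)} (hS : Df f S)
    (g : α → β) : Df f ((fun v : β → ℝ => v ∘ g) ⁻¹' S) := by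
  let _ := str f
  exact Set.Definable.preimage_comp g hS

/-- the fiber -/
def fib {n : ℕ} (C : Set (Fin (n + 1) → ℝ)) (x : Fin n → ℝ) : Set (Fin 1 → ℝ) :=
  {w : Fin 1 → ℝ | ∃ z ∈ C, (fun j : Fin n => z (Fin.castSucc j)) = x ∧ z (Fin.last n) = w 0}

lemma df_fib {f : ℝ → ℝ} {n : ℕ} {C : Set (Fin (n + 1) → ℝ)} (hC : Df f C) (x : Fin n → ℝ) :
    Df f (fib C x) := by
  let _ := str f
  have h1 : Df f (⋂ j : Fin n, {v : Fin (n + 1) → ℝ | v (Fin.castSucc j) = x j}) :=
    Set.definable_iInter_of_finite (fun j => df_const f (Fin.castSucc j) (x j))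
  have h2 := (hC.inter h1).image (fun _ : Fin 1 => Fin.last n)
  convert h2 using 1
  ext w
  simp only [fib, Set.mem_ofPred_eq, Set.mem_image, Set.mem_inter_iff, Set.mem_iInter]
  constructor
  · rintro ⟨z, hz, h3, h4⟩
    refine ⟨z, ⟨hz, fun j => congrFun h3 j⟩, ?_⟩
    funext i
    rw [Subsingleton.elim i 0]
    exact h4
  · rintro ⟨z, ⟨hz, h3⟩, h4⟩
    exact ⟨z, hz, funext h3, congrFun h4 0⟩

/-- the axioms of a dimension function -/
structure IsDim (f : ℝ → ℝ) (d : (n : ℕ) → Set (Fin n → ℝ) → WithBot ℕ) : Prop where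
  bot : ∀ (n : ℕ) (A : Set (Fin n → ℝ)), Df f A → (d n A = ⊥ ↔ A = ∅)
  pt : ∀ a : ℝ, d 1 ({fun _ => a} : Set (Fin 1 → ℝ)) = 0
  line : d 1 (Set.univ : Set (Fin 1 → ℝ)) = 1
  union : ∀ (n : ℕ) (A B : Set (Fin n → ℝ)), Df f A → Df f B → d n (A ∪ B) = max (d n A) (d n B)
  perm : ∀ (n : ℕ) (σ : Equiv.Perm (Fin n)) (A : Set (Fin n → ℝ)), Df f A →
    d n ((fun x : Fin n → ℝ => x ∘ σ) ⁻¹' A) = d n A
  fibr : ∀ (n : ℕ) (C : Set (Fin (n + 1) → ℝ)), Df f C → ∀ i : ℕ, i ≤ 1 →
    Df f {x : Fin n → ℝ | d 1 (fib C x) = (i : WithBot ℕ)} ∧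
    d (n + 1) (C ∩ {z : Fin (n + 1) → ℝ | d 1 (fib C (fun j : Fin n => z (Fin.castSucc j))) =
      (i : WithBot ℕ)}) = d n {x : Fin n → ℝ | d 1 (fib C x) = (i : WithBot ℕ)} + (i : WithBot ℕ)

section
variable {f : ℝ → ℝ} {d : (n : ℕ) → Set (Fin n → ℝ) → WithBot ℕ}

lemma df_empty (f : ℝ → ℝ) {α : Type} : Df f (∅ : Set (α → ℝ)) := by
  let _ := str f
  exact Set.definable_empty

lemma df_univ (f : ℝ → ℝ) {α : Type} : Df f (Set.univ : Set (α → ℝ)) := by
  let _ := str f
  exact Set.definable_univ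

lemma IsDim.empty (h : IsDim f d) (n : ℕ) : d n ∅ = ⊥ := (h.bot n ∅ (df_empty f)).mpr rfl

lemma IsDim.mono (h : IsDim f d) {n : ℕ} {A B : Set (Fin n → ℝ)} (hA : Df f A) (hB : Df f B)
    (hAB : A ⊆ B) : d n A ≤ d n B := by
  have h1 := h.union n A B hA hB
  rw [Set.union_eq_self_of_subset_left hAB] at h1
  rw [h1]
  exact le_max_left _ _

lemma IsDim.fib_eq (h : IsDim f d) {n : ℕ} {C : Set (Fin (n + 1) → ℝ)} (hC : Df f C)
    (T : Set (Fin n → ℝ)) (i : ℕ) (hi : i ≤ 1) (h1 : ∀ x ∈ T, d 1 (fib C x) = (i : WithBot ℕ))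
    (h2 : ∀ z ∈ C, (fun j : Fin n => z (Fin.castSucc j)) ∈ T) :
    Df f T ∧ d (n + 1) C = d n T + (i : WithBot ℕ) := by
  have hT : {x : Fin n → ℝ | d 1 (fib C x) = (i : WithBot ℕ)} = T := by
    ext x
    rw [Set.mem_ofPred_eq]
    constructor
    · intro hx
      by_contra hxT
      have h3 : fib C x = ∅ := by
        rw [Set.eq_empty_iff_forall_notMem]
        rintro w ⟨z, hz, h4, _⟩
        apply hxT
        rw [← h4]
        exact h2 z hz
      rw [h3, h.empty 1] at hx
      exact WithBot.bot_ne_coe hx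
    · exact h1 x
  have hCC : C ∩ {z : Fin (n + 1) → ℝ | d 1 (fib C (fun j : Fin n => z (Fin.castSucc j))) =
      (i : WithBot ℕ)} = C := by
    apply Set.inter_eq_left.mpr
    intro z hz
    exact h1 _ (h2 z hz)
  have h3 := h.fibr n C hC i hi
  rw [hT, hCC] at h3
  exact h3

lemma fib_eq_point {n : ℕ} {C : Set (Fin (n + 1) → ℝ)} {x : Fin n → ℝ} (y : ℝ)
    (h1 : ∃ z ∈ C, (fun j : Fin n => z (Fin.castSucc j)) = x)
    (h2 : ∀ z ∈ C, (fun j : Fin n => z (Fin.castSucc j)) = x → z (Fin.last n) = y) :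
    fib C x = {fun _ => y} := by
  ext w
  simp only [fib, Set.mem_ofPred_eq, Set.mem_singleton_iff]
  constructor
  · rintro ⟨z, hz, h3, h4⟩
    funext i
    rw [Subsingleton.elim i 0, ← h4]
    exact h2 z hz h3
  · rintro rfl
    obtain ⟨z, hz, h3⟩ := h1
    exact ⟨z, hz, h3, h2 z hz h3⟩

lemma wb0 (x : WithBot ℕ) (h1 : x ≤ 0) (h2 : x ≠ ⊥) : x = ((0 : ℕ) : WithBot ℕ) := by
  obtain ⟨m, rfl⟩ := WithBot.ne_bot_iff_exists.mp h2
  have h3 : m ≤ 0 := WithBot.coe_le_coe.mp h1
  have : m = 0 := by omega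
  rw [this]
  rfl

lemma wb1 (x : WithBot ℕ) (h1 : x ≤ 1) (h2 : x ≠ ⊥) (h3 : x ≠ 0) : x = 1 := by
  obtain ⟨m, rfl⟩ := WithBot.ne_bot_iff_exists.mp h2
  have h4 : m ≤ 1 := WithBot.coe_le_coe.mp h1
  have h5 : m ≠ 0 := fun h => h3 (by rw [h]; rfl)
  have : m = 1 := by omega
  rw [this]
  rfl

/-- no dimension function -/
theorem no_dim (hG : ∀ b z : ℝ, ∃ x, f x = b ∧ f (z - x) = b) : ¬ IsDim f d := by
  intro h
  let X1 : ℝ → Set (Fin 1 → ℝ) := fun b => {v | f (v 0) = b}
  have hX1 : ∀ b, Df f (X1 b) := by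
    intro b
    have h1 := ((df_graph f (0 : Fin 2) 1).inter (df_const f (1 : Fin 2) b)).image
      (fun _ : Fin 1 => (0 : Fin 2))
    convert h1 using 1
    ext v
    simp only [X1, Set.mem_ofPred_eq, Set.mem_image, Set.mem_inter_iff]
    constructor
    · intro hv
      refine ⟨![v 0, b], ⟨by simpa using hv, by simp⟩, ?_⟩
      funext i
      rw [Subsingleton.elim i 0]
      simp
    · rintro ⟨u, ⟨h2, h3⟩, rfl⟩
      simp only [Function.comp_apply]
      rw [h2, h3]
  have hfb : ∀ {α : Type} (i : α) (b : ℝ), Df f {v : α → ℝ | f (v i) = b} := by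
    intro α i b
    exact (hX1 b).preimage (fun _ : Fin 1 => i)
  -- every fiber of `f` has dimension one
  have hone : ∀ b, d 1 (X1 b) = 1 := by
    intro b
    have hne0 : d 1 (X1 b) ≠ 0 := by
      intro h0
      -- the square
      let C2 : Set (Fin 2 → ℝ) := {v | f (v 0) = b} ∩ {v | f (v 1) = b}
      have hC2 : Df f C2 := (hfb 0 b).inter (hfb 1 b)
      have e1 : d 2 C2 = 0 := by
        have h1 := (h.fib_eq hC2 (X1 b) 0 (by norm_num) (by
          intro x hx
          have h2 : fib C2 x = X1 b := by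
            ext w
            simp only [fib, Set.mem_ofPred_eq, X1]
            constructor
            · rintro ⟨z, hz, _, h4⟩
              rw [← h4]
              exact hz.2
            · intro hw
              refine ⟨![x 0, w 0], ⟨?_, ?_⟩, ?_, ?_⟩
              · change f (x 0) = b
                exact hx
              · change f (w 0) = b
                exact hw
              · funext j
                rw [Subsingleton.elim j 0]
                rfl
              · rfl
          rw [h2, h0]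
          rfl) (by
          intro z hz
          exact hz.1)).2
        rw [h1, h0]
        rfl
      let C3 : Set (Fin 3 → ℝ) := ({v | f (v 0) = b} ∩ {v | f (v 1) = b}) ∩ {v | v 0 + v 1 = v 2}
      have hC3 : Df f C3 := ((hfb 0 b).inter (hfb 1 b)).inter (df_add f 0 1 2)
      have e2 : d 3 C3 = 0 := by
        have h1 := (h.fib_eq hC3 C2 0 (by norm_num) (by
          intro x hx
          have h2 : fib C3 x = {fun _ => x 0 + x 1} := by
            apply fib_eq_point
            · refine ⟨![x 0, x 1, x 0 + x 1], ⟨⟨hx.1, hx.2⟩, rfl⟩, ?_⟩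
              funext j
              fin_cases j <;> rfl
            · rintro z hz rfl
              exact hz.2.symm
          rw [h2, h.pt]
          rfl) (by
          intro z hz
          exact ⟨hz.1.1, hz.1.2⟩)).2
        rw [h1, e1]
        rfl
      let C3' : Set (Fin 3 → ℝ) := (fun x : Fin 3 → ℝ => x ∘ (finRotate 3)) ⁻¹' C3
      have hC3' : Df f C3' := hC3.preimage _
      have e3 : d 3 C3' = 0 := by
        rw [← e2]
        exact h.perm 3 (finRotate 3) C3 hC3
      have hmem : ∀ z : Fin 3 → ℝ, z ∈ C3' ↔ (f (z 1) = b ∧ f (z 2) = b) ∧ z 1 + z 2 = z 0 := by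
        intro z
        rfl
      let E2 : Set (Fin 2 → ℝ) := {v | f (v 1) = b ∧ f (v 0 - v 1) = b}
      have e4 := h.fib_eq hC3' E2 0 (by norm_num) (by
        intro x hx
        have h2 : fib C3' x = {fun _ => x 0 - x 1} := by
          apply fib_eq_point
          · refine ⟨![x 0, x 1, x 0 - x 1], (hmem _).mpr ⟨⟨hx.1, hx.2⟩, ?_⟩, ?_⟩
            · change x 1 + (x 0 - x 1) = x 0
              ring
            · funext j
              fin_cases j <;> rfl
          · rintro z hz rfl
            have := ((hmem z).mp hz).2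
            change z 2 = z 0 - z 1
            linarith
        rw [h2, h.pt]
        rfl) (by
        intro z hz
        have h5 := (hmem z).mp hz
        refine ⟨h5.1.1, ?_⟩
        change f (z 0 - z 1) = b
        have : z 0 - z 1 = z 2 := by linarith [h5.2]
        rw [this]
        exact h5.1.2)
      obtain ⟨hE2, e4⟩ := e4
      have e5 := (h.fib_eq hE2 Set.univ 0 (by norm_num) (by
        intro x _
        have h6 : d 1 (fib E2 x) ≤ 0 := by
          rw [← h0]
          apply h.mono (df_fib hE2 x) (hX1 b)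
          rintro w ⟨z, hz, _, h8⟩
          change f (w 0) = b
          rw [← h8]
          exact hz.1
        have h7 : d 1 (fib E2 x) ≠ ⊥ := by
          intro h8
          rw [h.bot 1 _ (df_fib hE2 x)] at h8
          obtain ⟨y, hy1, hy2⟩ := hG b (x 0)
          have h9 : (fun _ : Fin 1 => y) ∈ fib E2 x := by
            refine ⟨![x 0, y], ⟨hy1, hy2⟩, ?_, rfl⟩
            funext j
            rw [Subsingleton.elim j 0]
            rfl
          rw [h8] at h9
          exact h9
        exact wb0 _ h6 h7) (by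
        intro z _
        exact Set.mem_univ _)).2
      rw [h.line] at e5
      rw [e3, e5] at e4
      have : (0 : WithBot ℕ) = ((1 : ℕ) : WithBot ℕ) := by
        rw [e4]
        rfl
      exact absurd this (by decide)
    have hnebot : d 1 (X1 b) ≠ ⊥ := by
      intro h8
      rw [h.bot 1 _ (hX1 b)] at h8
      obtain ⟨y, hy1, _⟩ := hG b 0
      have h9 : (fun _ : Fin 1 => y) ∈ X1 b := hy1
      rw [h8] at h9
      exact h9
    have hle : d 1 (X1 b) ≤ 1 := by
      rw [← h.line]
      exact h.mono (hX1 b) (df_univ f) (Set.subset_univ _)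
    exact wb1 _ hle hnebot hne0
  -- the graph
  let G : Set (Fin 2 → ℝ) := {v | f (v 0) = v 1}
  have hGd : Df f G := df_graph f 0 1
  have g1 := (h.fib_eq hGd Set.univ 0 (by norm_num) (by
    intro x _
    have h2 : fib G x = {fun _ => f (x 0)} := by
      apply fib_eq_point
      · refine ⟨![x 0, f (x 0)], rfl, ?_⟩
        funext j
        rw [Subsingleton.elim j 0]
        rfl
      · rintro z hz rfl
        exact hz.symm
    rw [h2, h.pt]
    rfl) (by
    intro z _
    exact Set.mem_univ _)).2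
  let G' : Set (Fin 2 → ℝ) := (fun x : Fin 2 → ℝ => x ∘ (Equiv.swap 0 1)) ⁻¹' G
  have hG'd : Df f G' := hGd.preimage _
  have hmem : ∀ z : Fin 2 → ℝ, z ∈ G' ↔ f (z 1) = z 0 := by
    intro z
    rfl
  have g2 := (h.fib_eq hG'd Set.univ 1 le_rfl (by
    intro x _
    have h2 : fib G' x = X1 (x 0) := by
      ext w
      simp only [fib, Set.mem_ofPred_eq, X1]
      constructor
      · rintro ⟨z, hz, h3, h4⟩
        rw [← h4]
        have := (hmem z).mp hz
        change f (z 1) = x 0
        rw [this, ← h3]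
        rfl
      · intro hw
        refine ⟨![x 0, w 0], (hmem _).mpr hw, ?_, rfl⟩
        funext j
        rw [Subsingleton.elim j 0]
        rfl
    rw [h2, hone]
    rfl) (by
    intro z _
    exact Set.mem_univ _)).2
  have g3 := h.perm 2 (Equiv.swap 0 1) G hGd
  change d 2 G' = d 2 G at g3
  change d 2 G' = _ at g2
  change d 2 G = _ at g1
  rw [h.line] at g1 g2
  rw [g1, g2] at g3
  exact absurd g3 (by decide)

end

end Pool.Agent.Work.MP_320dc7_lc
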