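import Mathlib
import Pool.Agent.Work.MP_320dc7_lc.Dim

set_option autoImplicit false
set_option linter.unusedSectionVars false

namespace Pool.Agent.Work.MP_320dc7_lc

open Filter FirstOrder FirstOrder.Language

/-- sums of two points in a fiber of a generic function fill the line -/
theorem gen_sum {f : ℝ → ℝ} (hf : Gen f) (b z : ℝ) : ∃ x, f x = b ∧ f (z - x) = b := by
  classical
  have hmeas : MeasurableSet {y : ℕ → ℝ | y 0 + y 1 = z ∧ y 2 = b} := by
    apply MeasurableSet.inter
    · exact measurableSet_eq_fun ((measurable_pi_apply 0).add (measurable_pi_apply 1))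
        measurable_const
    · exact measurableSet_eq_fun (measurable_pi_apply 2) measurable_const
  obtain ⟨y, hy, hyf⟩ := hf ({(0, 2), (1, 2)}, ⟨{y : ℕ → ℝ | y 0 + y 1 = z ∧ y 2 = b}, hmeas⟩,
    fun _ => 0) (by
    refine ⟨{0}, fun _ => 0, 1, one_pos, ?_, ?_, ?_⟩
    · intro x _
      refine ⟨fun i => if i = 0 then x 0 else if i = 1 then z - x 0 else b, ?_, ?_⟩
      · change _ ∧ _
        constructor
        · simp
        · simp
      · intro i hi
        rw [Finset.mem_singleton] at hi
        simp [hi]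
    · intro q hq d
      have hX : ∀ e : ℝ, (MvPolynomial.X ⟨0, Finset.mem_singleton_self 0⟩ - MvPolynomial.C e :
          MvPolynomial ({0} : Finset ℕ) ℝ) ≠ 0 := by
        intro e h0
        have := congrArg (MvPolynomial.eval (fun _ : ({0} : Finset ℕ) => e + 1)) h0
        simp at this
      simp only [Finset.mem_insert, Finset.mem_singleton] at hq
      rcases hq with rfl | rfl
      · refine ⟨_, hX d, ?_⟩
        intro y _ hyd
        simp only [map_sub, MvPolynomial.eval_X, MvPolynomial.eval_C]
        exact sub_eq_zero.mpr hyd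
      · refine ⟨_, hX (z - d), ?_⟩
        intro y hy hyd
        have h1 : y 0 + y 1 = z := hy.1
        have h2 : y 1 = d := hyd
        simp only [map_sub, MvPolynomial.eval_X, MvPolynomial.eval_C]
        linarith
    · intro y hy q hq q' hq' _
      simp only [Finset.mem_insert, Finset.mem_singleton] at hq hq'
      rcases hq with rfl | rfl <;> rcases hq' with rfl | rfl <;> rfl)
  have h0 := (hyf (0, 2) (by simp)).1
  have h1 := (hyf (1, 2) (by simp)).1
  have h2 : y 0 + y 1 = z := hy.1
  have h3 : y 2 = b := hy.2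
  refine ⟨y 0, h0.trans h3, ?_⟩
  have h4 : z - y 0 = y 1 := by linarith
  rw [h4]
  exact h1.trans h3

theorem df_countable_finite {f : ℝ → ℝ} (hf : Gen f) (X : Set ℝ)
    (hX : Df f {v : Fin 1 → ℝ | v 0 ∈ X}) (hc : X.Countable) : X.Finite := by
  let _ := str f
  obtain ⟨A0, _, hA0⟩ := Set.definable_iff_finitely_definable.mp hX
  obtain ⟨φ, hφ⟩ := Set.definable_iff_exists_formula_sum.mp hA0
  refine countable_finite f hf A0 φ X ?_ hc
  intro x
  have h1 : x ∈ X ↔ (fun _ : Fin 1 => x) ∈ {v : Fin 1 → ℝ | v 0 ∈ X} := Iff.rfl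
  rw [h1, hφ]
  exact iff_of_eq (congrArg (fun w => Rlz f φ (Sum.elim (fun p => (p : ℝ)) (fun _ => x)) w)
    (Subsingleton.elim _ _))

/-- the structure is restrained -/
theorem restrained {f : ℝ → ℝ} (hf : Gen f) (n : ℕ) (D : Set (Fin n → ℝ)) (g : (Fin n → ℝ) → ℝ)
    (hdis : DiscreteTopology D)
    (hg : Df f {v : Fin (n + 1) → ℝ | (fun i : Fin n => v (Fin.castSucc i)) ∈ D ∧
      g (fun i : Fin n => v (Fin.castSucc i)) = v (Fin.last n)}) :
    IsNowhereDense (g '' D) := by
  have hDc : D.Countable := by
    have : Countable D := countable_of_Lindelof_of_discrete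
    exact Set.countable_coe_iff.mp this
  have hfin : (g '' D).Finite := by
    apply df_countable_finite hf _ _ (hDc.image g)
    have h1 := hg.image (fun _ : Fin 1 => Fin.last n)
    convert h1 using 1
    ext w
    simp only [Set.mem_ofPred_eq, Set.mem_image]
    constructor
    · rintro ⟨x, hx, hgx⟩
      refine ⟨Fin.snoc x (w 0), ⟨?_, ?_⟩, ?_⟩
      · simpa using hx
      · simpa using hgx
      · funext i
        rw [Subsingleton.elim i 0]
        simp
    · rintro ⟨v, ⟨h2, h3⟩, rfl⟩
      exact ⟨_, h2, h3⟩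
  rw [hfin.isClosed.isNowhereDense_iff]
  rw [interior_eq_empty_iff_dense_compl]
  exact hfin.countable.dense_compl ℝ

end Pool.Agent.Work.MP_320dc7_lc
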